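import Pool.Agent.Run7.h62.Defs

/-!
Internal definitions used in the proof of MP_cef6bb_co (eta of the matching complex is at least
a quarter of the cover number).
-/

namespace Run7.h62

open scoped unitInterval Topology Topology.Homotopy

universe u v w

/-! ### Combinatorial part -/

/-- `H : E → Fin 3 → W` gives the three vertices of an edge; vertices of different classes are
different. -/
def Classes {E : Type u} {W : Type w} (H : E → Fin 3 → W) : Prop :=
  ∀ e f i j, H e i = H f j → i = j

/-- disjoint edges -/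
def Dj {E : Type u} {W : Type w} (H : E → Fin 3 → W) (e f : E) : Prop := ∀ i, H e i ≠ H f i

/-- The set `S` of edges has no cover with fewer than `m` vertices. -/
def Tau {E : Type u} {W : Type w} (H : E → Fin 3 → W) (S : Set E) (m : ℕ) : Prop :=
  ∀ U : Finset W, U.card < m → ∃ e ∈ S, ∀ i, H e i ∉ U

/-- Matchings contained in `S`. -/
def Mat {E : Type u} {W : Type w} (H : E → Fin 3 → W) (S : Set E) (s : Finset E) : Prop :=
  (∀ e ∈ s, e ∈ S) ∧ ∀ e ∈ s, ∀ f ∈ s, e ≠ f → Dj H e f

/-- range of a tuple -/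
def rg {E : Type u} [DecidableEq E] {n : ℕ} (v : Fin n → E) : Finset E := Finset.univ.image v

/-- alternating coboundary on tuples -/
def D {E : Type u} {A : Type v} [AddCommGroup A] {n : ℕ} (f : (Fin n → E) → A)
    (v : Fin (n + 1) → E) : A :=
  ∑ i : Fin (n + 1), ((-1 : ℤ) ^ (i : ℕ)) • f (v ∘ i.succAbove)

/-- Exactness at size `n` of the ordered cochains with coefficients in `A` supported on tuples
whose range satisfies `P`. -/
def Ex {E : Type u} [DecidableEq E] (A : Type v) [AddCommGroup A] (P : Finset E → Prop) :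
    ℕ → Prop
  | 0 => ∀ f : (Fin 0 → E) → A, (∀ v, P (rg v) → D f v = 0) → (∀ v, ¬ P (rg v) → f v = 0) →
      ∀ v, f v = 0
  | n + 1 => ∀ f : (Fin (n + 1) → E) → A, (∀ v, P (rg v) → D f v = 0) →
      (∀ v, ¬ P (rg v) → f v = 0) →
      ∃ g : (Fin n → E) → A, (∀ v, ¬ P (rg v) → g v = 0) ∧ ∀ v, P (rg v) → f v = D g v

/-! ### Topological part -/

/-- skeleton: members with at most `m` elements -/
def skel {E : Type u} (K : Set (Finset E)) (m : ℕ) : Set (Finset E) := {s | s ∈ K ∧ s.card ≤ m}

theorem skel_subset {E : Type u} (K : Set (Finset E)) (m : ℕ) : skel K m ⊆ K := fun _ h => h.1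

theorem Geo_mono {E : Type u} [Fintype E] {K L : Set (Finset E)} (h : K ⊆ L) :
    Geo K ⊆ Geo L := fun _ hx => ⟨hx.1, hx.2.1, hx.2.2.imp fun _ hs => ⟨h hs.1, hs.2⟩⟩

/-- boundary of the cube `[0,1]^n` as a subset of `Fin n → ℝ` -/
def cubeBd (n : ℕ) : Set (Fin n → ℝ) :=
  {x | (∀ i, x i ∈ Set.Icc (0 : ℝ) 1) ∧ ∃ i, x i = 0 ∨ x i = 1}

/-- points with two different coordinates in `{0,1}` go to `x0` -/
def C2 {n : ℕ} {X : Type u} [TopologicalSpace X] (x0 : X) (F : C(Fin (n + 1) → I, X)) : Prop :=
  ∀ t : Fin (n + 1) → I, ∀ i j, i ≠ j → (t i = 0 ∨ t i = 1) → (t j = 0 ∨ t j = 1) → F t = x0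

/-- the class of a generalized loop -/
def cls {N : Type v} {X : Type u} [TopologicalSpace X] {x0 : X} (p : Ω^ N X x0) :
    HomotopyGroup N X x0 := Quotient.mk (GenLoop.Homotopic.setoid N x0) p

/-- the end point `0` or `1` of the unit interval -/
def bI (ε : Bool) : I := if ε then 1 else 0

theorem bI_or (ε : Bool) : bI ε = 0 ∨ bI ε = 1 := by cases ε <;> simp [bI]

/-- the face `t i = ε` of a cube map whose faces of codimension two are trivial -/
def face {n : ℕ} {X : Type u} [TopologicalSpace X] {x0 : X} (F : C(Fin (n + 1) → I, X))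
    (hF : C2 x0 F) (i : Fin (n + 1)) (ε : Bool) : Ω^ (Fin n) X x0 :=
  ⟨⟨fun t => F (i.insertNth (bI ε) t), by
      refine F.continuous.comp (continuous_pi fun j => ?_)
      induction j using i.succAboveCases with
      | x => simpa using continuous_const
      | p j => simpa using continuous_apply j⟩, by
    rintro t ⟨j, hj⟩
    exact hF _ i (i.succAbove j) (Fin.succAbove_ne i j).symm (by simpa using bI_or ε)
      (by simpa using hj)⟩

/-- The map from the cube `[0,1]^n` onto the simplex spanned by the `n+1` (not necessarily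
different) vertices `v 0, ..., v n`, in barycentric coordinates. -/
noncomputable def Q {E : Type u} : (n : ℕ) → (Fin (n + 1) → E) → (Fin n → I) → (E → ℝ)
  | 0, v, _ => by classical exact Pi.single (v 0) 1
  | n + 1, v, t => by
      classical exact (1 - (t 0 : ℝ)) • Pi.single (v 0) 1 + (t 0 : ℝ) • Q n (Fin.tail v) (Fin.tail t)

/-- The inclusion of the part of `|K|` over the members with at most `m` elements is
null-homotopic in `|K|`. -/
def PNull {E : Type u} [Fintype E] (K : Set (Finset E)) (m : ℕ) : Prop :=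
  ∃ (x0 : Geo K) (h : C(Geo (skel K m) × I, Geo K)),
    (∀ x, h (x, 0) = ⟨x.1, Geo_mono (skel_subset K m) x.2⟩) ∧ ∀ x, h (x, 1) = x0

end Run7.h62
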