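import Mathlib

/-!
Definitions for MP_cef6bb_co: geometric realization of a finite abstract simplicial complex,
the connectedness parameter eta, matching complex and cover number of a 3-partite 3-graph.
-/

namespace Run7.h62

universe u v

/-- The geometric realization of a family `K` of finite subsets of a finite set `E`
(an abstract simplicial complex with vertices in `E`), in barycentric coordinates:
nonnegative functions on `E` of sum one that vanish outside some member of `K`. -/
def Geo {E : Type u} [Fintype E] (K : Set (Finset E)) : Set (E → ℝ) :=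
  {x | (∀ e, 0 ≤ x e) ∧ ∑ e, x e = 1 ∧ ∃ s ∈ K, ∀ e, x e ≠ 0 → e ∈ s}

/-- Every continuous map from the unit sphere of Euclidean `n`-space (the sphere of
dimension `n - 1`, empty for `n = 0`) to `X` extends to the closed unit ball. -/
def ExtSphere (X : Type u) [TopologicalSpace X] (n : ℕ) : Prop :=
  ∀ f : C(Metric.sphere (0 : EuclideanSpace ℝ (Fin n)) 1, X),
    ∃ g : C(Metric.closedBall (0 : EuclideanSpace ℝ (Fin n)) 1, X),
      ∀ x : Metric.sphere (0 : EuclideanSpace ℝ (Fin n)) 1,
        g ⟨x.1, Metric.sphere_subset_closedBall x.2⟩ = f x

/-- The connectedness parameter `eta = conn + 2`: the supremum of all `n` such that, for all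
`m < n`, every continuous map from the sphere of dimension `m - 1` to `X` extends to the ball of
dimension `m`. -/
noncomputable def eta (X : Type u) [TopologicalSpace X] : ℕ∞ :=
  ⨆ (n : ℕ) (_ : ∀ m < n, ExtSphere X m), (n : ℕ∞)

/-- The matching complex: the simplices are the sets of pairwise disjoint edges.  The edge
`e : E` consists of the vertices `H e i`, one in each class `V i`; repeated edges are
allowed. -/
def matchings {E : Type u} {V : Fin 3 → Type v} (H : E → ∀ i, V i) : Set (Finset E) :=
  {s | ∀ e ∈ s, ∀ f ∈ s, e ≠ f → ∀ i, H e i ≠ H f i}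

/-- The cover number: the smallest number of vertices meeting every edge. -/
noncomputable def tau {E : Type u} {V : Fin 3 → Type v} (H : E → ∀ i, V i) : ℕ :=
  sInf {n | ∃ C : Finset (Σ i, V i), C.card = n ∧ ∀ e, ∃ i, (⟨i, H e i⟩ : Σ i, V i) ∈ C}

end Run7.h62
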