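import Pool.Agent.Run7.h62.Base

/-!
Simplicial approximation for maps from the boundary of a cube to a geometric realization.
-/

set_option linter.unusedSectionVars false

namespace Run7.h62.APPROX

open Run7.h62 Topology
open scoped unitInterval

universe u

/-- the hat function -/
noncomputable def hat {n : ℕ} (u : Fin n → ℝ) : ℝ :=
  max 0 (1 - ‖fun i => max (u i) 0‖ - ‖fun i => max (-u i) 0‖)

theorem hat_continuous {n : ℕ} : Continuous (hat (n := n)) := by
  unfold hat
  refine continuous_const.max ((continuous_const.sub ?_).sub ?_)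
  · exact continuous_norm.comp (continuous_pi fun i => (continuous_apply i).max continuous_const)
  · exact continuous_norm.comp (continuous_pi fun i =>
      (continuous_apply i).neg.max continuous_const)

theorem hat_nonneg {n : ℕ} (u : Fin n → ℝ) : 0 ≤ hat u := le_max_left _ _

theorem hat_pos {n : ℕ} {u : Fin n → ℝ} (h : 0 < hat u) :
    ∃ M M' : ℝ, 0 ≤ M ∧ 0 ≤ M' ∧ M + M' < 1 ∧ (∀ i, u i ≤ M) ∧ ∀ i, -u i ≤ M' := by
  refine ⟨‖fun i => max (u i) 0‖, ‖fun i => max (-u i) 0‖, norm_nonneg _, norm_nonneg _, ?_, ?_, ?_⟩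
  · unfold hat at h
    rcases lt_max_iff.1 h with h | h
    · exact absurd h (lt_irrefl 0)
    · linarith
  · intro i
    exact (le_max_left _ _).trans ((le_abs_self _).trans (norm_le_pi_norm (fun i => max (u i) 0) i))
  · intro i
    exact (le_max_left _ _).trans ((le_abs_self _).trans
      (norm_le_pi_norm (fun i => max (-u i) 0) i))

theorem hat_diff {n : ℕ} {u : Fin n → ℝ} (h : 0 < hat u) (i j : Fin n) : u i - u j < 1 := by
  obtain ⟨M, M', _, _, h1, h2, h3⟩ := hat_pos h
  linarith [h2 i, h3 j]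

theorem hat_abs {n : ℕ} {u : Fin n → ℝ} (h : 0 < hat u) (i : Fin n) : |u i| < 1 := by
  obtain ⟨M, M', h4, h5, h1, h2, h3⟩ := hat_pos h
  rw [abs_lt]
  constructor <;> linarith [h2 i, h3 i]

theorem hat_of_unit {n : ℕ} {u : Fin n → ℝ} (h0 : ∀ i, 0 ≤ u i) (h1 : ∀ i, u i < 1) :
    0 < hat u := by
  unfold hat
  refine lt_max_of_lt_right ?_
  have h2 : (fun i => max (-u i) 0) = (0 : Fin n → ℝ) := by
    funext i
    exact max_eq_right (by linarith [h0 i])
  rw [h2, norm_zero, sub_zero, sub_pos, pi_norm_lt_iff zero_lt_one]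
  intro i
  rw [max_eq_left (h0 i), Real.norm_eq_abs, abs_of_nonneg (h0 i)]
  exact h1 i

section grid

variable {n : ℕ} (N : ℕ)

/-- the displacement -/
noncomputable def dsp (x : Fin n → ℝ) (w : Fin n → Fin (N + 1)) : Fin n → ℝ :=
  fun i => N * x i - (w i : ℕ)

theorem comparable {x : Fin n → ℝ} {w w' : Fin n → Fin (N + 1)} (h : 0 < hat (dsp N x w))
    (h' : 0 < hat (dsp N x w')) : w ≤ w' ∨ w' ≤ w := by
  by_contra hcon
  rw [not_or, Pi.le_def, Pi.le_def] at hcon
  push Not at hcon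
  obtain ⟨⟨i, hi⟩, j, hj⟩ := hcon
  have h1 := hat_diff h j i
  have h2 := hat_diff h' i j
  have hi' : ((w' i : ℕ) : ℝ) + 1 ≤ (w i : ℕ) := by exact_mod_cast hi
  have hj' : ((w j : ℕ) : ℝ) + 1 ≤ (w' j : ℕ) := by exact_mod_cast hj
  simp only [dsp] at h1 h2
  linarith

theorem diff_le {x : Fin n → ℝ} {w w' : Fin n → Fin (N + 1)} (h : 0 < hat (dsp N x w))
    (h' : 0 < hat (dsp N x w')) (i : Fin n) : (w' i : ℕ) ≤ (w i : ℕ) + 1 := by
  have h1 := abs_lt.1 (hat_abs h i)
  have h2 := abs_lt.1 (hat_abs h' i)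
  simp only [dsp] at h1 h2
  have h3 : ((w' i : ℕ) : ℝ) < (w i : ℕ) + 2 := by linarith [h1.1, h1.2, h2.1, h2.2]
  have h4 : (w' i : ℕ) < (w i : ℕ) + 2 := by exact_mod_cast h3
  omega

theorem fixed {x : Fin n → ℝ} {w : Fin n → Fin (N + 1)} (h : 0 < hat (dsp N x w)) (i : Fin n)
    (hi : x i = 0 ∨ x i = 1) : (w i : ℕ) = if x i = 0 then 0 else N := by
  have h1 := abs_lt.1 (hat_abs h i)
  simp only [dsp] at h1
  have hN : (w i : ℕ) ≤ N := Nat.le_of_lt_succ (w i).2
  split_ifs with h0
  · rw [h0] at h1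
    have : ((w i : ℕ) : ℝ) < 1 := by linarith [h1.1]
    have : (w i : ℕ) < 1 := by exact_mod_cast this
    omega
  · have hx : x i = 1 := hi.resolve_left h0
    rw [hx] at h1
    have : (N : ℝ) < (w i : ℕ) + 1 := by linarith [h1.2]
    have : N < (w i : ℕ) + 1 := by exact_mod_cast this
    omega

open Classical in
/-- the active lattice points -/
noncomputable def act (Bd : Finset (Fin n → Fin (N + 1))) (x : Fin n → ℝ) :
    Finset (Fin n → Fin (N + 1)) := Bd.filter fun w => 0 < hat (dsp N x w)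

theorem card_act (Bd : Finset (Fin n → Fin (N + 1))) (x : Fin n → ℝ)
    (hx : ∃ i, x i = 0 ∨ x i = 1) : (act N Bd x).card ≤ n := by
  classical
  rcases (act N Bd x).eq_empty_or_nonempty with h0 | hne
  · rw [h0]; simp
  obtain ⟨w0, hw0, hmin⟩ := Finset.exists_min_image (act N Bd x) (fun w => ∑ i, (w i : ℕ)) hne
  have hp : ∀ w ∈ act N Bd x, 0 < hat (dsp N x w) := fun w hw => (Finset.mem_filter.1 hw).2
  have heq : ∀ w ∈ act N Bd x, ∀ w' ∈ act N Bd x, ∑ i, (w i : ℕ) = ∑ i, (w' i : ℕ) → w = w' := by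
    have key : ∀ w w' : Fin n → Fin (N + 1), w ≤ w' → ∑ i, (w i : ℕ) = ∑ i, (w' i : ℕ) → w = w' := by
      intro w w' hle hs
      have := (Finset.sum_eq_sum_iff_of_le (fun i _ => Fin.le_def.1 (hle i))).1 hs
      funext i
      exact Fin.ext (this i (Finset.mem_univ i))
    intro w hw w' hw' hs
    rcases comparable N (hp w hw) (hp w' hw') with h | h
    · exact key w w' h hs
    · exact (key w' w h hs.symm).symm
  obtain ⟨i0, hi0⟩ := hx
  have hn : 0 < n := Fin.pos i0
  have hub : ∀ w ∈ act N Bd x, ∑ i, (w i : ℕ) < ∑ i, (w0 i : ℕ) + n := by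
    intro w hw
    have h1 : ∑ i, (w i : ℕ) < ∑ i, ((w0 i : ℕ) + 1) := by
      refine Finset.sum_lt_sum (fun i _ => diff_le N (hp w0 hw0) (hp w hw) i)
        ⟨i0, Finset.mem_univ _, ?_⟩
      rw [fixed N (hp w hw) i0 hi0, fixed N (hp w0 hw0) i0 hi0]
      omega
    rw [Finset.sum_add_distrib] at h1
    simpa using h1
  have h2 : (act N Bd x).card = ((act N Bd x).image fun w => ∑ i, (w i : ℕ)).card :=
    (Finset.card_image_of_injOn fun w hw w' hw' h => heq w hw w' hw' h).symm
  rw [h2]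
  refine (Finset.card_le_card (t := Finset.Ico (∑ i, (w0 i : ℕ)) (∑ i, (w0 i : ℕ) + n)) ?_).trans
    (by simp)
  intro k hk
  obtain ⟨w, hw, rfl⟩ := Finset.mem_image.1 hk
  rw [Finset.mem_Ico]
  exact ⟨hmin w hw, hub w hw⟩

end grid

theorem isCompact_cubeBd (n : ℕ) : IsCompact (cubeBd n) := by
  have h1 : IsClosed (cubeBd n) := by
    have : cubeBd n = Set.Icc 0 1 ∩ ⋃ i, ({x : Fin n → ℝ | x i = 0} ∪ {x | x i = 1}) := by
      ext x
      simp only [cubeBd, Set.mem_ofPred_eq, Set.mem_inter_iff, Set.mem_Icc, Pi.le_def,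
        Set.mem_iUnion, Set.mem_union, Pi.zero_apply, Pi.one_apply]
      constructor
      · rintro ⟨h1, h2⟩
        exact ⟨⟨fun i => (h1 i).1, fun i => (h1 i).2⟩, h2⟩
      · rintro ⟨h1, h2⟩
        exact ⟨fun i => ⟨h1.1 i, h1.2 i⟩, h2⟩
    rw [this]
    refine isClosed_Icc.inter (isClosed_iUnion_of_finite fun i => ?_)
    exact (isClosed_eq (continuous_apply i) continuous_const).union
      (isClosed_eq (continuous_apply i) continuous_const)
  exact (isCompact_Icc (a := (0 : Fin n → ℝ)) (b := 1)).of_isClosed_subset h1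
    fun x hx => ⟨fun i => (hx.1 i).1, fun i => (hx.1 i).2⟩

theorem simp_approx {E : Type u} [Fintype E] (K : Set (Finset E)) (hK : IsLowerSet K) (n : ℕ)
    (f : C(cubeBd n, Geo K)) :
    ∃ g : C(cubeBd n, Geo K), f.Homotopic g ∧ ∀ x, (g x : E → ℝ) ∈ Geo (skel K n) := by
  classical
  have : CompactSpace (cubeBd n) := isCompact_iff_compactSpace.1 (isCompact_cubeBd n)
  rcases isEmpty_or_nonempty (cubeBd n) with hY | ⟨⟨y0⟩⟩
  · exact ⟨f, ContinuousMap.Homotopic.refl f, fun x => (hY.false x).elim⟩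
  have hE : Nonempty E := by
    by_contra hcon
    rw [not_nonempty_iff] at hcon
    have := (f y0).2.2.1
    rw [Finset.univ_eq_empty, Finset.sum_empty] at this
    exact zero_ne_one this
  have hcE : (0 : ℝ) < Fintype.card E := by exact_mod_cast Fintype.card_pos
  -- labels
  have hlab : ∀ x : cubeBd n, ∃ e, 1 / (Fintype.card E : ℝ) ≤ (f x : E → ℝ) e := by
    intro x
    by_contra hcon
    push Not at hcon
    have h1 : ∑ e, (f x : E → ℝ) e < ∑ _e : E, 1 / (Fintype.card E : ℝ) :=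
      Finset.sum_lt_sum_of_nonempty Finset.univ_nonempty fun e _ => hcon e
    rw [(f x).2.2.1, Finset.sum_const, Finset.card_univ, nsmul_eq_mul,
      mul_one_div_cancel hcE.ne'] at h1
    exact lt_irrefl _ h1
  choose lab hlab using hlab
  have huc : UniformContinuous fun x : cubeBd n => (f x : E → ℝ) :=
    CompactSpace.uniformContinuous_of_continuous (continuous_subtype_val.comp f.continuous)
  obtain ⟨δ, hδ, hδf⟩ := Metric.uniformContinuous_iff.1 huc (1 / Fintype.card E) (by positivity)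
  obtain ⟨N, hN⟩ := exists_nat_gt (1 / δ)
  have hN0 : (0 : ℝ) < N := lt_trans (by positivity) hN
  have hNδ : 1 / (N : ℝ) < δ := by
    rw [div_lt_iff₀ hN0]
    rw [div_lt_iff₀ hδ] at hN
    linarith
  have hN0' : 0 < N := by exact_mod_cast hN0
  let Bd : Finset (Fin n → Fin (N + 1)) :=
    Finset.univ.filter fun w => ∃ i, (w i : ℕ) = 0 ∨ (w i : ℕ) = N
  let P : (Fin n → Fin (N + 1)) → Fin n → ℝ := fun w i => (w i : ℕ) / (N : ℝ)
  have hP : ∀ w ∈ Bd, P w ∈ cubeBd n := by
    intro w hw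
    obtain ⟨i, hi⟩ := (Finset.mem_filter.1 hw).2
    refine ⟨fun j => ⟨by positivity, ?_⟩, i, ?_⟩
    · rw [div_le_one hN0]
      exact_mod_cast Nat.le_of_lt_succ (w j).2
    · rcases hi with hi | hi
      · left; simp [P, hi]
      · right; simp only [P, hi]; exact div_self hN0.ne'
  let L : (Fin n → Fin (N + 1)) → E := fun w => if h : P w ∈ cubeBd n then lab ⟨P w, h⟩ else lab y0
  have hL : ∀ w ∈ Bd, ∀ x : cubeBd n, 0 < hat (dsp N x w) → 0 < (f x : E → ℝ) (L w) := by
    intro w hw x hx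
    have h1 : dist x ⟨P w, hP w hw⟩ < δ := by
      rw [Subtype.dist_eq, dist_pi_lt_iff hδ]
      intro i
      have h2 := hat_abs hx i
      simp only [dsp] at h2
      have h3 : (x : Fin n → ℝ) i - P w i = (N * (x : Fin n → ℝ) i - (w i : ℕ)) / N := by
        simp only [P]
        field_simp
      rw [Real.dist_eq, h3, abs_div, abs_of_pos hN0]
      exact ((div_lt_div_iff_of_pos_right hN0).2 h2).trans hNδ
    have h4 := hδf h1
    have h5 := (dist_pi_lt_iff (by positivity)).1 h4 (L w)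
    have h6 : L w = lab ⟨P w, hP w hw⟩ := by simp only [L, hP w hw, dif_pos]
    have h7 := hlab ⟨P w, hP w hw⟩
    rw [← h6] at h7
    rw [Real.dist_eq, abs_lt] at h5
    linarith [h5.1]
  -- the approximation
  let φ : (Fin n → Fin (N + 1)) → cubeBd n → ℝ := fun w x => hat (dsp N x w)
  have hφ : ∀ w, Continuous (φ w) := fun w => hat_continuous.comp (continuous_pi fun i =>
    (continuous_const.mul ((continuous_apply i).comp continuous_subtype_val)).sub continuous_const)
  let sg : cubeBd n → ℝ := fun x => ∑ w ∈ Bd, φ w x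
  have hsgc : Continuous sg := continuous_finsetSum _ fun w _ => hφ w
  have hsg : ∀ x, 0 < sg x := by
    rintro ⟨x, hx1, i0, hi0⟩
    have hfl : ∀ i, ⌊(N : ℝ) * x i⌋₊ < N + 1 := fun i => by
      rw [Nat.lt_succ_iff]
      apply Nat.floor_le_of_le
      nlinarith [(hx1 i).2]
    refine Finset.sum_pos' (fun w _ => hat_nonneg _)
      ⟨fun i => ⟨⌊(N : ℝ) * x i⌋₊, hfl i⟩, ?_, ?_⟩
    · rw [Finset.mem_filter]
      refine ⟨Finset.mem_univ _, i0, ?_⟩
      rcases hi0 with h | h
      · left; simp [h]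
      · right; simp [h]
    · refine hat_of_unit (fun i => ?_) fun i => ?_
      · have := Nat.floor_le (mul_nonneg hN0.le (hx1 i).1)
        simp only [dsp]
        linarith
      · have := Nat.lt_floor_add_one ((N : ℝ) * x i)
        simp only [dsp]
        linarith
  let gv : cubeBd n → E → ℝ := fun x e => (∑ w ∈ Bd, φ w x * if L w = e then 1 else 0) / sg x
  have hgc : Continuous gv := continuous_pi fun e =>
    (continuous_finsetSum _ fun w _ => (hφ w).mul continuous_const).div hsgc fun x => (hsg x).ne'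
  have hg0 : ∀ x e, 0 ≤ gv x e := fun x e => div_nonneg (Finset.sum_nonneg fun w _ =>
    mul_nonneg (hat_nonneg _) (by split_ifs <;> norm_num)) (hsg x).le
  have hg1 : ∀ x, ∑ e, gv x e = 1 := by
    intro x
    simp only [gv]
    rw [← Finset.sum_div, Finset.sum_comm, div_eq_one_iff_eq (hsg x).ne']
    refine Finset.sum_congr rfl fun w _ => ?_
    rw [← Finset.mul_sum]
    simp
  have hgs : ∀ x e, gv x e ≠ 0 → ∃ w ∈ act N Bd x, L w = e := by
    intro x e he
    by_contra hcon
    push Not at hcon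
    apply he
    simp only [gv]
    rw [Finset.sum_eq_zero, zero_div]
    intro w hw
    by_cases hwe : L w = e
    · have h1 : φ w x = 0 := by
        by_contra hne
        exact hcon w (Finset.mem_filter.2 ⟨hw, lt_of_le_of_ne (hat_nonneg _) (Ne.symm hne)⟩) hwe
      rw [h1, zero_mul]
    · rw [if_neg hwe, mul_zero]
  have hgf : ∀ x e, gv x e ≠ 0 → (f x : E → ℝ) e ≠ 0 := by
    intro x e he
    obtain ⟨w, hw, rfl⟩ := hgs x e he
    exact (hL w (Finset.mem_filter.1 hw).1 x (Finset.mem_filter.1 hw).2).ne'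
  have hgK : ∀ x, gv x ∈ Geo K := by
    intro x
    obtain ⟨_, _, s, hs, hxs⟩ := (f x).2
    exact ⟨hg0 x, hg1 x, s, hs, fun e he => hxs e (hgf x e he)⟩
  have hgn : ∀ x, gv x ∈ Geo (skel K n) := by
    intro x
    refine ⟨hg0 x, hg1 x, (act N Bd x).image L, ⟨?_, ?_⟩, fun e he => ?_⟩
    · obtain ⟨_, _, s, hs, hxs⟩ := (f x).2
      refine hK ?_ hs
      intro e he
      obtain ⟨w, hw, rfl⟩ := Finset.mem_image.1 he
      exact hxs _ (hL w (Finset.mem_filter.1 hw).1 x (Finset.mem_filter.1 hw).2).ne'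
    · exact Finset.card_image_le.trans (card_act N Bd x x.2.2)
    · obtain ⟨w, hw, rfl⟩ := hgs x e he
      exact Finset.mem_image_of_mem L hw
  refine ⟨⟨fun x => ⟨gv x, hgK x⟩, hgc.subtype_mk _⟩, ?_, hgn⟩
  have hHK : ∀ p : I × cubeBd n, (fun e => (1 - (p.1 : ℝ)) * (f p.2 : E → ℝ) e +
      (p.1 : ℝ) * gv p.2 e) ∈ Geo K := by
    rintro ⟨t, x⟩
    obtain ⟨h1, h2, s, hs, hxs⟩ := (f x).2
    refine ⟨fun e => add_nonneg (mul_nonneg (by linarith [t.2.2]) (h1 e))
      (mul_nonneg t.2.1 (hg0 x e)), ?_, s, hs, fun e he => ?_⟩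
    · rw [Finset.sum_add_distrib, ← Finset.mul_sum, ← Finset.mul_sum, h2, hg1]
      ring
    · by_contra hes
      have h3 : (f x : E → ℝ) e = 0 := by
        by_contra hne
        exact hes (hxs e hne)
      have h4 : gv x e = 0 := by
        by_contra hne
        exact hgf x e hne h3
      apply he
      simp [h3, h4]
  refine ⟨⟨⟨fun p => ⟨_, hHK p⟩, ?_⟩, fun x => ?_, fun x => ?_⟩⟩
  · refine Continuous.subtype_mk (continuous_pi fun e => ?_) _
    have ht : Continuous fun p : I × cubeBd n => (p.1 : ℝ) :=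
      continuous_subtype_val.comp continuous_fst
    have hfe : Continuous fun p : I × cubeBd n => (f p.2 : E → ℝ) e :=
      (continuous_apply e).comp (continuous_subtype_val.comp (f.continuous.comp continuous_snd))
    have hge : Continuous fun p : I × cubeBd n => gv p.2 e :=
      (continuous_apply e).comp (hgc.comp continuous_snd)
    exact ((continuous_const.sub ht).mul hfe).add (ht.mul hge)
  · apply Subtype.ext
    funext e
    simp
  · apply Subtype.ext
    funext e
    simp

end Run7.h62.APPROX
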