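import Pool.Agent.Run7.h62.PRAINBOW

/-!
Group valued cocycles on matchings are coboundaries when the cover number is at least nine.
The combinatorial lemma on linear systems is a hypothesis `T4S` here.
-/

set_option linter.unusedSectionVars false

namespace Run7.h62.PI1

open Run7.h62 Run7.h62.RAINBOW

universe u v w

variable {E : Type u} {W : Type w} {H : E → Fin 3 → W}

/-- the statement of the lemma on linear systems -/
def T4S (H : E → Fin 3 → W) (G : Type v) : Prop :=
  ∀ (R : Set E)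
    (_ : ∀ e ∈ R, ∀ f ∈ R, e ≠ f → ∀ i j, i ≠ j → H e i = H f i → H e j ≠ H f j)
    (_ : Tau H R 4) (ψ : E → G) (_ : ∀ e ∈ R, ∀ f ∈ R, Dj H e f → ψ e = ψ f),
    ∃ g : G, (∀ e ∈ R, ∀ f ∈ R, ψ e ≠ g → ψ f ≠ g → e ≠ f → Dj H e f) ∧
      ((∀ e ∈ R, ψ e = g) ∨
        ∀ (f : E) (i j : Fin 3), i ≠ j → ∃ a ∈ R, ∃ b ∈ R, a ≠ b ∧ ¬ Dj H a b ∧ ψ a = g ∧
          ψ b = g ∧ H a i ≠ H f i ∧ H a j ≠ H f j ∧ H b i ≠ H f i ∧ H b j ≠ H f j)

/-- cocycles on the disjoint pairs of `S` -/
def Coc (H : E → Fin 3 → W) {G : Type v} [Group G] (c : E → E → G) (S : Set E) : Prop :=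
  (∀ e ∈ S, ∀ f ∈ S, ∀ g ∈ S, Dj H e f → Dj H f g → Dj H e g → c e f * c f g = c e g) ∧
    ∀ e ∈ S, ∀ f ∈ S, Dj H e f → c f e = (c e f)⁻¹

/-- the cocycle is a coboundary on `S` -/
def Triv (H : E → Fin 3 → W) {G : Type v} [Group G] (c : E → E → G) (S : Set E) : Prop :=
  ∃ b : E → G, ∀ e ∈ S, ∀ f ∈ S, Dj H e f → c e f = (b e)⁻¹ * b f

theorem dj_symm {e f : E} (h : Dj H e f) : Dj H f e := fun i hi => h i hi.symm

theorem not_Dj_self (e : E) : ¬ Dj H e e := fun h => h 0 rfl

theorem tau_nonempty {S : Set E} {m : ℕ} (h : Tau H S m) (hm : 0 < m) : ∃ e, e ∈ S := by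
  obtain ⟨e, he, _⟩ := h ∅ (by simpa using hm)
  exact ⟨e, he⟩

theorem tau_sub {S T : Set E} {m m' : ℕ} (h : Tau H S m) (U : Finset W) (hU : m' + U.card ≤ m)
    (hT : ∀ e ∈ S, (∀ i, H e i ∉ U) → e ∈ T) : Tau H T m' := by
  classical
  intro U' hU'
  obtain ⟨e, he, hi⟩ := h (U ∪ U') (by
    have := Finset.card_union_le U U'
    omega)
  exact ⟨e, hT e he fun i hiU => hi i (Finset.mem_union_left _ hiU),
    fun i hiU => hi i (Finset.mem_union_right _ hiU)⟩

theorem tau_mono {S T : Set E} {m m' : ℕ} (h : Tau H S m) (hm : m' ≤ m) (hST : S ⊆ T) :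
    Tau H T m' := tau_sub h ∅ (by simpa using hm) fun _ he _ => hST he

theorem Coc.mono {G : Type v} [Group G] {c : E → E → G} {S T : Set E} (h : Coc H c S)
    (hTS : T ⊆ S) : Coc H c T :=
  ⟨fun e he f hf g hg => h.1 e (hTS he) f (hTS hf) g (hTS hg),
    fun e he f hf => h.2 e (hTS he) f (hTS hf)⟩

open Classical in
/-- vertices of an edge -/
noncomputable def vs (H : E → Fin 3 → W) (e : E) : Finset W := Finset.univ.image (H e)

theorem mem_vs {e : E} (i : Fin 3) : H e i ∈ vs H e := by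
  classical
  unfold vs
  exact Finset.mem_image_of_mem _ (Finset.mem_univ i)

theorem card_vs (e : E) : (vs H e).card ≤ 3 := by
  classical
  unfold vs
  exact Finset.card_image_le.trans (by simp)

theorem Dj_of_vs {e f : E} (h : ∀ i, H f i ∉ vs H e) : Dj H e f := fun i hi =>
  h i (hi ▸ mem_vs i)

theorem third (i j : Fin 3) (hij : i ≠ j) : ∃ l : Fin 3, l ≠ i ∧ l ≠ j ∧
    ∀ k, k = i ∨ k = j ∨ k = l := by
  revert i j
  decide

section conn

variable [Fintype E] [DecidableEq E]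

theorem Mat_singleton {S : Set E} {e : E} (he : e ∈ S) (v : Fin 1 → E) (hv : v 0 = e) :
    Mat H S (rg v) := by
  have h : ∀ x ∈ rg v, x = e := by
    intro x hx
    obtain ⟨i, rfl⟩ := mem_rg.1 hx
    rw [Fin.fin_one_eq_zero i, hv]
  exact ⟨fun x hx => h x hx ▸ he, fun x hx y hy hxy => absurd ((h x hx).trans (h y hy).symm) hxy⟩

theorem conn {T : Set E} (hT : Tau H T 5) {α : Type v} (φ : E → α)
    (h : ∀ e ∈ T, ∀ f ∈ T, Dj H e f → φ e = φ f) : ∀ e ∈ T, ∀ f ∈ T, φ e = φ f := by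
  classical
  intro e he f hf
  obtain ⟨g, _, hg⟩ := hom_conn H T 1 hT (ZMod 2) 1 le_rfl
    (fun v => if Mat H T (rg v) ∧ φ (v 0) = φ e then 1 else 0) (by
      intro w hw
      have hM : ∀ i : Fin 2, Mat H T (rg (w ∘ i.succAbove)) := fun i =>
        ⟨fun x hx => hw.1 x (rg_comp _ _ hx), fun x hx y hy =>
          hw.2 x (rg_comp _ _ hx) y (rg_comp _ _ hy)⟩
      have h0 : w 0 ∈ T := hw.1 _ (mem_rg.2 ⟨0, rfl⟩)
      have h1 : w 1 ∈ T := hw.1 _ (mem_rg.2 ⟨1, rfl⟩)
      have h2 : φ (w 0) = φ (w 1) := by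
        by_cases h01 : w 0 = w 1
        · rw [h01]
        · exact h _ h0 _ h1 (hw.2 _ (mem_rg.2 ⟨0, rfl⟩) _ (mem_rg.2 ⟨1, rfl⟩) h01)
      unfold D
      rw [Fin.sum_univ_two]
      have e0 : (w ∘ Fin.succAbove 0) 0 = w 1 := rfl
      have e1 : (w ∘ Fin.succAbove 1) 0 = w 0 := rfl
      simp only [hM, true_and, e0, e1, h2, Fin.val_zero, pow_zero, one_smul, Fin.val_one, pow_one,
        neg_smul]
      exact add_neg_cancel _) (by
      intro v hv
      exact if_neg fun h => hv h.1)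
  have hc : ∀ x ∈ T, (if φ x = φ e then (1 : ZMod 2) else 0) = g fun i => i.elim0 := by
    intro x hx
    have hM : Mat H T (rg fun _ : Fin 1 => x) := Mat_singleton hx _ rfl
    have h1 := hg (fun _ => x) hM
    simp only [hM, true_and] at h1
    rw [h1]
    unfold D
    rw [Fin.sum_univ_succ]
    simp only [Fin.val_zero, pow_zero, one_smul, Finset.univ_eq_empty, Finset.sum_empty, add_zero]
    congr 1
    exact Subsingleton.elim _ _
  have h1 := (hc e he).trans (hc f hf).symm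
  rw [if_pos rfl] at h1
  by_contra hne
  rw [if_neg fun h => hne h.symm] at h1
  exact absurd h1 (by decide)

variable {G : Type v} [Group G] {c : E → E → G}

theorem bl {S T : Set E} (hc : Coc H c S) (hT : Triv H c T) (hTS : T ⊆ S)
    (hP : ∀ e ∈ S, e ∉ T → ∀ f ∈ S, f ∉ T → ¬ Dj H e f)
    (hL : ∀ e ∈ S, e ∉ T → Tau H {f | f ∈ T ∧ Dj H e f} 5) : Triv H c S := by
  classical
  obtain ⟨b0, hb0⟩ := hT
  have ha : ∀ e, ∃ a : G, e ∈ S → e ∉ T → ∀ f ∈ T, Dj H e f → b0 f * c f e = a := by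
    intro e
    by_cases he : e ∈ S ∧ e ∉ T
    · have hl := hL e he.1 he.2
      obtain ⟨f0, hf0⟩ := tau_nonempty hl (by norm_num)
      refine ⟨b0 f0 * c f0 e, fun _ _ f hf hef => ?_⟩
      refine conn hl (fun f => b0 f * c f e) ?_ f ⟨hf, hef⟩ f0 hf0
      rintro x ⟨hx, hex⟩ y ⟨hy, hey⟩ hxy
      show b0 x * c x e = b0 y * c y e
      rw [← hc.1 x (hTS hx) y (hTS hy) e he.1 hxy (dj_symm hey) (dj_symm hex), hb0 x hx y hy hxy]
      group
    · exact ⟨1, fun h1 h2 => absurd ⟨h1, h2⟩ he⟩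
  choose a ha using ha
  refine ⟨fun e => if e ∈ T then b0 e else a e, fun e he f hf hef => ?_⟩
  by_cases heT : e ∈ T
  · by_cases hfT : f ∈ T
    · simp only [heT, hfT, if_true]
      exact hb0 e heT f hfT hef
    · simp only [heT, hfT, if_true, if_false]
      rw [← ha f hf hfT e heT (dj_symm hef)]
      group
  · by_cases hfT : f ∈ T
    · simp only [heT, hfT, if_true, if_false]
      rw [← ha e he heT f hfT hef, ← inv_inv (c e f), ← hc.2 e he f hf hef]
      group
    · exact absurd hef (hP e he heT f hf hfT)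

theorem add_vertex (hcl : Classes H) {S : Set E} (hc : Coc H c S) (hS : Tau H S 8) (x : W)
    (h : Triv H c {e | e ∈ S ∧ ∀ i, H e i ≠ x}) : Triv H c S := by
  classical
  refine bl hc h (fun e he => he.1) ?_ ?_
  · intro e he heT f hf hfT hef
    have h1 : ∃ i, H e i = x := by
      by_contra hcon
      push Not at hcon
      exact heT ⟨he, hcon⟩
    have h2 : ∃ i, H f i = x := by
      by_contra hcon
      push Not at hcon
      exact hfT ⟨hf, hcon⟩
    obtain ⟨i, hi⟩ := h1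
    obtain ⟨j, hj⟩ := h2
    have hij := hcl e f i j (hi.trans hj.symm)
    subst hij
    exact hef i (hi.trans hj.symm)
  · intro e he heT
    have h1 : ∃ i, H e i = x := by
      by_contra hcon
      push Not at hcon
      exact heT ⟨he, hcon⟩
    obtain ⟨i, hi⟩ := h1
    refine tau_sub hS (vs H e) (by have := card_vs (H := H) e; omega) fun f hf hfe => ?_
    exact ⟨⟨hf, fun j hj => hfe j (by rw [hj, ← hi]; exact mem_vs i)⟩, Dj_of_vs hfe⟩

theorem two_vertices (hcl : Classes H) {S : Set E} (hc : Coc H c S) (hS : Tau H S 9) (x y : W)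
    (h : Triv H c {e | e ∈ S ∧ ∀ i, H e i ≠ x ∧ H e i ≠ y}) : Triv H c S := by
  refine add_vertex hcl hc (tau_mono hS (by norm_num) subset_rfl) x ?_
  refine add_vertex hcl (x := y) (S := {e | e ∈ S ∧ ∀ i, H e i ≠ x}) (hc.mono fun e he => he.1)
    ?_ ?_
  · refine tau_sub hS {x} (by simp) fun e he h => ⟨he, fun i hi => h i (by simp [hi])⟩
  · have : {e | e ∈ {e | e ∈ S ∧ ∀ i, H e i ≠ x} ∧ ∀ i, H e i ≠ y} =
        {e | e ∈ S ∧ ∀ i, H e i ≠ x ∧ H e i ≠ y} := by
      ext e
      constructor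
      · rintro ⟨⟨h1, h2⟩, h3⟩
        exact ⟨h1, fun i => ⟨h2 i, h3 i⟩⟩
      · rintro ⟨h1, h2⟩
        exact ⟨⟨h1, fun i => (h2 i).1⟩, fun i => (h2 i).2⟩
    rw [this]
    exact h

theorem no_parallel {S : Set E} (hc : Coc H c S) (hS : Tau H S 9)
    (ih : ∀ T : Set E, T ⊂ S → Tau H T 9 → Triv H c T) (hno : ¬ Triv H c S) (e e' : E)
    (he : e ∈ S) (he' : e' ∈ S) (hne : e ≠ e') (h : ∀ i, H e i = H e' i) : False := by
  classical
  have h1 : ¬ Tau H (S \ {e}) 9 := by
    intro hT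
    have hlt : S \ {e} ⊂ S := by
      refine ⟨Set.sdiff_subset, fun hsub => ?_⟩
      exact (hsub he).2 rfl
    refine hno (bl hc (ih _ hlt hT) Set.sdiff_subset ?_ ?_)
    · intro x hx hxT y hy hyT hxy
      have hxe : x = e := by
        by_contra hcon
        exact hxT ⟨hx, hcon⟩
      have hye : y = e := by
        by_contra hcon
        exact hyT ⟨hy, hcon⟩
      rw [hxe, hye] at hxy
      exact not_Dj_self e hxy
    · intro x hx hxT
      refine tau_sub hS (vs H x) (by have := card_vs (H := H) x; omega) fun f hf hfx => ?_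
      have hxe : x = e := by
        by_contra hcon
        exact hxT ⟨hx, hcon⟩
      refine ⟨⟨hf, fun hfe => ?_⟩, Dj_of_vs hfx⟩
      have hfe' : f = e := hfe
      rw [hfe', ← hxe] at hfx
      exact hfx 0 (mem_vs 0)
  refine h1 fun U hU => ?_
  obtain ⟨f, hf, hfU⟩ := hS U hU
  by_cases hfe : f = e
  · refine ⟨e', ⟨he', fun h => hne h.symm⟩, fun i => ?_⟩
    rw [← h i, ← hfe]
    exact hfU i
  · exact ⟨f, ⟨hf, hfe⟩, hfU⟩

theorem linear (hcl : Classes H) {S : Set E} (hc : Coc H c S) (hS : Tau H S 9)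
    (ih : ∀ T : Set E, T ⊂ S → Tau H T 9 → Triv H c T) (hno : ¬ Triv H c S) (e1 e2 : E)
    (he1 : e1 ∈ S) (he2 : e2 ∈ S) (hne : e1 ≠ e2) (i j : Fin 3) (hij : i ≠ j)
    (hi : H e1 i = H e2 i) (hj : H e1 j = H e2 j) : False := by
  classical
  obtain ⟨l, hli, hlj, hall⟩ := third i j hij
  have hz : H e1 l ≠ H e2 l := by
    intro hl
    refine no_parallel hc hS ih hno e1 e2 he1 he2 hne fun k => ?_
    rcases hall k with rfl | rfl | rfl
    · exact hi
    · exact hj
    · exact hl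
  refine hno (two_vertices hcl hc hS (H e1 i) (H e1 j) ?_)
  set T : Set E := {e | e ∈ S ∧ ∀ k, H e k ≠ H e1 i ∧ H e k ≠ H e1 j} with hT
  have hTS : T ⊆ S := fun e he => he.1
  -- edges of T avoiding z are disjoint from e1
  have d1 : ∀ f ∈ T, H f l ≠ H e1 l → Dj H e1 f := by
    intro f hf hfl k hk
    rcases hall k with rfl | rfl | rfl
    · exact (hf.2 k).1 hk.symm
    · exact (hf.2 k).2 hk.symm
    · exact hfl hk.symm
  have d2 : ∀ f ∈ T, H f l ≠ H e2 l → Dj H e2 f := by
    intro f hf hfl k hk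
    rcases hall k with rfl | rfl | rfl
    · exact (hf.2 k).1 (by rw [← hk, hi])
    · exact (hf.2 k).2 (by rw [← hk, hj])
    · exact hfl hk.symm
  -- relation along disjoint pairs
  have r1 : ∀ f ∈ T, H f l ≠ H e1 l → ∀ f' ∈ T, H f' l ≠ H e1 l → Dj H f f' →
      c f f' = (c e1 f)⁻¹ * c e1 f' := by
    intro f hf hfl f' hf' hfl' hff
    rw [← hc.1 e1 he1 f hf.1 f' hf'.1 (d1 f hf hfl) hff (d1 f' hf' hfl')]
    group
  have r2 : ∀ f ∈ T, H f l ≠ H e2 l → ∀ f' ∈ T, H f' l ≠ H e2 l → Dj H f f' →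
      c f f' = (c e2 f)⁻¹ * c e2 f' := by
    intro f hf hfl f' hf' hfl' hff
    rw [← hc.1 e2 he2 f hf.1 f' hf'.1 (d2 f hf hfl) hff (d2 f' hf' hfl')]
    group
  set T0 : Set E := {f | f ∈ T ∧ H f l ≠ H e1 l ∧ H f l ≠ H e2 l} with hT0
  have hT0tau : Tau H T0 5 := by
    refine tau_sub hS {H e1 i, H e1 j, H e1 l, H e2 l} ?_ fun f hf hfU => ?_
    · have := Finset.card_le_four (a := H e1 i) (b := H e1 j) (c := H e1 l) (d := H e2 l)
      omega
    · simp only [Finset.mem_insert, Finset.mem_singleton, not_or] at hfU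
      exact ⟨⟨hf, fun k => ⟨(hfU k).1, (hfU k).2.1⟩⟩, (hfU l).2.2.1, (hfU l).2.2.2⟩
  obtain ⟨h0, hh0⟩ := tau_nonempty hT0tau (by norm_num)
  have hconst := conn hT0tau (fun f => c e2 f * (c e1 f)⁻¹) (by
    intro f hf f' hf' hff
    show c e2 f * (c e1 f)⁻¹ = c e2 f' * (c e1 f')⁻¹
    have h1 := r1 f hf.1 hf.2.1 f' hf'.1 hf'.2.1 hff
    have h2 := r2 f hf.1 hf.2.2 f' hf'.1 hf'.2.2 hff
    rw [h1] at h2
    have h3 : c e2 f' = c e2 f * ((c e1 f)⁻¹ * c e1 f') := by rw [h2]; group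
    rw [h3]
    group)
  set γ : G := c e2 h0 * (c e1 h0)⁻¹ with hγ
  have hg : ∀ f ∈ T0, c e1 f = γ⁻¹ * c e2 f := by
    intro f hf
    have h1 : c e2 f * (c e1 f)⁻¹ = γ := hconst f hf h0 hh0
    rw [← h1]
    group
  let b : E → G := fun f => if H f l = H e1 l then γ⁻¹ * c e2 f else c e1 f
  -- the basic case
  have key1 : ∀ f ∈ T, ∀ f' ∈ T, Dj H f f' → H f l = H e1 l → H f' l ≠ H e2 l →
      c f f' = (b f)⁻¹ * b f' := by
    intro f hf f' hf' hff hfl hfl'
    have hfl1 : H f' l ≠ H e1 l := fun h => hff l (hfl.trans h.symm)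
    have e1' : b f = γ⁻¹ * c e2 f := if_pos hfl
    have e2' : b f' = c e1 f' := if_neg hfl1
    rw [e1', e2', hg f' ⟨hf', hfl1, hfl'⟩, r2 f hf (by rw [hfl]; exact hz) f' hf' hfl' hff]
    group
  have key2 : ∀ f ∈ T, ∀ f' ∈ T, Dj H f f' → H f l ≠ H e1 l → H f' l ≠ H e1 l →
      c f f' = (b f)⁻¹ * b f' := by
    intro f hf f' hf' hff hfl hfl'
    have e1' : b f = c e1 f := if_neg hfl
    have e2' : b f' = c e1 f' := if_neg hfl'
    rw [e1', e2', r1 f hf hfl f' hf' hfl' hff]
  have key3 : ∀ f ∈ T, ∀ f' ∈ T, Dj H f f' → H f l = H e1 l → c f f' = (b f)⁻¹ * b f' := by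
    intro f hf f' hf' hff hfl
    by_cases hfl' : H f' l = H e2 l
    · have hfl1 : H f' l ≠ H e1 l := fun h => hff l (hfl.trans h.symm)
      -- a common neighbour
      obtain ⟨g, hg', hgU⟩ := hS ({H e1 i, H e1 j, H e1 l, H e2 l} ∪
          ({H f i, H f j, H f' i, H f' j} : Finset W)) (by
        have h1 := Finset.card_union_le ({H e1 i, H e1 j, H e1 l, H e2 l} : Finset W)
          ({H f i, H f j, H f' i, H f' j} : Finset W)
        have h2 := Finset.card_le_four (a := H e1 i) (b := H e1 j) (c := H e1 l) (d := H e2 l)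
        have h3 := Finset.card_le_four (a := H f i) (b := H f j) (c := H f' i) (d := H f' j)
        omega)
      simp only [Finset.mem_union, Finset.mem_insert, Finset.mem_singleton, not_or] at hgU
      have hgT : g ∈ T := ⟨hg', fun k => ⟨(hgU k).1.1, (hgU k).1.2.1⟩⟩
      have hgl1 : H g l ≠ H e1 l := (hgU l).1.2.2.1
      have hgl2 : H g l ≠ H e2 l := (hgU l).1.2.2.2
      have hfg : Dj H f g := by
        intro k hk
        rcases hall k with rfl | rfl | rfl
        · exact (hgU k).2.1 hk.symm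
        · exact (hgU k).2.2.1 hk.symm
        · exact hgl1 (by rw [← hk, hfl])
      have hgf' : Dj H g f' := by
        intro k hk
        rcases hall k with rfl | rfl | rfl
        · exact (hgU k).2.2.2.1 hk
        · exact (hgU k).2.2.2.2 hk
        · exact hgl2 (by rw [hk, hfl'])
      rw [← hc.1 f hf.1 g hg' f' hf'.1 hfg hgf' hff, key1 f hf g hgT hfg hfl hgl2,
        key2 g hgT f' hf' hgf' hgl1 hfl1]
      group
    · exact key1 f hf f' hf' hff hfl hfl'
  refine ⟨b, fun f hf f' hf' hff => ?_⟩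
  by_cases h1 : H f l = H e1 l
  · exact key3 f hf f' hf' hff h1
  · by_cases h2 : H f' l = H e1 l
    · rw [← inv_inv (c f f'), ← hc.2 f hf.1 f' hf'.1 hff, key3 f' hf' f hf (dj_symm hff) h2]
      group
    · exact key2 f hf f' hf' hff h1 h2

theorem other (m : Fin 3) : ∃ i j : Fin 3, i ≠ j ∧ ∀ k, k = i ∨ k = j ∨ k = m := by
  revert m
  decide

theorem zmod_aux : ∀ x y z : ZMod 2, (x = 0 ∨ x = 1) → (y = 0 ∨ y = 1) → (z = 0 ∨ z = 1) →
    (x = 0 → y = 0 → z = 0) → (x = 0 → z = 0 → y = 0) → (y = 0 → z = 0 → x = 0) →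
    ¬ (x = 1 ∧ y = 1 ∧ z = 1) → x - z + y = 0 := by
  decide

theorem pi1_main (hcl : Classes H) (h4 : T4S H G) {S : Set E} (hc : Coc H c S) (hS : Tau H S 9)
    (ih : ∀ T : Set E, T ⊂ S → Tau H T 9 → Triv H c T) : Triv H c S := by
  classical
  by_contra hno
  have hlin : ∀ e ∈ S, ∀ f ∈ S, e ≠ f → ∀ i j, i ≠ j → H e i = H f i → H e j ≠ H f j :=
    fun e he f hf hef i j hij hi hj =>
      linear hcl hc hS ih hno e f he hf hef i j hij hi hj
  obtain ⟨e0, he0⟩ := tau_nonempty hS (by norm_num)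
  let R : E → Set E := fun f => {h | h ∈ S ∧ Dj H e0 h ∧ Dj H f h}
  have hRS : ∀ f, R f ⊆ S := fun f h hh => hh.1
  -- the value functions
  have hval : ∀ f : E, ∃ g : G, f ∈ S → f ≠ e0 → ¬ Dj H e0 f →
      (∀ e ∈ R f, ∀ f' ∈ R f, c e0 e * c e f ≠ g → c e0 f' * c f' f ≠ g → e ≠ f' → Dj H e f') ∧
      ((∀ e ∈ R f, c e0 e * c e f = g) ∨
        ∀ (f' : E) (i j : Fin 3), i ≠ j → ∃ a ∈ R f, ∃ b ∈ R f, a ≠ b ∧ ¬ Dj H a b ∧
          c e0 a * c a f = g ∧ c e0 b * c b f = g ∧ H a i ≠ H f' i ∧ H a j ≠ H f' j ∧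
          H b i ≠ H f' i ∧ H b j ≠ H f' j) := by
    intro f
    by_cases hf : f ∈ S ∧ f ≠ e0 ∧ ¬ Dj H e0 f
    · obtain ⟨hf1, hf2, hf3⟩ := hf
      have htau : Tau H (R f) 4 := by
        unfold Dj at hf3
        push Not at hf3
        obtain ⟨m, hm⟩ := hf3
        refine tau_sub hS (vs H e0 ∪ (vs H f).erase (H f m)) ?_ fun h hh hU => ?_
        · have h1 := Finset.card_union_le (vs H e0) ((vs H f).erase (H f m))
          have h2 := card_vs (H := H) e0
          have h3 := card_vs (H := H) f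
          rw [Finset.card_erase_of_mem (mem_vs m)] at h1
          omega
        · have hU1 : ∀ i, H h i ∉ vs H e0 := fun i hi => hU i (Finset.mem_union_left _ hi)
          have hd := Dj_of_vs hU1
          refine ⟨hh, hd, fun k hk => ?_⟩
          by_cases hkm : H f k = H f m
          · have h5 : H e0 m = H h k := by rw [hm, ← hkm, hk]
            have h6 := hcl _ _ _ _ h5
            subst h6
            exact hd _ h5
          · refine hU k (Finset.mem_union_right _ ?_)
            rw [← hk]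
            exact Finset.mem_erase.2 ⟨hkm, mem_vs k⟩
      obtain ⟨g, hg1, hg2⟩ := h4 (R f)
        (fun e he f' hf' => hlin e (hRS f he) f' (hRS f hf')) htau (fun h => c e0 h * c h f) (by
          intro h hh h' hh' hd
          show c e0 h * c h f = c e0 h' * c h' f
          rw [← hc.1 e0 he0 h hh.1 h' hh'.1 hh.2.1 hd hh'.2.1,
            ← hc.1 h hh.1 h' hh'.1 f hf1 hd (dj_symm hh'.2.2) (dj_symm hh.2.2)]
          group)
      exact ⟨g, fun _ _ _ => ⟨hg1, hg2⟩⟩
    · exact ⟨1, fun h1 h2 h3 => absurd ⟨h1, h2, h3⟩ hf⟩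
  choose g hg using hval
  -- a common good neighbour
  have hcommon : ∀ f ∈ S, f ≠ e0 → ¬ Dj H e0 f → ∀ f' ∈ S, f' ≠ e0 → ¬ Dj H e0 f' → Dj H f f' →
      ∃ h ∈ S, Dj H e0 h ∧ Dj H f h ∧ Dj H f' h ∧ c e0 h * c h f = g f ∧
        c e0 h * c h f' = g f' := by
    -- vertices of f' in the two classes where it does not meet e0
    have havoid : ∀ f', ¬ Dj H e0 f' → ∃ i j : Fin 3, i ≠ j ∧ ∀ a, Dj H e0 a → H a i ≠ H f' i →
        H a j ≠ H f' j → Dj H f' a := by
      intro f' hf'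
      unfold Dj at hf'
      push Not at hf'
      obtain ⟨m, hm⟩ := hf'
      obtain ⟨i, j, hij, hall⟩ := other m
      refine ⟨i, j, hij, fun a ha hi hj k hk => ?_⟩
      rcases hall k with rfl | rfl | rfl
      · exact hi hk.symm
      · exact hj hk.symm
      · exact ha k (by rw [hm, hk])
    have half : ∀ f ∈ S, f ≠ e0 → ¬ Dj H e0 f → ∀ f' ∈ S, f' ≠ e0 → ¬ Dj H e0 f' → Dj H f f' →
        (∀ (f' : E) (i j : Fin 3), i ≠ j → ∃ a ∈ R f, ∃ b ∈ R f, a ≠ b ∧ ¬ Dj H a b ∧
          c e0 a * c a f = g f ∧ c e0 b * c b f = g f ∧ H a i ≠ H f' i ∧ H a j ≠ H f' j ∧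
          H b i ≠ H f' i ∧ H b j ≠ H f' j) →
        ∃ h ∈ S, Dj H e0 h ∧ Dj H f h ∧ Dj H f' h ∧ c e0 h * c h f = g f ∧
        c e0 h * c h f' = g f' := by
      intro f hf hfe hfd f' hf' hfe' hfd' hff h2
      obtain ⟨i, j, hij, hav⟩ := havoid f' hfd'
      obtain ⟨a, ha, b, hb, hab, hdab, h3, h4, h5, h6, h7, h8⟩ := h2 f' i j hij
      have ha' : Dj H f' a := hav a ha.2.1 h5 h6
      have hb' : Dj H f' b := hav b hb.2.1 h7 h8
      by_cases h9 : c e0 a * c a f' = g f'
      · exact ⟨a, ha.1, ha.2.1, ha.2.2, ha', h3, h9⟩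
      · by_cases h10 : c e0 b * c b f' = g f'
        · exact ⟨b, hb.1, hb.2.1, hb.2.2, hb', h4, h10⟩
        · exact absurd ((hg f' hf' hfe' hfd').1 a ⟨ha.1, ha.2.1, ha'⟩ b ⟨hb.1, hb.2.1, hb'⟩
            h9 h10 hab) hdab
    intro f hf hfe hfd f' hf' hfe' hfd' hff
    rcases (hg f hf hfe hfd).2 with hall | htwo
    · rcases (hg f' hf' hfe' hfd').2 with hall' | htwo'
      · obtain ⟨h, hh, hU⟩ := hS (vs H e0 ∪ ((vs H f).erase (H f 0) ∪ {H f 0}) ∪
          (vs H f').erase (H f' (Classical.choose (by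
            unfold Dj at hfd'
            push Not at hfd'
            exact hfd' : ∃ m, H e0 m = H f' m)))) (by
          have h1 := Finset.card_union_le (vs H e0 ∪ ((vs H f).erase (H f 0) ∪ {H f 0}))
            ((vs H f').erase (H f' (Classical.choose (by
            unfold Dj at hfd'
            push Not at hfd'
            exact hfd' : ∃ m, H e0 m = H f' m))))
          have h2 := Finset.card_union_le (vs H e0) ((vs H f).erase (H f 0) ∪ {H f 0})
          have h3 := Finset.card_union_le ((vs H f).erase (H f 0)) {H f 0}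
          rw [Finset.card_erase_of_mem (mem_vs _)] at h1 h3
          have h4 := card_vs (H := H) e0
          have h5 := card_vs (H := H) f
          have h6 := card_vs (H := H) f'
          have h7 : 0 < (vs H f).card := Finset.card_pos.2 ⟨_, mem_vs 0⟩
          simp only [Finset.card_singleton] at h3
          omega)
        have hm := Classical.choose_spec (by
            unfold Dj at hfd'
            push Not at hfd'
            exact hfd' : ∃ m, H e0 m = H f' m)
        have hd0 : Dj H e0 h := Dj_of_vs fun i hi =>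
          hU i (Finset.mem_union_left _ (Finset.mem_union_left _ hi))
        have hdf : Dj H f h := Dj_of_vs fun i hi => by
          refine hU i (Finset.mem_union_left _ (Finset.mem_union_right _ ?_))
          by_cases h0 : H h i = H f 0
          · exact Finset.mem_union_right _ (Finset.mem_singleton.2 h0)
          · exact Finset.mem_union_left _ (Finset.mem_erase.2 ⟨h0, hi⟩)
        have hdf' : Dj H f' h := by
          intro k hk
          by_cases hkm : H f' k = H f' (Classical.choose (by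
            unfold Dj at hfd'
            push Not at hfd'
            exact hfd' : ∃ m, H e0 m = H f' m))
          · have h5 := hm.trans (hkm.symm.trans hk)
            have h6 := hcl _ _ _ _ h5
            rw [← h6] at h5
            exact hd0 _ h5
          · refine hU k (Finset.mem_union_right _ ?_)
            rw [← hk]
            exact Finset.mem_erase.2 ⟨hkm, mem_vs k⟩
        exact ⟨h, hh, hd0, hdf, hdf', hall h ⟨hh, hd0, hdf⟩, hall' h ⟨hh, hd0, hdf'⟩⟩
      · obtain ⟨h, h1, h2, h3, h4, h5, h6⟩ := half f' hf' hfe' hfd' f hf hfe hfd (dj_symm hff)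
          htwo'
        exact ⟨h, h1, h2, h4, h3, h6, h5⟩
    · exact half f hf hfe hfd f' hf' hfe' hfd' hff htwo
  -- normalised potential
  let bb : E → G := fun f => if Dj H e0 f then c e0 f else if f = e0 then 1 else g f
  have bb0 : bb e0 = 1 := by
    have : ¬ Dj H e0 e0 := not_Dj_self e0
    simp [bb, this]
  have bb1 : ∀ f, Dj H e0 f → bb f = c e0 f := fun f hf => if_pos hf
  have bb2 : ∀ f, f ≠ e0 → ¬ Dj H e0 f → bb f = g f := fun f hf1 hf2 => by
    simp [bb, hf1, hf2]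
  let c' : E → E → G := fun e f => bb e * c e f * (bb f)⁻¹
  have hc' : ∀ e ∈ S, ∀ f ∈ S, ∀ k ∈ S, Dj H e f → Dj H f k → Dj H e k →
      c' e f * c' f k = c' e k := by
    intro e he f hf k hk h1 h2 h3
    show bb e * c e f * (bb f)⁻¹ * (bb f * c f k * (bb k)⁻¹) = bb e * c e k * (bb k)⁻¹
    rw [← hc.1 e he f hf k hk h1 h2 h3]
    group
  have hs' : ∀ e ∈ S, ∀ f ∈ S, Dj H e f → c' f e = (c' e f)⁻¹ := by
    intro e he f hf h1
    show bb f * c f e * (bb e)⁻¹ = (bb e * c e f * (bb f)⁻¹)⁻¹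
    rw [hc.2 e he f hf h1]
    group
  -- trivial pairs
  have t1 : ∀ h ∈ S, Dj H e0 h → c' e0 h = 1 := by
    intro h _ hd
    show bb e0 * c e0 h * (bb h)⁻¹ = 1
    rw [bb0, bb1 h hd]
    group
  have t2 : ∀ h ∈ S, ∀ h' ∈ S, Dj H e0 h → Dj H e0 h' → Dj H h h' → c' h h' = 1 := by
    intro h hh h' hh' hd hd' hdd
    show bb h * c h h' * (bb h')⁻¹ = 1
    rw [bb1 h hd, bb1 h' hd', hc.1 e0 he0 h hh h' hh' hd hdd hd', mul_inv_cancel]
  have t3 : ∀ f ∈ S, ∀ f' ∈ S, ¬ Dj H e0 f → ¬ Dj H e0 f' → Dj H f f' → c' f f' = 1 := by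
    intro f hf f' hf' hd hd' hff
    have hfe : f ≠ e0 := fun h => hd' (h ▸ hff)
    have hfe' : f' ≠ e0 := fun h => hd (h ▸ dj_symm hff)
    obtain ⟨h, hh, h1, h2, h3, h4, h5⟩ := hcommon f hf hfe hd f' hf' hfe' hd' hff
    show bb f * c f f' * (bb f')⁻¹ = 1
    rw [bb2 f hfe hd, bb2 f' hfe' hd', ← h4, ← h5,
      ← hc.1 f hf h hh f' hf' h2 (dj_symm h3) hff, hc.2 f hf h hh h2]
    group
  have t4 : ∀ f ∈ S, f ≠ e0 → ¬ Dj H e0 f → ∃ h ∈ S, Dj H e0 h ∧ Dj H h f ∧ c' h f = 1 := by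
    intro f hf hfe hd
    have h1 : ∃ h ∈ R f, c e0 h * c h f = g f := by
      rcases (hg f hf hfe hd).2 with hall | htwo
      · obtain ⟨h, hh, hU⟩ := hS (vs H e0 ∪ vs H f) (by
          have h1 := Finset.card_union_le (vs H e0) (vs H f)
          have h4 := card_vs (H := H) e0
          have h5 := card_vs (H := H) f
          omega)
        have hd0 : Dj H e0 h := Dj_of_vs fun i hi => hU i (Finset.mem_union_left _ hi)
        have hdf : Dj H f h := Dj_of_vs fun i hi => hU i (Finset.mem_union_right _ hi)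
        exact ⟨h, ⟨hh, hd0, hdf⟩, hall h ⟨hh, hd0, hdf⟩⟩
      · obtain ⟨a, ha, b, _, _, _, h3, _⟩ := htwo f 0 1 (by decide)
        exact ⟨a, ha, h3⟩
    obtain ⟨h, hh, h2⟩ := h1
    refine ⟨h, hh.1, hh.2.1, dj_symm hh.2.2, ?_⟩
    show bb h * c h f * (bb f)⁻¹ = 1
    rw [bb1 h hh.2.1, bb2 f hfe hd, h2, mul_inv_cancel]
  -- the cocycle with values in ZMod 2
  let F : (Fin 2 → E) → ZMod 2 := fun w =>
    if Mat H S (rg w) ∧ w 0 ≠ w 1 ∧ c' (w 0) (w 1) ≠ 1 then 1 else 0
  have hF01 : ∀ w, F w = 0 ∨ F w = 1 := by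
    intro w
    by_cases h : Mat H S (rg w) ∧ w 0 ≠ w 1 ∧ c' (w 0) (w 1) ≠ 1
    · exact Or.inr (if_pos h)
    · exact Or.inl (if_neg h)
  have hF0 : ∀ w, Mat H S (rg w) → w 0 ≠ w 1 → (F w = 0 ↔ c' (w 0) (w 1) = 1) := by
    intro w hw hne
    constructor
    · intro h
      by_contra hcon
      have : F w = 1 := if_pos ⟨hw, hne, hcon⟩
      rw [this] at h
      exact absurd h (by decide)
    · intro h
      exact if_neg fun h' => h'.2.2 h
  have hFsub : ∀ w, w 0 = w 1 → F w = 0 := fun w h => if_neg fun h' => h'.2.1 h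
  obtain ⟨γ, _, hγ⟩ := hom_conn H S 2 hS (ZMod 2) 2 le_rfl F (by
      intro w hw
      have hM : ∀ i : Fin 3, Mat H S (rg (w ∘ i.succAbove)) := fun i =>
        ⟨fun x hx => hw.1 x (rg_comp _ _ hx), fun x hx y hy =>
          hw.2 x (rg_comp _ _ hx) y (rg_comp _ _ hy)⟩
      have hwS : ∀ i, w i ∈ S := fun i => hw.1 _ (mem_rg.2 ⟨i, rfl⟩)
      have hwD : ∀ i j, w i ≠ w j → Dj H (w i) (w j) := fun i j hij =>
        hw.2 _ (mem_rg.2 ⟨i, rfl⟩) _ (mem_rg.2 ⟨j, rfl⟩) hij
      have hD : D F w = F (w ∘ Fin.succAbove 0) - F (w ∘ Fin.succAbove 1) +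
          F (w ∘ Fin.succAbove 2) := by
        unfold D
        rw [Fin.sum_univ_three]
        simp [sub_eq_add_neg]
      rw [hD]
      have a00 : (w ∘ Fin.succAbove 0) 0 = w 1 := rfl
      have a01 : (w ∘ Fin.succAbove 0) 1 = w 2 := rfl
      have a10 : (w ∘ Fin.succAbove 1) 0 = w 0 := rfl
      have a11 : (w ∘ Fin.succAbove 1) 1 = w 2 := rfl
      have a20 : (w ∘ Fin.succAbove 2) 0 = w 0 := rfl
      have a21 : (w ∘ Fin.succAbove 2) 1 = w 1 := rfl
      by_cases h01 : w 0 = w 1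
      · have h1 : F (w ∘ Fin.succAbove 2) = 0 := hFsub _ h01
        have h2 : w ∘ Fin.succAbove 0 = w ∘ Fin.succAbove 1 := by
          funext i
          fin_cases i
          · exact h01.symm
          · rfl
        rw [h1, h2]
        simp
      · by_cases h12 : w 1 = w 2
        · have h1 : F (w ∘ Fin.succAbove 0) = 0 := hFsub _ h12
          have h2 : w ∘ Fin.succAbove 1 = w ∘ Fin.succAbove 2 := by
            funext i
            fin_cases i
            · rfl
            · exact h12.symm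
          rw [h1, h2, zero_sub, neg_add_cancel]
        · by_cases h02 : w 0 = w 2
          · have h1 : F (w ∘ Fin.succAbove 1) = 0 := hFsub _ h02
            have h2 : F (w ∘ Fin.succAbove 0) = F (w ∘ Fin.succAbove 2) := by
              have h3 : F (w ∘ Fin.succAbove 0) = 0 ↔ F (w ∘ Fin.succAbove 2) = 0 := by
                rw [hF0 _ (hM 0) h12, hF0 _ (hM 2) h01, a00, a01, a20, a21, ← h02,
                  hs' _ (hwS 0) _ (hwS 1) (hwD 0 1 h01), inv_eq_one]
              rcases hF01 (w ∘ Fin.succAbove 0) with h4 | h4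
              · rw [h4, h3.1 h4]
              · rcases hF01 (w ∘ Fin.succAbove 2) with h5 | h5
                · rw [h3.2 h5, h5]
                · rw [h4, h5]
            rw [h1, h2, sub_zero]
            rcases hF01 (w ∘ Fin.succAbove 2) with h5 | h5
            · rw [h5]; rfl
            · rw [h5]; decide
          · have hrel := hc' _ (hwS 0) _ (hwS 1) _ (hwS 2) (hwD 0 1 h01) (hwD 1 2 h12)
              (hwD 0 2 h02)
            have i0 := hF0 _ (hM 0) h12
            have i1 := hF0 _ (hM 1) h02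
            have i2 := hF0 _ (hM 2) h01
            rw [a00, a01] at i0
            rw [a10, a11] at i1
            rw [a20, a21] at i2
            refine zmod_aux _ _ _ (hF01 _) (hF01 _) (hF01 _) ?_ ?_ ?_ ?_
            · intro hx hy
              rw [i1, ← hrel, i0.1 hx, i2.1 hy, one_mul]
            · intro hx hz
              rw [i2]
              rw [i0.1 hx, i1.1 hz, mul_one] at hrel
              exact hrel
            · intro hy hz
              rw [i0]
              rw [i2.1 hy, i1.1 hz, one_mul] at hrel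
              exact hrel
            · rintro ⟨hx, hy, hz⟩
              have n0 : c' (w 1) (w 2) ≠ 1 := fun h => by
                rw [i0.2 h] at hx; exact absurd hx (by decide)
              have n1 : c' (w 0) (w 2) ≠ 1 := fun h => by
                rw [i1.2 h] at hz; exact absurd hz (by decide)
              have n2 : c' (w 0) (w 1) ≠ 1 := fun h => by
                rw [i2.2 h] at hy; exact absurd hy (by decide)
              by_cases d0 : Dj H e0 (w 0)
              · by_cases d1 : Dj H e0 (w 1)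
                · exact n2 (t2 _ (hwS 0) _ (hwS 1) d0 d1 (hwD 0 1 h01))
                · by_cases d2 : Dj H e0 (w 2)
                  · exact n1 (t2 _ (hwS 0) _ (hwS 2) d0 d2 (hwD 0 2 h02))
                  · exact n0 (t3 _ (hwS 1) _ (hwS 2) d1 d2 (hwD 1 2 h12))
              · by_cases d1 : Dj H e0 (w 1)
                · by_cases d2 : Dj H e0 (w 2)
                  · exact n0 (t2 _ (hwS 1) _ (hwS 2) d1 d2 (hwD 1 2 h12))
                  · exact n1 (t3 _ (hwS 0) _ (hwS 2) d0 d2 (hwD 0 2 h02))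
                · exact n2 (t3 _ (hwS 0) _ (hwS 1) d0 d1 (hwD 0 1 h01))) (by
      intro w hw
      exact if_neg fun h => hw h.1)
  have hpair : ∀ e ∈ S, ∀ f ∈ S, Dj H e f → Mat H S (rg (![e, f] : Fin 2 → E)) ∧ e ≠ f ∧
      F ![e, f] = γ (fun _ => f) - γ (fun _ => e) := by
    intro e he f hf hef
    have hne : e ≠ f := fun h => not_Dj_self f (h ▸ hef)
    have hM : Mat H S (rg (![e, f] : Fin 2 → E)) := by
      have hx : ∀ x ∈ rg (![e, f] : Fin 2 → E), x = e ∨ x = f := by
        intro x hx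
        obtain ⟨i, rfl⟩ := mem_rg.1 hx
        fin_cases i
        · exact Or.inl rfl
        · exact Or.inr rfl
      refine ⟨fun x h => ?_, fun x h y h' hxy => ?_⟩
      · rcases hx x h with rfl | rfl
        · exact he
        · exact hf
      · rcases hx x h with rfl | rfl
        · rcases hx y h' with rfl | rfl
          · exact absurd rfl hxy
          · exact hef
        · rcases hx y h' with rfl | rfl
          · exact dj_symm hef
          · exact absurd rfl hxy
    refine ⟨hM, hne, ?_⟩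
    rw [hγ _ hM]
    unfold D
    rw [Fin.sum_univ_two]
    have b0 : (![e, f] : Fin 2 → E) ∘ Fin.succAbove 0 = fun _ => f := by
      funext i
      rw [Fin.fin_one_eq_zero i]
      rfl
    have b1 : (![e, f] : Fin 2 → E) ∘ Fin.succAbove 1 = fun _ => e := by
      funext i
      rw [Fin.fin_one_eq_zero i]
      rfl
    rw [b0, b1]
    simp [sub_eq_add_neg]
  have hz : ∀ e ∈ S, ∀ f ∈ S, Dj H e f → c' e f = 1 → γ (fun _ => f) = γ (fun _ => e) := by
    intro e he f hf hef h1
    obtain ⟨hM, hne, h2⟩ := hpair e he f hf hef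
    rw [(hF0 ![e, f] hM hne).2 h1] at h2
    exact (sub_eq_zero.1 h2.symm)
  have hγ0 : ∀ e ∈ S, γ (fun _ => e) = γ (fun _ => e0) := by
    intro e he
    by_cases hd : Dj H e0 e
    · exact hz e0 he0 e he hd (t1 e he hd)
    · by_cases hee : e = e0
      · rw [hee]
      · obtain ⟨h, hh, h1, h2, h3⟩ := t4 e he hee hd
        rw [hz h hh e he h2 h3, hz e0 he0 h hh h1 (t1 h hh h1)]
  refine hno ⟨bb, fun e he f hf hef => ?_⟩
  obtain ⟨hM, hne, h2⟩ := hpair e he f hf hef
  rw [hγ0 e he, hγ0 f hf, sub_self] at h2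
  have h3 : bb e * c e f * (bb f)⁻¹ = 1 := (hF0 ![e, f] hM hne).1 h2
  have h4 : bb e * c e f = bb f := mul_inv_eq_one.1 h3
  rw [← h4]
  group

theorem pi1_triv_of (hcl : Classes H) (h4 : T4S H G) (S : Set E) (hS : Tau H S 9)
    (hc : Coc H c S) : Triv H c S := by
  induction S using WellFoundedLT.induction with
  | ind S ih =>
    exact pi1_main hcl h4 hc hS fun T hT hT9 => ih T hT hT9 (hc.mono hT.1)

end conn

end Run7.h62.PI1
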