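import Pool.Agent.Run7.h62.Base

/-!
Piece T4: linear 3-partite systems without cover of size 3.
-/

set_option linter.unusedVariables false

namespace Run7.h62.T4

universe u v w

/-! ### Vertices as elements -/

/-- `x` has at most one vertex in common with `y` -/
def L3 {W : Type w} (xp xq xr yp yq yr : W) : Prop :=
  ¬ (xp = yp ∧ xq = yq) ∧ ¬ (xp = yp ∧ xr = yr) ∧ ¬ (xq = yq ∧ xr = yr)

def M3 {W : Type w} (xp xq xr yp yq yr : W) : Prop := xp = yp ∨ xq = yq ∨ xr = yr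

def D3 {W : Type w} (xp xq xr yp yq yr : W) : Prop := xp ≠ yp ∧ xq ≠ yq ∧ xr ≠ yr

theorem typeA1 {W : Type w} {b1p b1q b1r b2p b2q b2r A1 A2 xp xq xr : W}
    (db : D3 b1p b1q b1r b2p b2q b2r)
    (la1 : L3 xp xq xr b1p b2q A1) (la2 : L3 xp xq xr b2p b1q A2)
    (lb1 : L3 xp xq xr b1p b1q b1r) (lb2 : L3 xp xq xr b2p b2q b2r)
    (m1 : M3 xp xq xr b1p b1q b1r) (m2 : M3 xp xq xr b2p b2q b2r) :
    (xr = b1r ∨ xr = b2r) ∧
    (((xp = b1p ∨ xp = b2p) ∧ xq ≠ b1q ∧ xq ≠ b2q) ∨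
      ((xq = b1q ∨ xq = b2q) ∧ xp ≠ b1p ∧ xp ≠ b2p)) := by
  unfold D3 L3 M3 at *
  grind

theorem typeA2 {W : Type w} {b1p b1q b1r b2p b2q b2r A1 A2 xp xq xr : W}
    (db : D3 b1p b1q b1r b2p b2q b2r)
    (la1 : L3 xp xq xr b1p b2q A1) (la2 : L3 xp xq xr A2 b1q b2r)
    (m1 : M3 xp xq xr b1p b1q b1r) (m2 : M3 xp xq xr b2p b2q b2r)
    (e1 : xq ≠ b1q) (e2 : xq ≠ b2q) :
    (xp = b1p ∧ xr = b2r) ∨ (xp = b2p ∧ xr = b1r) := by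
  unfold D3 L3 M3 at *
  grind

section
variable {E : Type u} {W : Type w} {H : E → Fin 3 → W} {R : Set E}

theorem l3 (hlin : ∀ e ∈ R, ∀ f ∈ R, e ≠ f → ∀ i j, i ≠ j → H e i = H f i → H e j ≠ H f j)
    {e f : E} (he : e ∈ R) (hf : f ∈ R) (hef : e ≠ f) {p q r : Fin 3} (hpq : p ≠ q) (hpr : p ≠ r)
    (hqr : q ≠ r) : L3 (H e p) (H e q) (H e r) (H f p) (H f q) (H f r) :=
  ⟨fun h => hlin e he f hf hef p q hpq h.1 h.2, fun h => hlin e he f hf hef p r hpr h.1 h.2,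
    fun h => hlin e he f hf hef q r hqr h.1 h.2⟩

theorem three {p q r : Fin 3} (hpq : p ≠ q) (hpr : p ≠ r) (hqr : q ≠ r) (i : Fin 3) :
    i = p ∨ i = q ∨ i = r := by omega

theorem m3 {e f : E} (h : ∃ i, H e i = H f i) {p q r : Fin 3} (hpq : p ≠ q) (hpr : p ≠ r)
    (hqr : q ≠ r) : M3 (H e p) (H e q) (H e r) (H f p) (H f q) (H f r) := by
  obtain ⟨i, hi⟩ := h
  rcases three hpq hpr hqr i with rfl | rfl | rfl
  · exact Or.inl hi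
  · exact Or.inr (Or.inl hi)
  · exact Or.inr (Or.inr hi)

theorem d3 {e f : E} (h : Dj H e f) (p q r : Fin 3) :
    D3 (H e p) (H e q) (H e r) (H f p) (H f q) (H f r) := ⟨h p, h q, h r⟩

theorem cov (hR : Tau H R 4) (a b c : W) :
    ∃ e ∈ R, (∀ i, H e i ≠ a) ∧ (∀ i, H e i ≠ b) ∧ ∀ i, H e i ≠ c := by
  classical
  obtain ⟨e, he, h⟩ := hR {a, b, c} (by
    have := Finset.card_le_three (a := a) (b := b) (c := c)
    omega)
  refine ⟨e, he, fun i hi => h i ?_, fun i hi => h i ?_, fun i hi => h i ?_⟩ <;> simp [hi]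

/-- alpha1 -/
theorem alpha1 (hlin : ∀ e ∈ R, ∀ f ∈ R, e ≠ f → ∀ i j, i ≠ j → H e i = H f i → H e j ≠ H f j)
    (hR : Tau H R 4) {X Y : Set E} (hX : X ⊆ R) (hY : Y ⊆ R) (hXY : ∀ e ∈ R, e ∈ X ∨ e ∈ Y)
    (hd : ∀ e ∈ X, e ∉ Y) (hm : ∀ e ∈ X, ∀ f ∈ Y, ∃ i, H e i = H f i)
    {a1 a2 b1 b2 x0 y0 : E} (ha1 : a1 ∈ X) (ha2 : a2 ∈ X) (hb1 : b1 ∈ Y) (hb2 : b2 ∈ Y)
    (hx0 : x0 ∈ X) (hy0 : y0 ∈ Y) (hx1 : x0 ≠ a1) (hx2 : x0 ≠ a2) (hy1 : y0 ≠ b1) (hy2 : y0 ≠ b2)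
    (hA : Dj H a1 a2) (hB : Dj H b1 b2) {p q r : Fin 3} (hpq : p ≠ q) (hpr : p ≠ r) (hqr : q ≠ r)
    (h11 : H a1 p = H b1 p) (h22 : H a2 p = H b2 p) (h12 : H a1 q = H b2 q)
    (h21 : H a2 q = H b1 q) : False := by
  have L := fun {e f : E} (he : e ∈ R) (hf : f ∈ R) (hef : e ≠ f) =>
    l3 hlin he hf hef hpq hpr hqr
  have M := fun {e f : E} (h : ∃ i, H e i = H f i) => m3 h hpq hpr hqr
  have tX : ∀ e ∈ X, e ≠ a1 → e ≠ a2 → (H e r = H b1 r ∨ H e r = H b2 r) ∧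
      (((H e p = H b1 p ∨ H e p = H b2 p) ∧ H e q ≠ H b1 q ∧ H e q ≠ H b2 q) ∨
      ((H e q = H b1 q ∨ H e q = H b2 q) ∧ H e p ≠ H b1 p ∧ H e p ≠ H b2 p)) := by
    intro e he h1 h2
    have l1 := L (hX he) (hX ha1) h1
    have l2 := L (hX he) (hX ha2) h2
    rw [h11, h12] at l1
    rw [h22, h21] at l2
    exact typeA1 (d3 hB p q r) l1 l2 (L (hX he) (hY hb1) (fun h => hd e he (h ▸ hb1)))
      (L (hX he) (hY hb2) (fun h => hd e he (h ▸ hb2))) (M (hm e he b1 hb1)) (M (hm e he b2 hb2))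
  have tY : ∀ e ∈ Y, e ≠ b1 → e ≠ b2 → (H e r = H a1 r ∨ H e r = H a2 r) ∧
      (((H e p = H a1 p ∨ H e p = H a2 p) ∧ H e q ≠ H a1 q ∧ H e q ≠ H a2 q) ∨
      ((H e q = H a1 q ∨ H e q = H a2 q) ∧ H e p ≠ H a1 p ∧ H e p ≠ H a2 p)) := by
    intro e he h1 h2
    have l1 := L (hY he) (hY hb1) h1
    have l2 := L (hY he) (hY hb2) h2
    rw [← h11, ← h21] at l1
    rw [← h22, ← h12] at l2
    have s : ∀ x : E, (∃ i, H x i = H e i) → ∃ i, H e i = H x i := fun x h => h.imp fun i hi => hi.symm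
    exact typeA1 (d3 hA p q r) l1 l2 (L (hY he) (hX ha1) (fun h => hd a1 ha1 (h ▸ he)))
      (L (hY he) (hX ha2) (fun h => hd a2 ha2 (h ▸ he))) (M (s _ (hm a1 ha1 e he)))
      (M (s _ (hm a2 ha2 e he)))
  have lab : ∀ a ∈ X, ∀ b ∈ Y, L3 (H a p) (H a q) (H a r) (H b p) (H b q) (H b r) :=
    fun a ha b hb => L (hX ha) (hY hb) (fun h => hd a ha (h ▸ hb))
  have c11 := lab a1 ha1 b1 hb1
  have c12 := lab a1 ha1 b2 hb2
  have c21 := lab a2 ha2 b1 hb1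
  have c22 := lab a2 ha2 b2 hb2
  have tXY : ∀ x ∈ X, x ≠ a1 → x ≠ a2 → ∀ y ∈ Y, y ≠ b1 → y ≠ b2 →
      ((H x p = H b1 p ∨ H x p = H b2 p) ∧ (H y p = H b1 p ∨ H y p = H b2 p)) ∨
      ((H x q = H b1 q ∨ H x q = H b2 q) ∧ (H y q = H b1 q ∨ H y q = H b2 q)) := by
    intro x hx h1 h2 y hy h3 h4
    have e1 := tX x hx h1 h2
    have e2 := tY y hy h3 h4
    have e3 := M (hm x hx y hy)
    unfold L3 at c11 c12 c21 c22
    unfold M3 at e3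
    grind
  have x1 := tX x0 hx0 hx1 hx2
  have y1 := tY y0 hy0 hy1 hy2
  have z1 := tXY x0 hx0 hx1 hx2 y0 hy0 hy1 hy2
  rcases y1.2 with y2 | y2
  · obtain ⟨e, he, h1, h2, -⟩ := cov hR (H b1 p) (H b2 p) (H b2 p)
    have g1 := h1 p
    have g2 := h2 p
    rcases hXY e he with h | h
    · by_cases e1 : e = a1
      · rw [e1] at g1; exact g1 h11
      by_cases e2 : e = a2
      · rw [e2] at g2; exact g2 h22
      have z2 := tXY e h e1 e2 y0 hy0 hy1 hy2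
      grind
    · by_cases e1 : e = b1
      · rw [e1] at g1; exact g1 rfl
      by_cases e2 : e = b2
      · rw [e2] at g2; exact g2 rfl
      have z2 := tXY x0 hx0 hx1 hx2 e h e1 e2
      grind
  · obtain ⟨e, he, h1, h2, -⟩ := cov hR (H b1 q) (H b2 q) (H b2 q)
    have g1 := h1 q
    have g2 := h2 q
    rcases hXY e he with h | h
    · by_cases e1 : e = a1
      · rw [e1] at g2; exact g2 h12
      by_cases e2 : e = a2
      · rw [e2] at g1; exact g1 h21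
      have z2 := tXY e h e1 e2 y0 hy0 hy1 hy2
      grind
    · by_cases e1 : e = b1
      · rw [e1] at g1; exact g1 rfl
      by_cases e2 : e = b2
      · rw [e2] at g2; exact g2 rfl
      have z2 := tXY x0 hx0 hx1 hx2 e h e1 e2
      grind

/-- alpha2 -/
theorem alpha2 (hlin : ∀ e ∈ R, ∀ f ∈ R, e ≠ f → ∀ i j, i ≠ j → H e i = H f i → H e j ≠ H f j)
    (hR : Tau H R 4) {X Y : Set E} (hX : X ⊆ R) (hY : Y ⊆ R) (hXY : ∀ e ∈ R, e ∈ X ∨ e ∈ Y)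
    (hd : ∀ e ∈ X, e ∉ Y) (hm : ∀ e ∈ X, ∀ f ∈ Y, ∃ i, H e i = H f i)
    {a1 a2 b1 b2 x0 y0 : E} (ha1 : a1 ∈ X) (ha2 : a2 ∈ X) (hb1 : b1 ∈ Y) (hb2 : b2 ∈ Y)
    (hx0 : x0 ∈ X) (hy0 : y0 ∈ Y) (hx1 : x0 ≠ a1) (hx2 : x0 ≠ a2) (hy1 : y0 ≠ b1) (hy2 : y0 ≠ b2)
    (hA : Dj H a1 a2) (hB : Dj H b1 b2) {p q r : Fin 3} (hpq : p ≠ q) (hpr : p ≠ r) (hqr : q ≠ r)
    (h11 : H a1 p = H b1 p) (h22 : H a2 r = H b2 r) (h12 : H a1 q = H b2 q)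
    (h21 : H a2 q = H b1 q) : False := by
  have L := fun {e f : E} (he : e ∈ R) (hf : f ∈ R) (hef : e ≠ f) =>
    l3 hlin he hf hef hpq hpr hqr
  have M := fun {e f : E} (h : ∃ i, H e i = H f i) => m3 h hpq hpr hqr
  have lab : ∀ a ∈ X, ∀ b ∈ Y, L3 (H a p) (H a q) (H a r) (H b p) (H b q) (H b r) :=
    fun a ha b hb => L (hX ha) (hY hb) (fun h => hd a ha (h ▸ hb))
  have tX : ∀ e ∈ X, e ≠ a1 → e ≠ a2 → H e q ≠ H b1 q → H e q ≠ H b2 q →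
      (H e p = H b1 p ∧ H e r = H b2 r) ∨ (H e p = H b2 p ∧ H e r = H b1 r) := by
    intro e he h1 h2 h3 h4
    have l1 := L (hX he) (hX ha1) h1
    have l2 := L (hX he) (hX ha2) h2
    rw [h11, h12] at l1
    rw [h22, h21] at l2
    exact typeA2 (d3 hB p q r) l1 l2 (M (hm e he b1 hb1)) (M (hm e he b2 hb2)) h3 h4
  have s : ∀ x e : E, (∃ i, H x i = H e i) → ∃ i, H e i = H x i :=
    fun x e h => h.imp fun i hi => hi.symm
  have tY : ∀ e ∈ Y, e ≠ b1 → e ≠ b2 → H e q ≠ H a1 q → H e q ≠ H a2 q →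
      (H e p = H a1 p ∧ H e r = H a2 r) ∨ (H e p = H a2 p ∧ H e r = H a1 r) := by
    intro e he h1 h2 h3 h4
    have l1 := L (hY he) (hY hb1) h1
    have l2 := L (hY he) (hY hb2) h2
    rw [← h11, ← h21] at l1
    rw [← h22, ← h12] at l2
    exact typeA2 (d3 hA p q r) l1 l2 (M (s _ _ (hm a1 ha1 e he)))
      (M (s _ _ (hm a2 ha2 e he))) h3 h4
  have c11 := lab a1 ha1 b1 hb1
  have c12 := lab a1 ha1 b2 hb2
  have c21 := lab a2 ha2 b1 hb1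
  have c22 := lab a2 ha2 b2 hb2
  have dA := d3 hA p q r
  have dB := d3 hB p q r
  unfold L3 at c11 c12 c21 c22
  unfold D3 at dA dB
  have E1 : ∀ x ∈ X, x ≠ a1 → x ≠ a2 → H x q ≠ H b1 q → H x q ≠ H b2 q →
      ∀ y ∈ Y, y ≠ b1 → y ≠ b2 → H y q ≠ H b1 q → H y q ≠ H b2 q → H x q = H y q := by
    intro x hx h1 h2 h3 h4 y hy h5 h6 h7 h8
    have e1 := tX x hx h1 h2 h3 h4
    have e2 := tY y hy h5 h6 (by rw [h12]; exact h8) (by rw [h21]; exact h7)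
    have e3 := M (hm x hx y hy)
    have e4 := lab x hx y hy
    unfold M3 at e3
    unfold L3 at e4
    grind
  have E2 : ∀ x ∈ X, x ≠ a1 → x ≠ a2 → H x p = H b1 p → H x r = H b2 r →
      ∀ y ∈ Y, y ≠ b1 → y ≠ b2 → H y q ≠ H b1 q ∧ H y q ≠ H b2 q := by
    intro x hx h1 h2 h3 h4 y hy h5 h6
    have e1 := M (hm x hx y hy)
    have e2 := M (hm a1 ha1 y hy)
    have e3 := M (hm a2 ha2 y hy)
    have l1 := L (hX hx) (hX ha1) h1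
    have l2 := L (hX hx) (hX ha2) h2
    have l3 := L (hY hy) (hY hb1) h5
    have l4 := L (hY hy) (hY hb2) h6
    have l5 := lab x hx b1 hb1
    have l6 := lab x hx b2 hb2
    have l7 := lab a1 ha1 y hy
    have l8 := lab a2 ha2 y hy
    unfold M3 at e1 e2 e3
    unfold L3 at l1 l2 l3 l4 l5 l6 l7 l8
    constructor
    · intro h; grind
    · intro h; grind
  have E2' : ∀ y ∈ Y, y ≠ b1 → y ≠ b2 → H y p = H b1 p → H y r = H b2 r →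
      ∀ x ∈ X, x ≠ a1 → x ≠ a2 → H x q ≠ H b1 q ∧ H x q ≠ H b2 q := by
    intro y hy h5 h6 h3 h4 x hx h1 h2
    have e1 := M (hm x hx y hy)
    have e2 := M (hm x hx b1 hb1)
    have e3 := M (hm x hx b2 hb2)
    have l1 := L (hX hx) (hX ha1) h1
    have l2 := L (hX hx) (hX ha2) h2
    have l3 := L (hY hy) (hY hb1) h5
    have l4 := L (hY hy) (hY hb2) h6
    have l5 := lab x hx b1 hb1
    have l6 := lab x hx b2 hb2
    have l7 := lab a1 ha1 y hy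
    have l8 := lab a2 ha2 y hy
    unfold M3 at e1 e2 e3
    unfold L3 at l1 l2 l3 l4 l5 l6 l7 l8
    constructor
    · intro h; grind
    · intro h; grind
  have E3 : ∀ x ∈ X, x ≠ a1 → x ≠ a2 → H x q ≠ H b1 q → H x q ≠ H b2 q →
      ∀ x' ∈ X, x' ≠ a1 → x' ≠ a2 → H x' q ≠ H b1 q → H x' q ≠ H b2 q → H x q = H x' q := by
    intro x hx h1 h2 h3 h4 x' hx' h1' h2' h3' h4'
    by_cases he : x = x'
    · rw [he]
    have l := L (hX hx) (hX hx') he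
    have t := tX x hx h1 h2 h3 h4
    have t' := tX x' hx' h1' h2' h3' h4'
    have e0 : H y0 q ≠ H b1 q ∧ H y0 q ≠ H b2 q := by
      rcases t with t | t
      · exact E2 x hx h1 h2 t.1 t.2 y0 hy0 hy1 hy2
      · rcases t' with t' | t'
        · exact E2 x' hx' h1' h2' t'.1 t'.2 y0 hy0 hy1 hy2
        · exact absurd ⟨t.1.trans t'.1.symm, t.2.trans t'.2.symm⟩ l.2.1
    exact (E1 x hx h1 h2 h3 h4 y0 hy0 hy1 hy2 e0.1 e0.2).trans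
      (E1 x' hx' h1' h2' h3' h4' y0 hy0 hy1 hy2 e0.1 e0.2).symm
  have E3' : ∀ y ∈ Y, y ≠ b1 → y ≠ b2 → H y q ≠ H b1 q → H y q ≠ H b2 q →
      ∀ y' ∈ Y, y' ≠ b1 → y' ≠ b2 → H y' q ≠ H b1 q → H y' q ≠ H b2 q → H y q = H y' q := by
    intro y hy h1 h2 h3 h4 y' hy' h1' h2' h3' h4'
    by_cases he : y = y'
    · rw [he]
    have l := L (hY hy) (hY hy') he
    have t := tY y hy h1 h2 (by rw [h12]; exact h4) (by rw [h21]; exact h3)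
    have t' := tY y' hy' h1' h2' (by rw [h12]; exact h4') (by rw [h21]; exact h3')
    rw [h11, h22] at t t'
    have e0 : H x0 q ≠ H b1 q ∧ H x0 q ≠ H b2 q := by
      rcases t with t | t
      · exact E2' y hy h1 h2 t.1 t.2 x0 hx0 hx1 hx2
      · rcases t' with t' | t'
        · exact E2' y' hy' h1' h2' t'.1 t'.2 x0 hx0 hx1 hx2
        · exact absurd ⟨t.1.trans t'.1.symm, t.2.trans t'.2.symm⟩ l.2.1
    exact (E1 x0 hx0 hx1 hx2 e0.1 e0.2 y hy h1 h2 h3 h4).symm.trans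
      (E1 x0 hx0 hx1 hx2 e0.1 e0.2 y' hy' h1' h2' h3' h4')
  -- the common vertex
  obtain ⟨w, wX, wY⟩ : ∃ w : W,
      (∀ x ∈ X, x ≠ a1 → x ≠ a2 → H x q ≠ H b1 q → H x q ≠ H b2 q → H x q = w) ∧
      (∀ y ∈ Y, y ≠ b1 → y ≠ b2 → H y q ≠ H b1 q → H y q ≠ H b2 q → H y q = w) := by
    by_cases hx : ∃ x ∈ X, x ≠ a1 ∧ x ≠ a2 ∧ H x q ≠ H b1 q ∧ H x q ≠ H b2 q
    · obtain ⟨x, hx, h1, h2, h3, h4⟩ := hx
      exact ⟨H x q, fun x' hx' h1' h2' h3' h4' => E3 x' hx' h1' h2' h3' h4' x hx h1 h2 h3 h4,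
        fun y hy h1' h2' h3' h4' => (E1 x hx h1 h2 h3 h4 y hy h1' h2' h3' h4').symm⟩
    · by_cases hy : ∃ y ∈ Y, y ≠ b1 ∧ y ≠ b2 ∧ H y q ≠ H b1 q ∧ H y q ≠ H b2 q
      · obtain ⟨y, hy, h1, h2, h3, h4⟩ := hy
        exact ⟨H y q, fun x' hx' h1' h2' h3' h4' => (hx ⟨x', hx', h1', h2', h3', h4'⟩).elim,
          fun y' hy' h1' h2' h3' h4' => E3' y' hy' h1' h2' h3' h4' y hy h1 h2 h3 h4⟩
      · exact ⟨H b1 q, fun x' hx' h1' h2' h3' h4' => (hx ⟨x', hx', h1', h2', h3', h4'⟩).elim,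
          fun y' hy' h1' h2' h3' h4' => (hy ⟨y', hy', h1', h2', h3', h4'⟩).elim⟩
  obtain ⟨e, he, h1, h2, h3⟩ := cov hR (H b1 q) (H b2 q) w
  rcases hXY e he with h | h
  · by_cases e1 : e = a1
    · exact h2 q (by rw [e1, h12])
    by_cases e2 : e = a2
    · exact h1 q (by rw [e2, h21])
    exact h3 q (wX e h e1 e2 (h1 q) (h2 q))
  · by_cases e1 : e = b1
    · exact h1 q (by rw [e1])
    by_cases e2 : e = b2
    · exact h2 q (by rw [e2])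
    exact h3 q (wY e h e1 e2 (h1 q) (h2 q))

theorem w4core
    (hlin : ∀ e ∈ R, ∀ f ∈ R, e ≠ f → ∀ i j, i ≠ j → H e i = H f i → H e j ≠ H f j)
    (hR : Tau H R 4) {X Y : Set E} (hX : X ⊆ R) (hY : Y ⊆ R) (hXY : ∀ e ∈ R, e ∈ X ∨ e ∈ Y)
    (hd : ∀ e ∈ X, e ∉ Y) (hm : ∀ e ∈ X, ∀ f ∈ Y, ∃ i, H e i = H f i)
    {a1 a2 b1 b2 x0 y0 : E} (ha1 : a1 ∈ X) (ha2 : a2 ∈ X) (hb1 : b1 ∈ Y) (hb2 : b2 ∈ Y)
    (hx0 : x0 ∈ X) (hy0 : y0 ∈ Y) (hx1 : x0 ≠ a1) (hx2 : x0 ≠ a2) (hy1 : y0 ≠ b1) (hy2 : y0 ≠ b2)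
    (hA : Dj H a1 a2) (hB : Dj H b1 b2) : False := by
  obtain ⟨k11, h11⟩ := hm a1 ha1 b1 hb1
  obtain ⟨k12, h12⟩ := hm a1 ha1 b2 hb2
  obtain ⟨k21, h21⟩ := hm a2 ha2 b1 hb1
  obtain ⟨k22, h22⟩ := hm a2 ha2 b2 hb2
  have n1 : k11 ≠ k12 := by rintro rfl; exact hB k11 (h11.symm.trans h12)
  have n2 : k21 ≠ k22 := by rintro rfl; exact hB k21 (h21.symm.trans h22)
  have n3 : k11 ≠ k21 := by rintro rfl; exact hA k11 (h11.trans h21.symm)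
  have n4 : k12 ≠ k22 := by rintro rfl; exact hA k12 (h12.trans h22.symm)
  by_cases c1 : k12 = k21
  · subst c1
    by_cases c2 : k11 = k22
    · subst c2
      obtain ⟨r, r1, r2⟩ : ∃ r, k11 ≠ r ∧ k12 ≠ r := by
        clear h11 h12 h21 h22
        revert k11 k12; decide
      exact alpha1 hlin hR hX hY hXY hd hm ha1 ha2 hb1 hb2 hx0 hy0 hx1 hx2 hy1 hy2 hA hB n1 r1 r2
        h11 h22 h12 h21
    · exact alpha2 hlin hR hX hY hXY hd hm ha1 ha2 hb1 hb2 hx0 hy0 hx1 hx2 hy1 hy2 hA hB n1 c2 n4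
        h11 h22 h12 h21
  · have c2 : k11 = k22 := by omega
    subst c2
    exact alpha2 hlin hR hX hY hXY hd hm ha1 ha2 hb2 hb1 hx0 hy0 hx1 hx2 hy2 hy1 hA
      (fun i h => hB i h.symm) n1.symm c1 n3 h12 h21 h11 h22

theorem not_dj {e f : E} (h : ¬ Dj H e f) : ∃ i, H e i = H f i := by
  unfold Dj at h
  push Not at h
  exact h

theorem partner (hR : Tau H R 4) (a : E) : ∃ e ∈ R, Dj H a e := by
  obtain ⟨e, he, h0, h1, h2⟩ := cov hR (H a 0) (H a 1) (H a 2)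
  refine ⟨e, he, fun i => ?_⟩
  have : i = 0 ∨ i = 1 ∨ i = 2 := by omega
  rcases this with rfl | rfl | rfl
  · exact (h0 _).symm
  · exact (h1 _).symm
  · exact (h2 _).symm

theorem w4
    (hlin : ∀ e ∈ R, ∀ f ∈ R, e ≠ f → ∀ i j, i ≠ j → H e i = H f i → H e j ≠ H f j)
    (hR : Tau H R 4) {X Y : Set E} (hX : X ⊆ R) (hY : Y ⊆ R) (hXY : ∀ e ∈ R, e ∈ X ∨ e ∈ Y)
    (hd : ∀ e ∈ X, e ∉ Y) (hm : ∀ e ∈ X, ∀ f ∈ Y, ∃ i, H e i = H f i)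
    (hx : X.Nonempty) (hy : Y.Nonempty) :
    (∃ a1 ∈ X, ∃ a2 ∈ X, Dj H a1 a2 ∧ ∀ x ∈ X, x = a1 ∨ x = a2) ∨
    (∃ b1 ∈ Y, ∃ b2 ∈ Y, Dj H b1 b2 ∧ ∀ y ∈ Y, y = b1 ∨ y = b2) := by
  obtain ⟨a1, ha1⟩ := hx
  obtain ⟨b1, hb1⟩ := hy
  obtain ⟨a2, ha2, hA⟩ := partner hR a1
  obtain ⟨b2, hb2, hB⟩ := partner hR b1
  have ha2' : a2 ∈ X := by
    rcases hXY a2 ha2 with h | h
    · exact h
    · obtain ⟨i, hi⟩ := hm a1 ha1 a2 h
      exact absurd hi (hA i)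
  have hb2' : b2 ∈ Y := by
    rcases hXY b2 hb2 with h | h
    · obtain ⟨i, hi⟩ := hm b2 h b1 hb1
      exact absurd hi.symm (hB i)
    · exact h
  by_contra hcon
  push Not at hcon
  obtain ⟨x0, hx0, hx1, hx2⟩ := hcon.1 a1 ha1 a2 ha2' hA
  obtain ⟨y0, hy0, hy1, hy2⟩ := hcon.2 b1 hb1 b2 hb2' hB
  exact w4core hlin hR hX hY hXY hd hm ha1 ha2' hb1 hb2' hx0 hy0 hx1 hx2 hy1 hy2 hA hB

/-- two disjoint pairs that meet each other, and all further edges meet all four -/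
theorem noZ
    (hlin : ∀ e ∈ R, ∀ f ∈ R, e ≠ f → ∀ i j, i ≠ j → H e i = H f i → H e j ≠ H f j)
    (hR : Tau H R 4) {a1 a2 b1 b2 : E} (ha1 : a1 ∈ R) (ha2 : a2 ∈ R) (hb1 : b1 ∈ R) (hb2 : b2 ∈ R)
    (n11 : a1 ≠ b1) (n12 : a1 ≠ b2) (n21 : a2 ≠ b1) (n22 : a2 ≠ b2)
    (hA : Dj H a1 a2) (hB : Dj H b1 b2) (m11 : ∃ i, H a1 i = H b1 i) (m12 : ∃ i, H a1 i = H b2 i)
    (m21 : ∃ i, H a2 i = H b1 i) (m22 : ∃ i, H a2 i = H b2 i)
    (hz : ∀ z ∈ R, z ≠ a1 → z ≠ a2 → z ≠ b1 → z ≠ b2 → (∃ i, H z i = H a1 i) ∧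
      (∃ i, H z i = H a2 i) ∧ (∃ i, H z i = H b1 i) ∧ ∃ i, H z i = H b2 i) : False := by
  obtain ⟨k11, h11⟩ := m11
  obtain ⟨k12, h12⟩ := m12
  obtain ⟨k21, h21⟩ := m21
  obtain ⟨k22, h22⟩ := m22
  have n1 : k11 ≠ k12 := by rintro rfl; exact hB k11 (h11.symm.trans h12)
  have n2 : k21 ≠ k22 := by rintro rfl; exact hB k21 (h21.symm.trans h22)
  have n3 : k11 ≠ k21 := by rintro rfl; exact hA k11 (h11.trans h21.symm)
  have n4 : k12 ≠ k22 := by rintro rfl; exact hA k12 (h12.trans h22.symm)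
  -- case alpha2
  have al2 : ∀ {b1 b2 : E}, b1 ∈ R → b2 ∈ R → a1 ≠ b1 → a1 ≠ b2 → a2 ≠ b1 → a2 ≠ b2 →
      Dj H b1 b2 → (∀ z ∈ R, z ≠ a1 → z ≠ a2 → z ≠ b1 → z ≠ b2 → (∃ i, H z i = H a1 i) ∧
      (∃ i, H z i = H a2 i) ∧ (∃ i, H z i = H b1 i) ∧ ∃ i, H z i = H b2 i) →
      ∀ {p q r : Fin 3}, p ≠ q → p ≠ r → q ≠ r → H a1 p = H b1 p → H a2 r = H b2 r →
      H a1 q = H b2 q → H a2 q = H b1 q → False := by
    intro b1 b2 hb1 hb2 n11 n12 n21 n22 hB hz p q r hpq hpr hqr h11 h22 h12 h21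
    obtain ⟨e, he, h1, h2, h3⟩ := cov hR (H b1 q) (H b2 q) (H b1 p)
    have e1 : e ≠ a1 := by rintro rfl; exact h2 q h12
    have e2 : e ≠ a2 := by rintro rfl; exact h1 q h21
    have e3 : e ≠ b1 := by rintro rfl; exact h1 q rfl
    have e4 : e ≠ b2 := by rintro rfl; exact h2 q rfl
    obtain ⟨z1, z2, z3, z4⟩ := hz e he e1 e2 e3 e4
    have L := fun {e f : E} (he : e ∈ R) (hf : f ∈ R) (hef : e ≠ f) =>
      l3 hlin he hf hef hpq hpr hqr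
    have M := fun {e f : E} (h : ∃ i, H e i = H f i) => m3 h hpq hpr hqr
    have w1 := M z1
    have w2 := M z2
    have w3 := M z3
    have w4 := M z4
    have l1 := L he ha1 e1
    have l2 := L he ha2 e2
    have l3 := L he hb1 e3
    have l4 := L he hb2 e4
    have l5 := L ha1 hb1 n11
    have l6 := L ha1 hb2 n12
    have l7 := L ha2 hb1 n21
    have l8 := L ha2 hb2 n22
    have dA := d3 hA p q r
    have dB := d3 hB p q r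
    have g1 := h1 q
    have g2 := h2 q
    have g3 := h3 p
    clear hz h1 h2 h3 hlin hR L M z1 z2 z3 z4
    unfold M3 at w1 w2 w3 w4
    unfold L3 at l1 l2 l3 l4 l5 l6 l7 l8
    unfold D3 at dA dB
    grind
  by_cases c1 : k12 = k21
  · subst c1
    by_cases c2 : k11 = k22
    · subst c2
      obtain ⟨r, r1, r2⟩ : ∃ r, k11 ≠ r ∧ k12 ≠ r := by
        clear h11 h12 h21 h22
        revert k11 k12; decide
      obtain ⟨e, he, h1, h2, h3⟩ := cov hR (H b1 k11) (H b2 k11) (H b1 k11)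
      have e1 : e ≠ a1 := by rintro rfl; exact h1 _ h11
      have e2 : e ≠ a2 := by rintro rfl; exact h2 _ h22
      have e3 : e ≠ b1 := by rintro rfl; exact h1 _ rfl
      have e4 : e ≠ b2 := by rintro rfl; exact h2 _ rfl
      obtain ⟨z1, z2, z3, z4⟩ := hz e he e1 e2 e3 e4
      have L := fun {e f : E} (he : e ∈ R) (hf : f ∈ R) (hef : e ≠ f) =>
        l3 hlin he hf hef n1 r1 r2
      have M := fun {e f : E} (h : ∃ i, H e i = H f i) => m3 h n1 r1 r2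
      have w1 := M z1
      have w2 := M z2
      have w3 := M z3
      have w4 := M z4
      have l1 := L he ha1 e1
      have l2 := L he ha2 e2
      have l3 := L he hb1 e3
      have l4 := L he hb2 e4
      have l5 := L ha1 hb1 n11
      have l6 := L ha1 hb2 n12
      have l7 := L ha2 hb1 n21
      have l8 := L ha2 hb2 n22
      have dA := d3 hA k11 k12 r
      have dB := d3 hB k11 k12 r
      have g1 := h1 k11
      have g2 := h2 k11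
      clear hz h1 h2 h3 hlin hR L M z1 z2 z3 z4
      unfold M3 at w1 w2 w3 w4
      unfold L3 at l1 l2 l3 l4 l5 l6 l7 l8
      unfold D3 at dA dB
      grind
    · exact al2 hb1 hb2 n11 n12 n21 n22 hB hz n1 c2 n4 h11 h22 h12 h21
  · have c2 : k11 = k22 := by omega
    subst c2
    exact al2 hb2 hb1 n12 n11 n22 n21 (fun i h => hB i h.symm)
      (fun z hz1 u1 u2 u3 u4 => by
        obtain ⟨v1, v2, v3, v4⟩ := hz z hz1 u1 u2 u4 u3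
        exact ⟨v1, v2, v4, v3⟩) n1.symm c1 n3 h12 h21 h11 h22

/-- a value whose complement is a disjoint pair -/
theorem pair_compl {G : Type v}
    (hlin : ∀ e ∈ R, ∀ f ∈ R, e ≠ f → ∀ i j, i ≠ j → H e i = H f i → H e j ≠ H f j)
    (hR : Tau H R 4) (ψ : E → G) (hψ : ∀ e ∈ R, ∀ f ∈ R, Dj H e f → ψ e = ψ f)
    (hnc : ¬ ∃ g, ∀ e ∈ R, ψ e = g) :
    ∃ g, ∃ b1 ∈ R, ∃ b2 ∈ R, Dj H b1 b2 ∧ ψ b1 ≠ g ∧ ψ b2 ≠ g ∧
      ∀ e ∈ R, e ≠ b1 → e ≠ b2 → ψ e = g := by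
  have hmeet : ∀ e ∈ R, ∀ f ∈ R, ψ e ≠ ψ f → ∃ i, H e i = H f i := fun e he f hf h =>
    not_dj fun h' => h (hψ e he f hf h')
  have step : ∀ g, (∃ e ∈ R, ψ e = g) →
      (∃ a1 ∈ R, ∃ a2 ∈ R, Dj H a1 a2 ∧ ψ a1 = g ∧ ψ a2 = g ∧ ∀ x ∈ R, ψ x = g → x = a1 ∨ x = a2) ∨
      (∃ b1 ∈ R, ∃ b2 ∈ R, Dj H b1 b2 ∧ ψ b1 ≠ g ∧ ψ b2 ≠ g ∧
      ∀ e ∈ R, e ≠ b1 → e ≠ b2 → ψ e = g) := by
    intro g hg
    have hne : ∃ e ∈ R, ψ e ≠ g := by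
      by_contra h
      push Not at h
      exact hnc ⟨g, h⟩
    have h := w4 hlin hR (X := {e | e ∈ R ∧ ψ e = g}) (Y := {e | e ∈ R ∧ ψ e ≠ g})
      (fun e h => h.1) (fun e h => h.1) (fun e he => by
        by_cases h : ψ e = g
        · exact Or.inl ⟨he, h⟩
        · exact Or.inr ⟨he, h⟩) (fun e h h' => h'.2 h.2)
      (fun e he f hf => hmeet e he.1 f hf.1 (fun h => hf.2 (h.symm.trans he.2)))
      (hg.imp fun e h => ⟨h.1, h.2⟩) (hne.imp fun e h => ⟨h.1, h.2⟩)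
    rcases h with ⟨a1, h1, a2, h2, hA, h⟩ | ⟨b1, h1, b2, h2, hB, h⟩
    · exact Or.inl ⟨a1, h1.1, a2, h2.1, hA, h1.2, h2.2, fun x hx hxg => h x ⟨hx, hxg⟩⟩
    · refine Or.inr ⟨b1, h1.1, b2, h2.1, hB, h1.2, h2.2, fun e he e1 e2 => ?_⟩
      by_contra h3
      rcases h e ⟨he, h3⟩ with h4 | h4
      · exact e1 h4
      · exact e2 h4
  obtain ⟨e1, he1, -⟩ : ∃ e ∈ R, True := by
    obtain ⟨e, he, -⟩ := hR ∅ (by simp)
    exact ⟨e, he, trivial⟩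
  rcases step (ψ e1) ⟨e1, he1, rfl⟩ with ⟨a1, ha1, a2, ha2, hA, g1, g2, hXa⟩ | h
  swap
  · exact ⟨_, h⟩
  obtain ⟨e2, he2, hne⟩ : ∃ e ∈ R, ψ e ≠ ψ e1 := by
    by_contra h
    push Not at h
    exact hnc ⟨_, h⟩
  rcases step (ψ e2) ⟨e2, he2, rfl⟩ with ⟨b1, hb1, b2, hb2, hB, g3, g4, hXb⟩ | h
  swap
  · exact ⟨_, h⟩
  exfalso
  have q : ∀ a b : E, a ∈ R → b ∈ R → ψ a = ψ e1 → ψ b = ψ e2 → a ≠ b ∧ ∃ i, H a i = H b i := by
    intro a b ha hb h1 h2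
    have : ψ a ≠ ψ b := by rw [h1, h2]; exact hne.symm
    exact ⟨fun h => this (by rw [h]), hmeet a ha b hb this⟩
  refine noZ hlin hR ha1 ha2 hb1 hb2 (q _ _ ha1 hb1 g1 g3).1 (q _ _ ha1 hb2 g1 g4).1
    (q _ _ ha2 hb1 g2 g3).1 (q _ _ ha2 hb2 g2 g4).1 hA hB (q _ _ ha1 hb1 g1 g3).2
    (q _ _ ha1 hb2 g1 g4).2 (q _ _ ha2 hb1 g2 g3).2 (q _ _ ha2 hb2 g2 g4).2 ?_
  intro z hz z1 z2 z3 z4
  have u1 : ψ z ≠ ψ e1 := fun h => by
    rcases hXa z hz h with h | h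
    · exact z1 h
    · exact z2 h
  have u2 : ψ z ≠ ψ e2 := fun h => by
    rcases hXb z hz h with h | h
    · exact z3 h
    · exact z4 h
  exact ⟨hmeet z hz a1 ha1 (by rw [g1]; exact u1), hmeet z hz a2 ha2 (by rw [g2]; exact u1),
    hmeet z hz b1 hb1 (by rw [g3]; exact u2), hmeet z hz b2 hb2 (by rw [g4]; exact u2)⟩

/-- the two edges of the hexagon with third class `k` -/
theorem hex
    (hlin : ∀ e ∈ R, ∀ f ∈ R, e ≠ f → ∀ i j, i ≠ j → H e i = H f i → H e j ≠ H f j)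
    (hR : Tau H R 4) {b1 b2 : E} (hb1 : b1 ∈ R) (hb2 : b2 ∈ R) (hB : Dj H b1 b2)
    (hm : ∀ e ∈ R, e ≠ b1 → e ≠ b2 → (∃ i, H e i = H b1 i) ∧ ∃ i, H e i = H b2 i)
    {i j k : Fin 3} (hij : i ≠ j) (hik : i ≠ k) (hjk : j ≠ k) :
    ∃ a ∈ R, ∃ a' ∈ R, a ≠ b1 ∧ a ≠ b2 ∧ a' ≠ b1 ∧ a' ≠ b2 ∧ H a i = H b1 i ∧ H a j = H b2 j ∧
      H a' j = H b1 j ∧ H a' i = H b2 i ∧ H a k ≠ H a' k := by
  have M := fun {e f : E} (h : ∃ i, H e i = H f i) => m3 h hij hik hjk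
  have typ : ∀ e ∈ R, H e k ≠ H b1 k → H e k ≠ H b2 k → (e ≠ b1 ∧ e ≠ b2) ∧
      ((H e i = H b1 i ∧ H e j = H b2 j) ∨ (H e j = H b1 j ∧ H e i = H b2 i)) := by
    intro e he h1 h2
    have e1 : e ≠ b1 := by rintro rfl; exact h1 rfl
    have e2 : e ≠ b2 := by rintro rfl; exact h2 rfl
    obtain ⟨z1, z2⟩ := hm e he e1 e2
    have w1 := M z1
    have w2 := M z2
    have dB := d3 hB i j k
    unfold M3 at w1 w2
    unfold D3 at dB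
    refine ⟨⟨e1, e2⟩, ?_⟩
    grind
  obtain ⟨e, he, h1, h2, -⟩ := cov hR (H b1 k) (H b2 k) (H b1 k)
  obtain ⟨e', he', h1', h2', h3'⟩ := cov hR (H b1 k) (H b2 k) (H e k)
  have t := typ e he (h1 k) (h2 k)
  have t' := typ e' he' (h1' k) (h2' k)
  have hne : e' ≠ e := by rintro rfl; exact h3' k rfl
  have l := l3 hlin he' he hne hij hik hjk
  rcases t.2 with t2 | t2
  · rcases t'.2 with t3 | t3
    · exact absurd ⟨t3.1.trans t2.1.symm, t3.2.trans t2.2.symm⟩ l.1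
    · exact ⟨e, he, e', he', t.1.1, t.1.2, t'.1.1, t'.1.2, t2.1, t2.2, t3.1, t3.2, (h3' k).symm⟩
  · rcases t'.2 with t3 | t3
    · exact ⟨e', he', e, he, t'.1.1, t'.1.2, t.1.1, t.1.2, t3.1, t3.2, t2.1, t2.2, h3' k⟩
    · exact absurd ⟨t3.2.trans t2.2.symm, t3.1.trans t2.1.symm⟩ l.1

theorem fin_choice {W : Type w} {x1 x2 s s' u y1 y2 t t' v : W}
    (h1 : x1 ≠ x2) (h2 : s ≠ s') (h3 : s ≠ x1) (h4 : s ≠ x2) (h5 : s' ≠ x1) (h6 : s' ≠ x2)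
    (k1 : y1 ≠ y2) (k2 : t ≠ t') (k3 : t ≠ y1) (k4 : t ≠ y2) (k5 : t' ≠ y1) (k6 : t' ≠ y2) :
    -- edges: ij (x1, y2), ik (x1, t), jk (s, y1), ji (x2, y1), ki (x2, t'), kj (s', y2)
    (x1 ≠ u ∧ y2 ≠ v ∧ t ≠ v) ∨ (x1 ≠ u ∧ t ≠ v ∧ s ≠ u ∧ y1 ≠ v) ∨
    (s ≠ u ∧ y1 ≠ v ∧ x2 ≠ u) ∨ (x2 ≠ u ∧ y1 ≠ v ∧ t' ≠ v) ∨
    (x2 ≠ u ∧ t' ≠ v ∧ s' ≠ u ∧ y2 ≠ v) ∨ (s' ≠ u ∧ y2 ≠ v ∧ x1 ≠ u) := by
  grind

end

theorem t4 {E : Type u} {W : Type w} {G : Type v} (H : E → Fin 3 → W) (hcl : Classes H)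
    (R : Set E)
    (hlin : ∀ e ∈ R, ∀ f ∈ R, e ≠ f → ∀ i j, i ≠ j → H e i = H f i → H e j ≠ H f j)
    (hR : Tau H R 4) (ψ : E → G) (hψ : ∀ e ∈ R, ∀ f ∈ R, Dj H e f → ψ e = ψ f) :
    ∃ g : G, (∀ e ∈ R, ∀ f ∈ R, ψ e ≠ g → ψ f ≠ g → e ≠ f → Dj H e f) ∧
      ((∀ e ∈ R, ψ e = g) ∨
        ∀ (f : E) (i j : Fin 3), i ≠ j → ∃ a ∈ R, ∃ b ∈ R, a ≠ b ∧ ¬ Dj H a b ∧ ψ a = g ∧
          ψ b = g ∧ H a i ≠ H f i ∧ H a j ≠ H f j ∧ H b i ≠ H f i ∧ H b j ≠ H f j) := by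
  by_cases hc : ∃ g, ∀ e ∈ R, ψ e = g
  · obtain ⟨g, hg⟩ := hc
    exact ⟨g, fun e he f hf h => absurd (hg e he) h, Or.inl hg⟩
  obtain ⟨g, b1, hb1, b2, hb2, hB, g1, g2, hall⟩ := pair_compl hlin hR ψ hψ hc
  have hBs : Dj H b2 b1 := fun i h => hB i h.symm
  refine ⟨g, ?_, Or.inr ?_⟩
  · intro e he f hf h1 h2 hef
    have k1 : e = b1 ∨ e = b2 := by
      by_contra h; push Not at h; exact h1 (hall e he h.1 h.2)
    have k2 : f = b1 ∨ f = b2 := by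
      by_contra h; push Not at h; exact h2 (hall f hf h.1 h.2)
    rcases k1 with rfl | rfl <;> rcases k2 with rfl | rfl
    · exact absurd rfl hef
    · exact hB
    · exact hBs
    · exact absurd rfl hef
  · intro f i j hij
    obtain ⟨k, hik, hjk⟩ : ∃ k, i ≠ k ∧ j ≠ k := by revert i j; decide
    have hm : ∀ e ∈ R, e ≠ b1 → e ≠ b2 → (∃ i, H e i = H b1 i) ∧ ∃ i, H e i = H b2 i := by
      intro e he h1 h2
      have h3 := hall e he h1 h2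
      exact ⟨not_dj fun h => g1 ((hψ e he b1 hb1 h).symm.trans h3),
        not_dj fun h => g2 ((hψ e he b2 hb2 h).symm.trans h3)⟩
    obtain ⟨aij, rij, aji, rji, p1, p2, p3, p4, p5, p6, p7, p8, p9⟩ :=
      hex hlin hR hb1 hb2 hB hm hij hik hjk
    obtain ⟨aik, rik, aki, rki, q1, q2, q3, q4, q5, q6, q7, q8, q9⟩ :=
      hex hlin hR hb1 hb2 hB hm hik hij hjk.symm
    obtain ⟨ajk, rjk, akj, rkj, r1, r2, r3, r4, r5, r6, r7, r8, r9⟩ :=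
      hex hlin hR hb1 hb2 hB hm hjk hij.symm hik.symm
    -- third vertices
    have s1 : H ajk i ≠ H b1 i := hlin _ rjk _ hb1 r1 j i hij.symm r5
    have s2 : H ajk i ≠ H b2 i := hlin _ rjk _ hb2 r2 k i hik.symm r6
    have s3 : H akj i ≠ H b1 i := hlin _ rkj _ hb1 r3 k i hik.symm r7
    have s4 : H akj i ≠ H b2 i := hlin _ rkj _ hb2 r4 j i hij.symm r8
    have t1 : H aik j ≠ H b1 j := hlin _ rik _ hb1 q1 i j hij q5
    have t2 : H aik j ≠ H b2 j := hlin _ rik _ hb2 q2 k j hjk.symm q6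
    have t3 : H aki j ≠ H b1 j := hlin _ rki _ hb1 q3 k j hjk.symm q7
    have t4 : H aki j ≠ H b2 j := hlin _ rki _ hb2 q4 i j hij q8
    have key := fin_choice (u := H f i) (v := H f j) (hB i) r9 s1 s2 s3 s4 (hB j) q9 t1 t2 t3 t4
    rcases key with h | h | h | h | h | h
    · refine ⟨aij, rij, aik, rik, ?_, fun hd => hd i (p5.trans q5.symm), hall _ rij p1 p2,
        hall _ rik q1 q2, by rw [p5]; exact h.1, by rw [p6]; exact h.2.1, by rw [q5]; exact h.1,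
        h.2.2⟩
      rintro rfl; exact t2 p6
    · refine ⟨aik, rik, ajk, rjk, ?_, fun hd => hd k (q6.trans r6.symm), hall _ rik q1 q2,
        hall _ rjk r1 r2, by rw [q5]; exact h.1, h.2.1, h.2.2.1, by rw [r5]; exact h.2.2.2⟩
      rintro rfl; exact s1 q5
    · refine ⟨ajk, rjk, aji, rji, ?_, fun hd => hd j (r5.trans p7.symm), hall _ rjk r1 r2,
        hall _ rji p3 p4, h.1, by rw [r5]; exact h.2.1, by rw [p8]; exact h.2.2,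
        by rw [p7]; exact h.2.1⟩
      rintro rfl; exact s2 p8
    · refine ⟨aji, rji, aki, rki, ?_, fun hd => hd i (p8.trans q8.symm), hall _ rji p3 p4,
        hall _ rki q3 q4, by rw [p8]; exact h.1, by rw [p7]; exact h.2.1, by rw [q8]; exact h.1,
        h.2.2⟩
      rintro rfl; exact t3 p7
    · refine ⟨aki, rki, akj, rkj, ?_, fun hd => hd k (q7.trans r7.symm), hall _ rki q3 q4,
        hall _ rkj r3 r4, by rw [q8]; exact h.1, h.2.1, h.2.2.1, by rw [r8]; exact h.2.2.2⟩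
      rintro rfl; exact s4 q8
    · refine ⟨akj, rkj, aij, rij, ?_, fun hd => hd j (r8.trans p6.symm), hall _ rkj r3 r4,
        hall _ rij p1 p2, h.1, by rw [r8]; exact h.2.1, by rw [p5]; exact h.2.2,
        by rw [p6]; exact h.2.1⟩
      rintro rfl; exact s3 p5

end Run7.h62.T4
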