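import Pool.Agent.Run7.h62.PMAIN
import Pool.Agent.Run7.h62.PPI1
import Pool.Agent.Run7.h62.PT4

/-!
The connectedness parameter of the matching complex of a 3-partite 3-graph is at least a quarter
of the cover number.
-/

set_option linter.unusedSectionVars false

namespace Run7.h62.FINAL

open Run7.h62 Run7.h62.RAINBOW Run7.h62.PI1 Run7.h62.MAIN

universe u v

section

variable {E : Type u} {V : Fin 3 → Type v} (H : E → ∀ i, V i)

/-- vertices of all classes in one type -/
def HH (e : E) (i : Fin 3) : Σ i, V i := ⟨i, H e i⟩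

theorem HH_classes : Classes (HH H) := by
  intro e f i j h
  exact congrArg Sigma.fst h

theorem HH_eq (e f : E) (i : Fin 3) : HH H e i = HH H f i ↔ H e i = H f i := by
  unfold HH
  constructor
  · intro h
    exact eq_of_heq (Sigma.mk.inj h).2
  · intro h
    rw [h]

theorem Dj_iff (e f : E) : Dj (HH H) e f ↔ ∀ i, H e i ≠ H f i := by
  unfold Dj
  exact forall_congr' fun i => not_congr (HH_eq H e f i)

theorem mem_matchings (s : Finset E) : Mat (HH H) Set.univ s ↔ s ∈ matchings H := by
  constructor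
  · rintro ⟨_, h⟩ e he f hf hef
    exact (Dj_iff H e f).1 (h e he f hf hef)
  · intro h
    exact ⟨fun e _ => Set.mem_univ e, fun e he f hf hef => (Dj_iff H e f).2 (h e he f hf hef)⟩

theorem lower : IsLowerSet (matchings H) := fun _ _ hts hs e he f hf hef =>
  hs e (hts he) f (hts hf) hef

theorem empty_mem : ∅ ∈ matchings H := fun e he => absurd he (Finset.notMem_empty e)

theorem tau_spec : Tau (HH H) Set.univ (tau H) := by
  intro U hU
  by_contra hcon
  push Not at hcon
  have h1 : tau H ≤ U.card := Nat.sInf_le ⟨U, rfl, fun e => hcon e (Set.mem_univ e)⟩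
  omega

end

variable {E : Type u} [Fintype E] {V : Fin 3 → Type v} (H : E → ∀ i, V i)

theorem nonab (h : 9 ≤ tau H) : NonabTriv (matchings H) := by
  classical
  intro G _ c hc
  have hpair : ∀ e f, Dj (HH H) e f → ({e, f} : Finset E) ∈ matchings H := by
    intro e f hef x hx y hy hxy
    simp only [Finset.mem_insert, Finset.mem_singleton] at hx hy
    rcases hx with rfl | rfl
    · rcases hy with rfl | rfl
      · exact absurd rfl hxy
      · exact (Dj_iff H _ _).1 hef
    · rcases hy with rfl | rfl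
      · exact (Dj_iff H _ _).1 (dj_symm hef)
      · exact absurd rfl hxy
  have hone : ∀ e, (∃ s ∈ matchings H, e ∈ s) → c e e = 1 := by
    rintro e ⟨s, hs, he⟩
    have h1 := hc e e e ⟨s, hs, he, he, he⟩
    exact mul_eq_left.1 h1
  have hcoc : Coc (HH H) c Set.univ := by
    refine ⟨fun e _ f _ g _ h1 h2 h3 => hc e f g ⟨{e, f, g}, ?_, by simp, by simp, by simp⟩,
      fun e _ f _ hef => ?_⟩
    · intro x hx y hy hxy
      simp only [Finset.mem_insert, Finset.mem_singleton] at hx hy
      rw [← Dj_iff]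
      rcases hx with rfl | rfl | rfl
      · rcases hy with rfl | rfl | rfl
        · exact absurd rfl hxy
        · exact h1
        · exact h3
      · rcases hy with rfl | rfl | rfl
        · exact dj_symm h1
        · exact absurd rfl hxy
        · exact h2
      · rcases hy with rfl | rfl | rfl
        · exact dj_symm h3
        · exact dj_symm h2
        · exact absurd rfl hxy
    · have h1 := hc e f e ⟨{e, f}, hpair e f hef, by simp, by simp, by simp⟩
      rw [hone e ⟨_, hpair e f hef, by simp⟩] at h1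
      exact (inv_eq_of_mul_eq_one_right h1).symm
  obtain ⟨b, hb⟩ := pi1_triv_of (HH_classes H)
    (fun R hlin hR ψ hψ => T4.t4 (HH H) (HH_classes H) R hlin hR ψ hψ) Set.univ
    (tau_mono (tau_spec H) h subset_rfl) hcoc
  refine ⟨b, ?_⟩
  rintro e f ⟨s, hs, he, hf⟩
  by_cases hef : e = f
  · subst hef
    rw [hone e ⟨s, hs, he⟩, inv_mul_cancel]
  · exact hb e (Set.mem_univ e) f (Set.mem_univ f) ((Dj_iff H e f).2 (hs e he f hf hef))

theorem ext_sphere (k : ℕ) (h : 4 * k + 1 ≤ tau H) (m : ℕ) (hm : m ≤ k) :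
    ExtSphere (Geo (matchings H)) m := by
  classical
  let _ : LinearOrder E := LinearOrder.lift' (Fintype.equivFin E) (Fintype.equivFin E).injective
  have htau : Tau (HH H) Set.univ (4 * k + 1) := tau_mono (tau_spec H) h subset_rfl
  refine hurewicz (lower H) (empty_mem H) k (fun n hn => ?_) (fun A _ n hn => ?_)
    (fun hk => nonab H (by omega)) m hm
  · exact ex_congr (mem_matchings H) (hom_conn (HH H) Set.univ k htau (ZMod 2) n hn)
  · exact ex_congr (mem_matchings H) (hom_conn (HH H) Set.univ k htau A n hn)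

theorem quarter : (tau H : ℕ∞) ≤ 4 * eta (Geo (matchings H)) := by
  rcases Nat.eq_zero_or_pos (tau H) with h0 | hpos
  · rw [h0]
    simp
  · obtain ⟨k, hk1, hk2⟩ : ∃ k, 4 * k + 1 ≤ tau H ∧ tau H ≤ 4 * (k + 1) :=
      ⟨(tau H - 1) / 4, by omega, by omega⟩
    have h1 : ((k + 1 : ℕ) : ℕ∞) ≤ eta (Geo (matchings H)) :=
      le_iSup₂_of_le (k + 1) (fun m hm => ext_sphere H k hk1 m (Nat.lt_succ_iff.1 hm)) le_rfl
    calc (tau H : ℕ∞) ≤ ((4 * (k + 1) : ℕ) : ℕ∞) := by exact_mod_cast hk2
      _ = 4 * ((k + 1 : ℕ) : ℕ∞) := by push_cast; rfl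
      _ ≤ 4 * eta (Geo (matchings H)) := by gcongr

end Run7.h62.FINAL
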