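import Pool.Agent.Run7.h62.PQMAP

/-!
Compactness of the geometric realization and gluing of maps over the simplices of a given size.
-/

set_option linter.unusedSectionVars false

namespace Run7.h62.GLUE

open Run7.h62 Run7.h62.QMAP Topology
open scoped unitInterval

universe u v

variable {E : Type u} [Fintype E]

theorem isCompact_Geo (K : Set (Finset E)) : IsCompact (Geo K) := by
  have h1 : IsClosed (Geo K) := by
    have : Geo K = ⋃ s ∈ K, {x : E → ℝ | (∀ e, 0 ≤ x e) ∧ ∑ e, x e = 1 ∧ ∀ e, e ∉ s → x e = 0} := by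
      ext x
      simp only [Geo, Set.mem_ofPred_eq, Set.mem_iUnion, exists_prop]
      constructor
      · rintro ⟨h1, h2, s, hs, h3⟩
        exact ⟨s, hs, h1, h2, fun e he => by_contra fun hne => he (h3 e hne)⟩
      · rintro ⟨s, hs, h1, h2, h3⟩
        exact ⟨h1, h2, s, hs, fun e hne => by_contra fun he => hne (h3 e he)⟩
    rw [this]
    refine Set.Finite.isClosed_biUnion (Set.toFinite K) fun s _ => ?_
    have hA : IsClosed {x : E → ℝ | ∀ e, 0 ≤ x e} := by
      have : {x : E → ℝ | ∀ e, 0 ≤ x e} = ⋂ e, {x : E → ℝ | 0 ≤ x e} := by ext x; simp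
      rw [this]
      exact isClosed_iInter fun e => isClosed_le continuous_const (continuous_apply e)
    have hB : IsClosed {x : E → ℝ | ∑ e, x e = 1} :=
      isClosed_eq (continuous_finsetSum _ fun e _ => continuous_apply e) continuous_const
    have hC : IsClosed {x : E → ℝ | ∀ e, e ∉ s → x e = 0} := by
      have : {x : E → ℝ | ∀ e, e ∉ s → x e = 0} = ⋂ e, ⋂ _ : e ∉ s, {x : E → ℝ | x e = 0} := by
        ext x; simp
      rw [this]
      exact isClosed_iInter fun e => isClosed_iInter fun _ =>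
        isClosed_eq (continuous_apply e) continuous_const
    exact hA.inter (hB.inter hC)
  refine (isCompact_Icc (a := (0 : E → ℝ)) (b := 1)).of_isClosed_subset h1 fun x hx => ?_
  refine ⟨fun e => hx.1 e, fun e => ?_⟩
  have h2 := hx.2.1
  have h3 : x e ≤ ∑ e, x e := Finset.single_le_sum (fun e _ => hx.1 e) (Finset.mem_univ e)
  rw [h2] at h3
  exact h3

instance compactSpace_Geo (K : Set (Finset E)) : CompactSpace (Geo K) :=
  isCompact_iff_compactSpace.1 (isCompact_Geo K)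

theorem glue (K : Set (Finset E)) (hK : IsLowerSet K) (m : ℕ)
    {X : Type u} [TopologicalSpace X] (x0 : X) (v : Finset E → Fin (m + 1) → E)
    (hv : ∀ s ∈ K, s.card = m + 1 → Function.Injective (v s) ∧ ∀ e, e ∈ s ↔ e ∈ Set.range (v s))
    (g : Finset E → C((Fin m → I) × I, X))
    (hg : ∀ s ∈ K, s.card = m + 1 → ∀ t : Fin m → I, (∃ i, t i = 0 ∨ t i = 1) → ∀ r,
      g s (t, r) = x0) :
    ∃ G : C(Geo (skel K (m + 1)) × I, X),
      (∀ (x : Geo (skel K (m + 1))) (r : I), (x : E → ℝ) ∈ Geo (skel K m) → G (x, r) = x0) ∧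
      ∀ s ∈ K, s.card = m + 1 → ∀ (t : Fin m → I) (x : Geo (skel K (m + 1))) (r : I),
        (x : E → ℝ) = Q m (v s) t → G (x, r) = g s (t, r) := by
  classical
  have hskel : IsLowerSet (skel K (m + 1)) := fun a b hba ha =>
    ⟨hK hba ha.1, (Finset.card_le_card hba).trans ha.2⟩
  have hmono : Geo (skel K m) ⊆ Geo (skel K (m + 1)) :=
    Geo_mono fun s hs => ⟨hs.1, hs.2.trans (Nat.le_succ m)⟩
  have hQ : ∀ s : {s : Finset E // s ∈ K ∧ s.card = m + 1}, ∀ t : Fin m → I,
      Q m (v s.1) t ∈ Geo (skel K (m + 1)) := fun s t =>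
    Q_mem _ hskel m _ ⟨s.1, ⟨s.2.1, s.2.2.le⟩, fun i =>
      ((hv s.1 s.2.1 s.2.2).2 _).2 ⟨i, rfl⟩⟩ t
  -- a point with at most m nonzero coordinates is not in the interior of a cube
  have hcard : ∀ s : {s : Finset E // s ∈ K ∧ s.card = m + 1}, ∀ t : Fin m → I, ∀ s' : Finset E,
      (∀ e, Q m (v s.1) t e ≠ 0 → e ∈ s') → (∀ i, t i ≠ 0 ∧ t i ≠ 1) → s.1 ⊆ s' := by
    intro s t s' hs' ht e he
    obtain ⟨i, rfl⟩ := ((hv s.1 s.2.1 s.2.2).2 _).1 he
    exact hs' _ ((Q_interior m _ (hv s.1 s.2.1 s.2.2).1 t ht).1 i)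
  let S := {s : Finset E // s ∈ K ∧ s.card = m + 1}
  let D := (Σ _ : S, (Fin m → I) × I) ⊕ (Geo (skel K m) × I)
  let π : D → Geo (skel K (m + 1)) × I :=
    Sum.elim (fun p => (⟨Q m (v p.1.1) p.2.1, hQ p.1 p.2.1⟩, p.2.2))
      (fun p => (⟨p.1.1, hmono p.1.2⟩, p.2))
  have hπ : Continuous π := by
    refine continuous_sumElim.2 ⟨continuous_sigma fun s => ?_, ?_⟩
    · exact (Continuous.subtype_mk ((Q_continuous m (v s.1)).comp continuous_fst) _).prodMk
        continuous_snd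
    · have h1 : Continuous fun p : Geo (skel K m) × I => p.1.1 :=
        continuous_subtype_val.comp continuous_fst
      exact (Continuous.subtype_mk h1 _).prodMk continuous_snd
  have hsurj : Function.Surjective π := by
    rintro ⟨⟨x, hx1, hx2, s, hs, hxs⟩, r⟩
    by_cases hc : s.card ≤ m
    · exact ⟨Sum.inr (⟨x, hx1, hx2, s, ⟨hs.1, hc⟩, hxs⟩, r), rfl⟩
    · have hsc : s.card = m + 1 := le_antisymm hs.2 (by omega)
      obtain ⟨t, ht⟩ := Q_surj m (v s) (hv s hs.1 hsc).1 x hx1 hx2 fun e he =>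
        ((hv s hs.1 hsc).2 e).1 (hxs e he)
      refine ⟨Sum.inl ⟨⟨s, hs.1, hsc⟩, t, r⟩, ?_⟩
      simp only [π, Sum.elim_inl, ht]
  let φ : D → X := Sum.elim (fun p => g p.1.1 p.2) (fun _ => x0)
  have hφ : Continuous φ := by
    refine continuous_sumElim.2 ⟨continuous_sigma fun s => ?_, continuous_const⟩
    exact (g s.1).continuous
  have hq : IsQuotientMap π := IsQuotientMap.of_surjective_continuous hsurj hπ
  have key1 : ∀ (s : S) (t : Fin m → I) (r : I), Q m (v s.1) t ∈ Geo (skel K m) →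
      g s.1 (t, r) = x0 := by
    intro s t r hm
    by_cases ht : ∃ i, t i = 0 ∨ t i = 1
    · exact hg s.1 s.2.1 s.2.2 t ht r
    · push Not at ht
      obtain ⟨_, _, s', hs', hsub⟩ := hm
      have := Finset.card_le_card (hcard s t s' hsub ht)
      have h2 := s.2.2
      have h3 := hs'.2
      omega
  have key2 : ∀ (s s' : S) (t t' : Fin m → I) (r : I),
      Q m (v s.1) t = Q m (v s'.1) t' → g s.1 (t, r) = g s'.1 (t', r) := by
    intro s s' t t' r h
    by_cases hm : Q m (v s.1) t ∈ Geo (skel K m)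
    · rw [key1 s t r hm, key1 s' t' r (h ▸ hm)]
    · have ht : ∀ i, t i ≠ 0 ∧ t i ≠ 1 := by
        by_contra hcon
        push Not at hcon
        obtain ⟨i, hi⟩ := hcon
        refine hm (Q_boundary K hK m _ ⟨s.1, s.2.1, fun i =>
          ((hv s.1 s.2.1 s.2.2).2 _).2 ⟨i, rfl⟩⟩ t ⟨i, ?_⟩)
        by_cases h0 : t i = 0
        · exact Or.inl h0
        · exact Or.inr (hi h0)
      have hsub : s.1 ⊆ s'.1 := hcard s t s'.1 (fun e he => by
        rw [h] at he
        obtain ⟨j, hj, _⟩ := Q_supp m _ t' e he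
        exact ((hv s'.1 s'.2.1 s'.2.2).2 e).2 ⟨j, hj⟩) ht
      have hss : s = s' := Subtype.ext (Finset.eq_of_subset_of_card_le hsub (by
        rw [s.2.2, s'.2.2]))
      subst hss
      rw [(Q_interior m _ (hv s.1 s.2.1 s.2.2).1 t ht).2 t' h]
  have hfac : Function.FactorsThrough φ π := by
    rintro (⟨s, t, r⟩ | ⟨x, r⟩) (⟨s', t', r'⟩ | ⟨x', r'⟩) h
    · simp only [π, Sum.elim_inl, Prod.mk.injEq, Subtype.mk.injEq] at h
      obtain ⟨h1, rfl⟩ := h
      exact key2 s s' t t' r h1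
    · simp only [π, Sum.elim_inl, Sum.elim_inr, Prod.mk.injEq, Subtype.mk.injEq] at h
      exact key1 s t r (by rw [h.1]; exact x'.2)
    · simp only [π, Sum.elim_inl, Sum.elim_inr, Prod.mk.injEq, Subtype.mk.injEq] at h
      exact (key1 s' t' r' (by rw [← h.1]; exact x.2)).symm
    · rfl
  have hq' : IsQuotientMap (⟨π, hπ⟩ : C(D, Geo (skel K (m + 1)) × I)) := hq
  let G := hq'.lift ⟨φ, hφ⟩ hfac
  have hG : ∀ d, G (π d) = φ d := fun d =>
    DFunLike.congr_fun (hq'.lift_comp ⟨φ, hφ⟩ hfac) d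
  refine ⟨G, fun x r hx => ?_, fun s hs hsc t x r hx => ?_⟩
  · exact hG (Sum.inr (⟨x.1, hx⟩, r))
  · have h1 := hG (Sum.inl ⟨⟨s, hs, hsc⟩, t, r⟩)
    have h2 : x = ⟨Q m (v s) t, hQ ⟨s, hs, hsc⟩ t⟩ := Subtype.ext hx
    rw [h2]
    exact h1

end Run7.h62.GLUE
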