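import Pool.Agent.Run7.h62.PPERM

/-!
Homotopy addition for cubes whose faces of codimension two are trivial.
-/

set_option linter.unusedSectionVars false

namespace Run7.h62.HAL

open Run7.h62 Run7.h62.PERM
open scoped unitInterval Topology Topology.Homotopy

universe u v

variable {N : Type} {X : Type u} [TopologicalSpace X] {x0 : X}

/-- cube maps with trivial faces of codimension two, one coordinate separate -/
structure CMap (N : Type) (X : Type u) [TopologicalSpace X] (x0 : X) where
  F : (N → I) × I → X
  cont : Continuous F
  h1 : ∀ t s i j, i ≠ j → (t i = 0 ∨ t i = 1) → (t j = 0 ∨ t j = 1) → F (t, s) = x0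
  h2 : ∀ t s i, (t i = 0 ∨ t i = 1) → (s = 0 ∨ s = 1) → F (t, s) = x0

/-- top face -/
def top (F : CMap N X x0) : Ω^ N X x0 :=
  ⟨⟨fun t => F.F (t, 1), F.cont.comp (continuous_id.prodMk continuous_const)⟩,
    fun t ⟨i, hi⟩ => F.h2 t 1 i hi (Or.inr rfl)⟩

/-- bottom face -/
def bot (F : CMap N X x0) : Ω^ N X x0 :=
  ⟨⟨fun t => F.F (t, 0), F.cont.comp (continuous_id.prodMk continuous_const)⟩,
    fun t ⟨i, hi⟩ => F.h2 t 0 i hi (Or.inl rfl)⟩

variable [DecidableEq N]

/-- side faces -/
def side (i : N) (ε : Bool) (F : CMap N X x0) : Ω^ N X x0 :=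
  ⟨⟨fun t => F.F (Function.update t i (bI ε), t i),
    F.cont.comp ((continuous_id.update i continuous_const).prodMk (continuous_apply i))⟩, by
    rintro t ⟨k, hk⟩
    by_cases hki : k = i
    · subst hki
      exact F.h2 _ _ k (by rw [Function.update_self]; exact bI_or ε) hk
    · exact F.h1 _ _ k i hki (by rw [Function.update_of_ne hki]; exact hk)
        (by rw [Function.update_self]; exact bI_or ε)⟩

/-- the height function -/
noncomputable def gg (u : ℝ) : I := cl (min (1 + u) ((3 - u) / 2))

theorem gg_continuous : Continuous gg :=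
  cl_continuous.comp ((continuous_const.add continuous_id).min
    ((continuous_const.sub continuous_id).div_const 2))

theorem gg_or (u : ℝ) : gg u = 1 ∨ cl u = 0 ∨ cl u = 1 := by
  by_cases h0 : u ≤ 0
  · exact Or.inr (Or.inl (cl_of_le h0))
  · by_cases h1 : 1 ≤ u
    · exact Or.inr (Or.inr (cl_of_ge h1))
    · left
      exact cl_of_ge (le_min (by linarith) (by linarith))

/-- the moving parameter -/
noncomputable def uu (l : I) (x : I) : ℝ := (1 - (l : ℝ)) * x + l * (4 * x - 1)

theorem uu_zero (x : I) : uu 0 x = x := by simp [uu]

theorem uu_one (x : I) : uu 1 x = 4 * x - 1 := by simp [uu]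

theorem uu_continuous : Continuous fun p : I × I => uu p.1 p.2 := by
  unfold uu
  have h1 : Continuous fun p : I × I => (p.1 : ℝ) := continuous_subtype_val.comp continuous_fst
  have h2 : Continuous fun p : I × I => (p.2 : ℝ) := continuous_subtype_val.comp continuous_snd
  exact ((continuous_const.sub h1).mul h2).add (h1.mul ((continuous_const.mul h2).sub
    continuous_const))

theorem cl_uu (l x : I) (hx : x = 0 ∨ x = 1) : cl (uu l x) = 0 ∨ cl (uu l x) = 1 := by
  have h0 := l.2.1
  rcases hx with rfl | rfl
  · left
    apply cl_of_le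
    simp only [uu, Set.Icc.coe_zero]
    linarith
  · right
    apply cl_of_ge
    simp only [uu, Set.Icc.coe_one]
    linarith

theorem gg_uu_zero (x : I) : gg (uu 0 x) = 1 := by
  rw [uu_zero]
  have h0 := x.2.1
  have h1 := x.2.2
  exact cl_of_ge (le_min (by linarith) (by linarith))

theorem gg_uu_one (x : I) (hx : x = 0 ∨ x = 1) : gg (uu 1 x) = 0 := by
  rw [uu_one]
  rcases hx with rfl | rfl
  · apply cl_of_le
    simp
  · apply cl_of_le
    simp only [Set.Icc.coe_one]
    exact (min_le_right _ _).trans (by norm_num)

theorem min_one' (s : I) : min s 1 = s := min_eq_left (s.2.2)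

theorem min_zero' (s : I) : min s 0 = 0 := min_eq_right (s.2.1)

theorem zero_min' (s : I) : min 0 s = 0 := min_eq_left (s.2.1)

/-- pushing up along the coordinate `j` -/
noncomputable def step (j : N) (F : CMap N X x0) : CMap N X x0 where
  F p := F.F (Function.update p.1 j (cl (uu 1 (p.1 j))), min p.2 (gg (uu 1 (p.1 j))))
  cont := by
    have h1 : Continuous fun p : (N → I) × I => uu 1 (p.1 j) :=
      uu_continuous.comp (continuous_const.prodMk ((continuous_apply j).comp continuous_fst))
    exact F.cont.comp ((continuous_fst.update j (cl_continuous.comp h1)).prodMk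
      (continuous_snd.min (gg_continuous.comp h1)))
  h1 := by
    intro t s i k hik hi hk
    by_cases hij : i = j
    · subst hij
      refine F.h2 _ _ k ?_ (Or.inl ?_)
      · simp only [Function.update_of_ne hik.symm]
        exact hk
      · simp only [gg_uu_one _ hi, min_zero']
    · by_cases hkj : k = j
      · subst hkj
        refine F.h2 _ _ i ?_ (Or.inl ?_)
        · simp only [Function.update_of_ne hij]
          exact hi
        · simp only [gg_uu_one _ hk, min_zero']
      · refine F.h1 _ _ i k hik ?_ ?_
        · simp only [Function.update_of_ne hij]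
          exact hi
        · simp only [Function.update_of_ne hkj]
          exact hk
  h2 := by
    intro t s i hi hs
    by_cases hij : i = j
    · subst hij
      refine F.h2 _ _ i ?_ (Or.inl ?_)
      · simp only [Function.update_self]
        exact cl_uu _ _ hi
      · simp only [gg_uu_one _ hi, min_zero']
    · have hi' : Function.update t j (cl (uu 1 (t j))) i = 0 ∨
          Function.update t j (cl (uu 1 (t j))) i = 1 := by
        simp only [Function.update_of_ne hij]
        exact hi
      rcases hs with rfl | rfl
      · exact F.h2 _ _ i hi' (Or.inl (zero_min' _))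
      · rcases gg_or (uu 1 (t j)) with h | h
        · refine F.h2 _ _ i hi' (Or.inr ?_)
          simp only [h, min_one']
        · refine F.h1 _ _ i j hij hi' ?_
          simp only [Function.update_self]
          exact h

theorem step_apply (j : N) (F : CMap N X x0) (t : N → I) (s : I) : (step j F).F (t, s) =
    F.F (Function.update t j (cl (uu 1 (t j))), min s (gg (uu 1 (t j)))) := rfl

theorem top_step (j : N) (F : CMap N X x0) : top (step j F) =
    GenLoop.transAt j (GenLoop.transAt j (side j false F) (top F))
      (GenLoop.symmAt j (side j true F)) := by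
  ext t
  have hT : ∀ (f g : Ω^ N X x0) (t : N → I), GenLoop.transAt j f g t =
      if (t j : ℝ) ≤ 1 / 2
      then f (Function.update t j <| Set.projIcc 0 1 zero_le_one (2 * t j))
      else g (Function.update t j <| Set.projIcc 0 1 zero_le_one (2 * t j - 1)) :=
    fun f g t => rfl
  have hS : ∀ (f : Ω^ N X x0) (t : N → I), GenLoop.symmAt j f t =
      f fun k => if k = j then unitInterval.symm (t j) else t k := fun f t => rfl
  have hL : top (step j F) t = F.F (Function.update t j (cl (uu 1 (t j))),
    min 1 (gg (uu 1 (t j)))) := rfl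
  have hm : ∀ s : I, min 1 s = s := fun s => min_eq_right s.2.2
  have ht0 := (t j).2.1
  have ht1 := (t j).2.2
  rw [hL, hT, hm, uu_one]
  by_cases h1 : (t j : ℝ) ≤ 1 / 2
  · rw [if_pos h1, hT]
    have e1 : Set.projIcc (0 : ℝ) 1 zero_le_one (2 * t j) = ⟨2 * t j, by linarith, by linarith⟩ :=
      Set.projIcc_of_mem _ _
    rw [e1]
    simp only [Function.update_self, Function.update_idem]
    by_cases h2 : 2 * (t j : ℝ) ≤ 1 / 2
    · rw [if_pos h2]
      have hsd : ∀ t' : N → I, side j false F t' = F.F (Function.update t' j 0, t' j) :=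
        fun t' => rfl
      rw [hsd]
      simp only [Function.update_self, Function.update_idem]
      have e2 : cl (4 * (t j : ℝ) - 1) = 0 := cl_of_le (by linarith)
      have e3 : gg (4 * (t j : ℝ) - 1) = Set.projIcc 0 1 zero_le_one (2 * (2 * (t j : ℝ))) := by
        unfold gg cl
        congr 1
        rw [min_eq_left (by linarith)]
        ring
      rw [e2, e3]
    · rw [if_neg h2]
      have htp : ∀ t' : N → I, top F t' = F.F (t', 1) := fun t' => rfl
      rw [htp]
      have e2 : gg (4 * (t j : ℝ) - 1) = 1 := cl_of_ge (le_min (by linarith) (by linarith))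
      have e3 : cl (4 * (t j : ℝ) - 1) =
          Set.projIcc 0 1 zero_le_one (2 * (2 * (t j : ℝ)) - 1) := by
        unfold cl
        congr 1
        ring
      rw [e2, e3]
  · rw [if_neg h1, hS]
    have hsd : ∀ t' : N → I, side j true F t' = F.F (Function.update t' j 1, t' j) :=
      fun t' => rfl
    rw [hsd]
    have e2 : cl (4 * (t j : ℝ) - 1) = 1 := cl_of_ge (by linarith)
    have e0 : Set.projIcc (0 : ℝ) 1 zero_le_one (2 * t j - 1) =
        ⟨2 * t j - 1, by linarith, by linarith⟩ := Set.projIcc_of_mem _ _
    have e3 : gg (4 * (t j : ℝ) - 1) =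
        unitInterval.symm (Set.projIcc (0 : ℝ) 1 zero_le_one (2 * t j - 1)) := by
      rw [e0]
      unfold gg
      rw [min_eq_right (by linarith)]
      apply Subtype.ext
      rw [unitInterval.coe_symm_eq]
      have : (3 - (4 * (t j : ℝ) - 1)) / 2 = 2 - 2 * t j := by ring
      rw [this]
      unfold cl
      rw [Set.projIcc_of_mem _ ⟨by linarith, by linarith⟩]
      simp only
      ring
    rw [e2, e3]
    congr 2
    · funext k
      by_cases hk : k = j
      · subst hk
        simp
      · simp [hk]
    · simp

theorem bot_step (j : N) (F : CMap N X x0) : cls (bot (step j F)) = cls (bot F) := by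
  symm
  refine cls_eq_of_self (bot F) _ _ (fun p => Function.update p.2 j (cl (uu p.1 (p.2 j)))) ?_
    (fun t => ?_) (fun t => ?_) (fun s t ht => ?_)
  · exact continuous_snd.update j (cl_continuous.comp (uu_continuous.comp
      (continuous_fst.prodMk ((continuous_apply j).comp continuous_snd))))
  · simp only [uu_zero, cl_coe, Function.update_eq_self]
  · have h1 : bot (step j F) t = F.F (Function.update t j (cl (uu 1 (t j))),
      min 0 (gg (uu 1 (t j)))) := rfl
    have h2 : ∀ t', bot F t' = F.F (t', 0) := fun t' => rfl
    rw [h1, h2, zero_min']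
  · obtain ⟨k, hk⟩ := ht
    refine ⟨k, ?_⟩
    by_cases hkj : k = j
    · subst hkj
      simp only [Function.update_self]
      exact cl_uu _ _ hk
    · simp only [Function.update_of_ne hkj]
      exact hk

theorem side_self_step (j : N) (F : CMap N X x0) (ε : Bool) (t : N → I) :
    side j ε (step j F) t = x0 := by
  have h1 : side j ε (step j F) t = F.F (Function.update (Function.update t j (bI ε)) j
    (cl (uu 1 (Function.update t j (bI ε) j))), min (t j)
      (gg (uu 1 (Function.update t j (bI ε) j)))) := rfl
  rw [h1, Function.update_self]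
  refine F.h2 _ _ j ?_ (Or.inl ?_)
  · simp only [Function.update_self]
    exact cl_uu _ _ (bI_or ε)
  · simp only [gg_uu_one _ (bI_or ε), min_zero']

/-- the family for the other sides -/
noncomputable def sd (i j : N) (p : I × (N → I)) : N → I :=
  Function.update (Function.update p.2 j (cl (uu p.1 (p.2 j)))) i
    (min (p.2 i) (gg (uu p.1 (p.2 j))))

theorem side_step_apply (i j : N) (hij : i ≠ j) (F : CMap N X x0) (ε : Bool) (t : N → I) :
    side i ε (step j F) t = side i ε F (sd i j (1, t)) := by
  have h1 : side i ε (step j F) t = F.F (Function.update (Function.update t i (bI ε)) j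
    (cl (uu 1 (Function.update t i (bI ε) j))), min (t i)
      (gg (uu 1 (Function.update t i (bI ε) j)))) := rfl
  have h2 : side i ε F (sd i j (1, t)) = F.F (Function.update (sd i j (1, t)) i (bI ε),
    sd i j (1, t) i) := rfl
  rw [h1, h2]
  simp only [sd, Function.update_self, Function.update_idem, Function.update_of_ne hij.symm]
  rw [Function.update_comm hij]

theorem side_step (i j : N) (hij : i ≠ j) (F : CMap N X x0) (ε : Bool) :
    cls (side i ε (step j F)) = cls (side i ε F) := by
  symm
  refine cls_eq_of_self (side i ε F) _ _ (sd i j) ?_ (fun t => ?_)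
    (fun t => (side_step_apply i j hij F ε t).symm) (fun s t ht => ?_)
  · have h1 : Continuous fun p : I × (N → I) => uu p.1 (p.2 j) :=
      uu_continuous.comp (continuous_fst.prodMk ((continuous_apply j).comp continuous_snd))
    exact (continuous_snd.update j (cl_continuous.comp h1)).update i
      (((continuous_apply i).comp continuous_snd).min (gg_continuous.comp h1))
  · have : sd i j (0, t) = t := by
      have h := gg_uu_zero (t j)
      rw [uu_zero] at h
      simp only [sd, h, min_one', uu_zero, cl_coe, Function.update_eq_self]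
    rw [this]
  · obtain ⟨k, hk⟩ := ht
    by_cases hki : k = i
    · subst hki
      rcases hk with hk | hk
      · refine ⟨k, Or.inl ?_⟩
        simp only [sd, Function.update_self, hk]
        exact zero_min' _
      · rcases gg_or (uu s (t j)) with h | h
        · refine ⟨k, Or.inr ?_⟩
          simp only [sd, Function.update_self, hk, h, min_self]
        · refine ⟨j, ?_⟩
          simp only [sd, Function.update_of_ne hij.symm, Function.update_self]
          exact h
    · refine ⟨k, ?_⟩
      by_cases hkj : k = j
      · subst hkj
        simp only [sd, Function.update_of_ne hki, Function.update_self]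
        exact cl_uu _ _ hk
      · simp only [sd, Function.update_of_ne hki, Function.update_of_ne hkj]
        exact hk

theorem top_eq_bot (F : CMap N X x0) (h : ∀ i ε t, side i ε F t = x0) :
    cls (top F) = cls (bot F) := by
  symm
  refine cls_eq_of _ _ (fun p => F.F (p.2, p.1)) (F.cont.comp continuous_swap) (fun t => rfl)
    (fun t => rfl) fun s t ht => ?_
  obtain ⟨i, hi⟩ := ht
  have key : ∀ ε : Bool, t i = bI ε → F.F (t, s) = x0 := by
    intro ε hε
    have h1 := h i ε (Function.update t i s)
    have h2 : side i ε F (Function.update t i s) =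
      F.F (Function.update (Function.update t i s) i (bI ε), Function.update t i s i) := rfl
    rw [h2, Function.update_self, Function.update_idem, ← hε, Function.update_eq_self] at h1
    exact h1
  rcases hi with hi | hi
  · exact key false hi
  · exact key true hi

theorem cls_transAt [Nonempty N] (i : N) (p q : Ω^ N X x0) :
    cls (GenLoop.transAt i q p) = cls p * cls q := HomotopyGroup.mul_spec.symm

theorem cls_symmAt [Nonempty N] (i : N) (p : Ω^ N X x0) :
    cls (GenLoop.symmAt i p) = (cls p)⁻¹ := HomotopyGroup.inv_spec.symm

theorem cls_top_step [Nonempty N] (j : N) (F : CMap N X x0) : cls (top (step j F)) =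
    (cls (side j true F))⁻¹ * (cls (top F) * cls (side j false F)) := by
  rw [top_step, cls_transAt, cls_transAt, cls_symmAt]

theorem main [Nontrivial N] (J : Finset N) : ∀ F : CMap N X x0,
    (∀ i, i ∉ J → ∀ ε t, side i ε F t = x0) →
    cls (top F) = cls (bot F) * ∏ i ∈ J, (cls (side i true F) / cls (side i false F)) := by
  induction J using Finset.induction_on with
  | empty =>
    intro F h
    rw [Finset.prod_empty, mul_one]
    exact top_eq_bot F fun i => h i (Finset.notMem_empty i)
  | insert j J hj ih =>
    intro F h
    have h1 := ih (step j F) (by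
      intro i hi ε t
      by_cases hij : i = j
      · subst hij
        exact side_self_step i F ε t
      · rw [side_step_apply i j hij]
        exact h i (by simp [hij, hi]) ε _)
    rw [cls_top_step, bot_step] at h1
    have h2 : ∏ i ∈ J, (cls (side i true (step j F)) / cls (side i false (step j F))) =
        ∏ i ∈ J, (cls (side i true F) / cls (side i false F)) := by
      refine Finset.prod_congr rfl fun i hi => ?_
      have hij : i ≠ j := fun h => hj (h ▸ hi)
      rw [side_step i j hij, side_step i j hij]
    rw [h2] at h1
    rw [Finset.prod_insert hj]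
    have h3 : cls (top F) * cls (side j false F) = cls (side j true F) * (cls (bot F) *
        ∏ i ∈ J, (cls (side i true F) / cls (side i false F))) := by
      rw [← h1, mul_inv_cancel_left]
    rw [eq_mul_inv_of_mul_eq h3, div_eq_mul_inv]
    simp only [mul_comm, mul_left_comm, mul_assoc]

/-- from a cube map to the form with a separate coordinate -/
def toCMap {n : ℕ} (F : C(Fin (n + 1) → I, X)) (hF : C2 x0 F) : CMap (Fin n) X x0 where
  F p := F (Fin.cons p.2 p.1)
  cont := F.continuous.comp (continuous_pi fun j => by
    induction j using Fin.cases with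
    | zero => exact continuous_snd
    | succ j => exact (continuous_apply j).comp continuous_fst)
  h1 := by
    intro t s i j hij hi hj
    exact hF _ i.succ j.succ (fun h => hij (Fin.succ_injective _ h)) (by simpa using hi)
      (by simpa using hj)
  h2 := by
    intro t s i hi hs
    exact hF _ i.succ 0 (Fin.succ_ne_zero i) (by simpa using hi) (by simpa using hs)

theorem face_apply {n : ℕ} (F : C(Fin (n + 1) → I, X)) (hF : C2 x0 F) (i : Fin (n + 1)) (ε : Bool)
    (t : Fin n → I) : face F hF i ε t = F (i.insertNth (bI ε) t) := rfl

theorem top_toCMap {n : ℕ} (F : C(Fin (n + 1) → I, X)) (hF : C2 x0 F) :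
    top (toCMap F hF) = face F hF 0 true := by
  ext t
  rw [face_apply, Fin.insertNth_zero]
  rfl

theorem bot_toCMap {n : ℕ} (F : C(Fin (n + 1) → I, X)) (hF : C2 x0 F) :
    bot (toCMap F hF) = face F hF 0 false := by
  ext t
  rw [face_apply, Fin.insertNth_zero]
  rfl

theorem side_toCMap {n : ℕ} (F : C(Fin (n + 2) → I, X)) (hF : C2 x0 F) (i : Fin (n + 1))
    (ε : Bool) : side i ε (toCMap F hF) =
      GenLoop.congr x0 i.cycleRange.symm (face F hF i.succ ε) := by
  ext t
  have h1 : side i ε (toCMap F hF) t = F (Fin.cons (t i) (Function.update t i (bI ε))) := rfl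
  have h2 : GenLoop.congr x0 i.cycleRange.symm (face F hF i.succ ε) t =
      F (i.succ.insertNth (bI ε) fun m => t (i.cycleRange.symm m)) := rfl
  rw [h1, h2]
  congr 1
  symm
  rw [Fin.insertNth_eq_iff]
  refine ⟨by simp, ?_⟩
  funext k
  induction k using Fin.cases with
  | zero => simp [Fin.removeNth]
  | succ k => simp [Fin.removeNth, Fin.cycleRange_symm_succ, Fin.succAbove_ne]

theorem hal {n : ℕ} (F : C(Fin (n + 3) → I, X)) (hF : C2 x0 F) :
    ∏ i : Fin (n + 3), (cls (face F hF i true) / cls (face F hF i false)) ^
      ((-1 : ℤ) ^ (i : ℕ)) = 1 := by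
  have h1 := main Finset.univ (toCMap F hF) (fun i hi => absurd (Finset.mem_univ i) hi)
  rw [top_toCMap, bot_toCMap] at h1
  have h2 : ∀ (i : Fin (n + 2)) (ε : Bool), cls (side i ε (toCMap F hF)) =
      cls (face F hF i.succ ε) ^ ((-1 : ℤ) ^ (i : ℕ)) := by
    intro i ε
    rw [side_toCMap, perm, Equiv.Perm.sign_symm, Fin.sign_cycleRange]
    simp
  simp only [h2] at h1
  rw [Fin.prod_univ_succ, h1]
  simp only [Fin.val_zero, pow_zero, zpow_one, Fin.val_succ, pow_succ, mul_neg_one, zpow_neg,
    ← div_zpow]
  rw [Finset.prod_inv_distrib, mul_div_cancel_left, mul_inv_cancel]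

theorem hal1 (F : C(Fin 2 → I, X)) (hF : C2 x0 F) :
    cls (face F hF 0 true) * cls (face F hF 1 false) =
      cls (face F hF 1 true) * cls (face F hF 0 false) := by
  have h1 : cls (top (step 0 (toCMap F hF))) = cls (bot (step 0 (toCMap F hF))) :=
    top_eq_bot _ fun i ε t => by
      rw [Fin.fin_one_eq_zero i]
      exact side_self_step 0 _ ε t
  rw [cls_top_step, bot_step, top_toCMap, bot_toCMap] at h1
  have h2 : ∀ ε : Bool, side 0 ε (toCMap F hF) = face F hF 1 ε := by
    intro ε
    rw [side_toCMap]
    ext t
    have h3 : GenLoop.congr x0 (Fin.cycleRange 0).symm (face F hF (Fin.succ 0) ε) t =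
      face F hF 1 ε fun m => t ((Fin.cycleRange 0).symm m) := rfl
    rw [h3]
    congr 1
    funext m
    rw [Subsingleton.elim ((Fin.cycleRange 0).symm m) m]
  rw [h2, h2] at h1
  rw [← h1, mul_inv_cancel_left]

end Run7.h62.HAL
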