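import Pool.Agent.Run7.h62.Base

/-!
Homotopy extension into the geometric realization of a finite simplicial complex.
-/

set_option linter.unusedSectionVars false

namespace Run7.h62.HEP

open Run7.h62
open scoped unitInterval

universe u v

variable {E : Type u} [Fintype E]

open Classical in
/-- positive part outside `s` in the sup norm -/
noncomputable def mm (s : Finset E) (x : E → ℝ) : ℝ := ‖fun e => if e ∈ s then 0 else max (x e) 0‖

theorem mm_continuous (s : Finset E) : Continuous (mm s) := by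
  classical
  refine continuous_norm.comp (continuous_pi fun e => ?_)
  split_ifs
  · exact continuous_const
  · exact (continuous_apply e).max continuous_const

theorem mm_nonneg (s : Finset E) (x : E → ℝ) : 0 ≤ mm s x := norm_nonneg _

theorem le_mm (s : Finset E) (x : E → ℝ) (e : E) (he : e ∉ s) : x e ≤ mm s x := by
  classical
  have h := norm_le_pi_norm (fun e => if e ∈ s then (0 : ℝ) else max (x e) 0) e
  simp only [he, if_false] at h
  exact (le_max_left _ _).trans ((le_abs_self _).trans h)

theorem mm_eq_zero (s : Finset E) (x : E → ℝ) (h : ∀ e, x e ≠ 0 → e ∈ s) : mm s x = 0 := by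
  classical
  unfold mm
  rw [norm_eq_zero]
  funext e
  by_cases he : e ∈ s
  · simp [he]
  · have : x e = 0 := by by_contra hne; exact he (h e hne)
    simp [he, this]

open Classical in
/-- members of `K` as a finset -/
noncomputable def Ks (K : Set (Finset E)) : Finset (Finset E) := Finset.univ.filter (· ∈ K)

/-- the threshold -/
noncomputable def tt (K : Set (Finset E)) (hne : (Ks K).Nonempty) (x : E → ℝ) : ℝ :=
  (Ks K).inf' hne fun s => mm s x

theorem tt_continuous (K : Set (Finset E)) (hne : (Ks K).Nonempty) : Continuous (tt K hne) :=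
  Continuous.finset_inf'_apply hne fun s _ => mm_continuous s

theorem tt_eq_zero (K : Set (Finset E)) (hne : (Ks K).Nonempty) (x : E → ℝ) (hx : x ∈ Geo K) :
    tt K hne x = 0 := by
  obtain ⟨_, _, s, hs, hxs⟩ := hx
  apply le_antisymm
  · rw [← mm_eq_zero s x hxs]
    exact Finset.inf'_le _ (by simp [Ks, hs])
  · exact Finset.le_inf' _ _ fun s _ => mm_nonneg s x

/-- the cut off vector -/
noncomputable def cut (K : Set (Finset E)) (hne : (Ks K).Nonempty) (x : E → ℝ) (e : E) : ℝ :=
  max (x e - tt K hne x) 0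

theorem cut_continuous (K : Set (Finset E)) (hne : (Ks K).Nonempty) (e : E) :
    Continuous fun x => cut K hne x e :=
  ((continuous_apply e).sub (tt_continuous K hne)).max continuous_const

/-- total mass -/
noncomputable def sg (K : Set (Finset E)) (hne : (Ks K).Nonempty) (x : E → ℝ) : ℝ :=
  ∑ e, cut K hne x e

theorem sg_continuous (K : Set (Finset E)) (hne : (Ks K).Nonempty) : Continuous (sg K hne) :=
  continuous_finsetSum _ fun e _ => cut_continuous K hne e

theorem cut_of_mem (K : Set (Finset E)) (hne : (Ks K).Nonempty) (x : E → ℝ) (hx : x ∈ Geo K)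
    (e : E) : cut K hne x e = x e := by
  rw [cut, tt_eq_zero K hne x hx, sub_zero]
  exact max_eq_left (hx.1 e)

theorem sg_of_mem (K : Set (Finset E)) (hne : (Ks K).Nonempty) (x : E → ℝ) (hx : x ∈ Geo K) :
    sg K hne x = 1 := by
  rw [sg, Finset.sum_congr rfl fun e _ => cut_of_mem K hne x hx e]
  exact hx.2.1

theorem ret_mem (K : Set (Finset E)) (hne : (Ks K).Nonempty) (x : E → ℝ)
    (hx : 0 < sg K hne x) : (fun e => cut K hne x e / sg K hne x) ∈ Geo K := by
  refine ⟨fun e => div_nonneg (le_max_right _ _) hx.le, ?_, ?_⟩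
  · rw [← Finset.sum_div]
    exact div_self hx.ne'
  · obtain ⟨s, hs, hst⟩ := Finset.exists_mem_eq_inf' hne fun s => mm s x
    refine ⟨s, by simpa [Ks] using hs, fun e he => ?_⟩
    by_contra hes
    apply he
    have h1 : x e - tt K hne x ≤ 0 := by
      rw [tt, hst]
      linarith [le_mm s x e hes]
    show max (x e - tt K hne x) 0 / sg K hne x = 0
    rw [max_eq_right h1, zero_div]

theorem hep (K : Set (Finset E)) (_ : IsLowerSet K)
    {Y : Type v} [TopologicalSpace Y] [CompactSpace Y] [T2Space Y] (A : Set Y) (hA : IsClosed A)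
    (f : C(Y, Geo K)) (h : C(A × I, Geo K)) (h0 : ∀ a : A, h (a, 0) = f a) :
    ∃ H : C(Y × I, Geo K), (∀ y, H (y, 0) = f y) ∧ ∀ (a : A) (t : I), H (a, t) = h (a, t) := by
  classical
  rcases isEmpty_or_nonempty Y with hY | ⟨⟨y0⟩⟩
  · exact ⟨⟨fun p => (hY.false p.1).elim, continuous_of_const fun p => (hY.false p.1).elim⟩,
      fun y => (hY.false y).elim, fun a => (hY.false a.1).elim⟩
  have hne : (Ks K).Nonempty := by
    obtain ⟨_, _, s, hs, _⟩ := (f y0).2
    exact ⟨s, by simp [Ks, hs]⟩
  -- the partial map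
  let Φ : Y × I → (E → ℝ) := fun p =>
    if hp : p.1 ∈ A then (h (⟨p.1, hp⟩, p.2) : E → ℝ) else (f p.1 : E → ℝ)
  have hΦA : ∀ (a : A) (t : I), Φ (a, t) = h (a, t) := fun a t => by simp [Φ]
  have hΦ0 : ∀ y : Y, Φ (y, 0) = f y := fun y => by
    by_cases hy : y ∈ A
    · rw [← h0 ⟨y, hy⟩]
      simp [Φ, hy]
    · simp [Φ, hy]
  let B1 : Set (Y × I) := A ×ˢ Set.univ
  let B2 : Set (Y × I) := Set.univ ×ˢ {0}
  have hB1 : IsClosed B1 := hA.prod isClosed_univ
  have hB2 : IsClosed B2 := isClosed_univ.prod isClosed_singleton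
  have hc1 : ContinuousOn Φ B1 := by
    rw [continuousOn_iff_continuous_domRestrict]
    have h1 : Continuous fun p : B1 => ((h (⟨p.1.1, p.2.1⟩, p.1.2) : Geo K) : E → ℝ) := by
      refine continuous_subtype_val.comp (h.continuous.comp (Continuous.prodMk ?_ ?_))
      · exact Continuous.subtype_mk (continuous_fst.comp continuous_subtype_val) _
      · exact continuous_snd.comp continuous_subtype_val
    refine h1.congr fun p => ?_
    have hp : p.1.1 ∈ A := p.2.1
    simp [Φ, hp]
  have hc2 : ContinuousOn Φ B2 := by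
    rw [continuousOn_iff_continuous_domRestrict]
    have h1 : Continuous fun p : B2 => ((f p.1.1 : Geo K) : E → ℝ) :=
      continuous_subtype_val.comp (f.continuous.comp (continuous_fst.comp continuous_subtype_val))
    refine h1.congr fun p => ?_
    obtain ⟨⟨y, t⟩, _, ht⟩ := p
    have ht' : t = 0 := ht
    subst ht'
    exact (hΦ0 y).symm
  have hc : ContinuousOn Φ (B1 ∪ B2) := hc1.union_of_isClosed hc2 hB1 hB2
  obtain ⟨G, hG⟩ := ContinuousMap.exists_restrict_eq (hB1.union hB2)
    (⟨(B1 ∪ B2).domRestrict Φ, continuousOn_iff_continuous_domRestrict.1 hc⟩ : C(↥(B1 ∪ B2), E → ℝ))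
  have hGΦ : ∀ p ∈ B1 ∪ B2, G p = Φ p := fun p hp =>
    DFunLike.congr_fun hG (⟨p, hp⟩ : ↥(B1 ∪ B2))
  have hGA : ∀ (a : A) (t : I), G (a, t) = h (a, t) := fun a t => by
    have hm : ((a : Y), t) ∈ B1 ∪ B2 := Or.inl ⟨a.2, Set.mem_univ _⟩
    rw [hGΦ _ hm, hΦA]
  have hG0 : ∀ y : Y, G (y, 0) = f y := fun y => by
    have hm : (y, (0 : I)) ∈ B1 ∪ B2 := Or.inr ⟨Set.mem_univ _, Set.mem_singleton _⟩
    rw [hGΦ _ hm, hΦ0]
  -- bad set
  let bad : Set (Y × I) := {p | sg K hne (G p) ≤ 0}
  have hbad : IsClosed bad := isClosed_le ((sg_continuous K hne).comp G.continuous)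
    continuous_const
  let C : Set Y := Prod.fst '' bad
  have hC : IsClosed C := (hbad.isCompact.image continuous_fst).isClosed
  have hdisj : Disjoint C A := by
    rw [Set.disjoint_left]
    rintro _ ⟨⟨y, t⟩, hp, rfl⟩ hy
    have h1 : sg K hne (G (y, t)) ≤ 0 := hp
    have h2 := hGA ⟨y, hy⟩ t
    simp only at h2
    rw [h2, sg_of_mem K hne _ (h _).2] at h1
    linarith
  obtain ⟨w, hw0, hw1, hw⟩ := exists_continuous_zero_one_of_isClosed hC hA hdisj
  let c : Y × I → Y × I := fun p => (p.1, ⟨w p.1 * p.2, mul_nonneg (hw _).1 p.2.2.1,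
    mul_le_one₀ (hw _).2 p.2.2.1 p.2.2.2⟩)
  have hcc : Continuous c := by
    refine continuous_fst.prodMk (Continuous.subtype_mk ?_ _)
    exact (w.continuous.comp continuous_fst).mul (continuous_subtype_val.comp continuous_snd)
  have hpos : ∀ p, 0 < sg K hne (G (c p)) := by
    rintro ⟨y, t⟩
    by_cases hy : y ∈ C
    · have h1 : c (y, t) = (y, 0) := by
        have : w y = 0 := hw0 hy
        simp only [c, this, zero_mul]
        rfl
      rw [h1, hG0, sg_of_mem K hne _ (f _).2]
      norm_num
    · by_contra hcon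
      exact hy ⟨c (y, t), not_lt.1 hcon, rfl⟩
  have hHc : Continuous fun p : Y × I => (fun e => cut K hne (G (c p)) e / sg K hne (G (c p))) :=
    continuous_pi fun e => ((cut_continuous K hne e).comp (G.continuous.comp hcc)).div
      ((sg_continuous K hne).comp (G.continuous.comp hcc)) fun p => (hpos p).ne'
  refine ⟨⟨fun p => ⟨_, ret_mem K hne (G (c p)) (hpos p)⟩, hHc.subtype_mk _⟩, fun y => ?_,
    fun a t => ?_⟩
  · have h1 : c (y, 0) = (y, 0) := by
      simp only [c, Set.Icc.coe_zero, mul_zero]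
      rfl
    apply Subtype.ext
    funext e
    simp only [ContinuousMap.coe_mk, h1, hG0]
    rw [sg_of_mem K hne _ (f y).2, cut_of_mem K hne _ (f y).2, div_one]
  · have h1 : c ((a : Y), t) = ((a : Y), t) := by
      have : w a = 1 := hw1 a.2
      simp only [c, this, one_mul]
    apply Subtype.ext
    funext e
    simp only [ContinuousMap.coe_mk, h1, hGA]
    rw [sg_of_mem K hne _ (h (a, t)).2, cut_of_mem K hne _ (h (a, t)).2, div_one]

end Run7.h62.HEP
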