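import Pool.Agent.Run7.h62.Base

/-!
Null-homotopic maps on the boundary of a cube extend: passage to round spheres and balls.
-/

set_option linter.unusedSectionVars false

namespace Run7.h62.SPHERE

open Run7.h62 Topology
open scoped unitInterval

universe u

/-- the cube in Euclidean space -/
def cubeE (n : ℕ) : Set (EuclideanSpace ℝ (Fin n)) :=
  (EuclideanSpace.equiv (Fin n) ℝ) ⁻¹' (Set.univ.pi fun _ => Set.Icc (0 : ℝ) 1)

theorem frontier_cube (n : ℕ) :
    frontier (Set.univ.pi fun _ : Fin n => Set.Icc (0 : ℝ) 1) = cubeBd n := by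
  have hcl : IsClosed (Set.univ.pi fun _ : Fin n => Set.Icc (0 : ℝ) 1) :=
    isClosed_set_pi fun _ _ => isClosed_Icc
  rw [hcl.frontier_eq, interior_pi_set Set.finite_univ]
  simp only [interior_Icc]
  ext x
  simp only [Set.mem_sdiff, Set.mem_pi, Set.mem_univ, true_imp_iff, cubeBd]
  constructor
  · rintro ⟨h1, h2⟩
    refine ⟨h1, ?_⟩
    by_contra hcon
    push Not at hcon
    exact h2 fun i => ⟨lt_of_le_of_ne (h1 i).1 (hcon i).1.symm, lt_of_le_of_ne (h1 i).2 (hcon i).2⟩
  · rintro ⟨h1, i, hi⟩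
    refine ⟨h1, fun h2 => ?_⟩
    rcases hi with hi | hi
    · exact (h2 i).1.ne' hi
    · exact (h2 i).2.ne hi

theorem exists_homeo (n : ℕ) : ∃ (a : Metric.sphere (0 : EuclideanSpace ℝ (Fin n)) 1 → cubeBd n)
    (b : cubeBd n → Metric.sphere (0 : EuclideanSpace ℝ (Fin n)) 1), Continuous a ∧ Continuous b ∧
      ∀ x, b (a x) = x := by
  let e := (EuclideanSpace.equiv (Fin n) ℝ).toHomeomorph
  have hs : cubeE n = e ⁻¹' (Set.univ.pi fun _ => Set.Icc (0 : ℝ) 1) := rfl
  have hc : Convex ℝ (cubeE n) := by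
    have h1 : Convex ℝ (Set.univ.pi fun _ : Fin n => Set.Icc (0 : ℝ) 1) :=
      convex_pi fun _ _ => convex_Icc 0 1
    exact h1.linear_preimage (EuclideanSpace.equiv (Fin n) ℝ).toLinearEquiv.toLinearMap
  have hne : (interior (cubeE n)).Nonempty := by
    rw [hs, ← e.preimage_interior, interior_pi_set Set.finite_univ]
    simp only [interior_Icc]
    refine ⟨e.symm fun _ => 1 / 2, ?_⟩
    rw [Set.mem_preimage, e.apply_symm_apply]
    intro i _
    norm_num
  have hb : Bornology.IsBounded (cubeE n) := by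
    have h1 : IsCompact (Set.univ.pi fun _ : Fin n => Set.Icc (0 : ℝ) 1) :=
      isCompact_univ_pi fun _ => isCompact_Icc
    have h2 : IsCompact (cubeE n) := by
      rw [hs]
      exact e.isCompact_preimage.2 h1
    exact h2.isBounded
  obtain ⟨h, _, _, hfr⟩ := exists_homeomorph_image_interior_closure_frontier_eq_unitBall hc hne hb
  have hfs : frontier (cubeE n) = e ⁻¹' cubeBd n := by
    rw [hs, ← e.preimage_frontier, frontier_cube]
  have ha : ∀ x : Metric.sphere (0 : EuclideanSpace ℝ (Fin n)) 1, e (h.symm x) ∈ cubeBd n := by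
    rintro ⟨x, hx⟩
    rw [← hfr] at hx
    obtain ⟨y, hy, rfl⟩ := hx
    rw [hfs] at hy
    simpa using hy
  have hb' : ∀ y : cubeBd n, h (e.symm y) ∈ Metric.sphere (0 : EuclideanSpace ℝ (Fin n)) 1 := by
    rintro ⟨y, hy⟩
    rw [← hfr]
    refine ⟨e.symm y, ?_, rfl⟩
    rw [hfs, Set.mem_preimage, e.apply_symm_apply]
    exact hy
  refine ⟨fun x => ⟨_, ha x⟩, fun y => ⟨_, hb' y⟩, ?_, ?_, ?_⟩
  · exact (e.continuous.comp (h.symm.continuous.comp continuous_subtype_val)).subtype_mk _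
  · exact (h.continuous.comp (e.symm.continuous.comp continuous_subtype_val)).subtype_mk _
  · intro x
    apply Subtype.ext
    simp

theorem ext_of_null {X : Type u} [TopologicalSpace X] (n : ℕ) (hn : 0 < n)
    (h : ∀ f : C(cubeBd n, X), ∃ x0 : X, f.Homotopic (ContinuousMap.const _ x0)) :
    ExtSphere X n := by
  obtain ⟨a, b, ha, hb, hab⟩ := exists_homeo n
  intro f
  obtain ⟨x0, ⟨H⟩⟩ := h (f.comp ⟨b, hb⟩)
  let π : Metric.sphere (0 : EuclideanSpace ℝ (Fin n)) 1 × I →
      Metric.closedBall (0 : EuclideanSpace ℝ (Fin n)) 1 := fun p =>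
    ⟨(1 - (p.2 : ℝ)) • (p.1 : EuclideanSpace ℝ (Fin n)), by
      rw [mem_closedBall_zero_iff, norm_smul, norm_eq_of_mem_sphere, mul_one, Real.norm_eq_abs,
        abs_le]
      constructor <;> linarith [p.2.2.1, p.2.2.2]⟩
  have hπ : Continuous π := by
    refine Continuous.subtype_mk ?_ _
    exact (continuous_const.sub (continuous_subtype_val.comp continuous_snd)).smul
      (continuous_subtype_val.comp continuous_fst)
  have hnorm : ∀ p, ‖(π p : EuclideanSpace ℝ (Fin n))‖ = 1 - (p.2 : ℝ) := by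
    intro p
    show ‖(1 - (p.2 : ℝ)) • (p.1 : EuclideanSpace ℝ (Fin n))‖ = _
    rw [norm_smul, norm_eq_of_mem_sphere, mul_one, Real.norm_eq_abs, abs_of_nonneg]
    linarith [p.2.2.2]
  have hsurj : Function.Surjective π := by
    rintro ⟨y, hy⟩
    rw [mem_closedBall_zero_iff] at hy
    by_cases hy0 : y = 0
    · let x : cubeBd n := ⟨fun _ => 0, fun i => by simp, ⟨0, hn⟩, Or.inl rfl⟩
      refine ⟨(b x, 1), ?_⟩
      apply Subtype.ext
      simp [π, hy0]
    · have hy1 : 0 < ‖y‖ := norm_pos_iff.2 hy0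
      refine ⟨(⟨‖y‖⁻¹ • y, ?_⟩, ⟨1 - ‖y‖, by linarith, by linarith⟩), ?_⟩
      · rw [mem_sphere_zero_iff_norm, norm_smul, norm_inv, norm_norm, inv_mul_cancel₀ hy1.ne']
      · apply Subtype.ext
        simp only [π]
        rw [smul_smul, sub_sub_cancel, mul_inv_cancel₀ hy1.ne', one_smul]
  let k : Metric.sphere (0 : EuclideanSpace ℝ (Fin n)) 1 × I → X := fun p => H (p.2, a p.1)
  have hk : Continuous k := H.continuous.comp (continuous_snd.prodMk (ha.comp continuous_fst))
  have hk0 : ∀ x, k (x, 0) = f x := by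
    intro x
    show H (0, a x) = f x
    rw [H.apply_zero]
    show f (b (a x)) = f x
    rw [hab]
  have hk1 : ∀ x, k (x, 1) = x0 := by
    intro x
    show H (1, a x) = x0
    rw [H.apply_one]
    rfl
  have hq : IsQuotientMap (⟨π, hπ⟩ : C(_, _)) := IsQuotientMap.of_surjective_continuous hsurj hπ
  have hfac : Function.FactorsThrough k π := by
    rintro ⟨x, t⟩ ⟨x', t'⟩ hxt
    have h1 : t = t' := by
      have h2 := hnorm (x, t)
      rw [hxt, hnorm] at h2
      apply Subtype.ext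
      simp only at h2
      linarith
    subst h1
    by_cases ht : (1 : ℝ) - t = 0
    · have : t = 1 := by
        apply Subtype.ext
        rw [Set.Icc.coe_one]
        linarith
      rw [this, hk1, hk1]
    · have h3 : (1 - (t : ℝ)) • (x : EuclideanSpace ℝ (Fin n)) = (1 - (t : ℝ)) • x' :=
        congrArg Subtype.val hxt
      have h4 := smul_right_injective _ ht h3
      rw [Subtype.ext h4]
  refine ⟨hq.lift ⟨k, hk⟩ hfac, fun x => ?_⟩
  have h5 : hq.lift ⟨k, hk⟩ hfac (π (x, 0)) = k (x, 0) :=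
    DFunLike.congr_fun (hq.lift_comp ⟨k, hk⟩ hfac) (x, 0)
  have h6 : π (x, 0) = ⟨x.1, Metric.sphere_subset_closedBall x.2⟩ := by
    apply Subtype.ext
    simp [π]
  rw [← h6, h5, hk0]

end Run7.h62.SPHERE
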