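import Pool.Agent.Run7.h62.PGLUE
import Pool.Agent.Run7.h62.PHEP
import Pool.Agent.Run7.h62.PHAL
import Pool.Agent.Run7.h62.PAPPROX
import Pool.Agent.Run7.h62.PSPHERE

/-!
Obstruction theory: from vanishing of cochain cohomology of a finite simplicial complex to
null-homotopies of its skeleta.
-/

set_option linter.unusedSectionVars false

namespace Run7.h62.MAIN

open Run7.h62 Run7.h62.QMAP Run7.h62.GLUE Run7.h62.HEP Run7.h62.HAL Run7.h62.PERM Topology
open scoped unitInterval Topology.Homotopy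

universe u v w

variable {E : Type u} [Fintype E] {K : Set (Finset E)} {X : Type v} [TopologicalSpace X]
  {x0 : X}

/-- the entries lie in a member of `K` -/
def In (K : Set (Finset E)) {n : ℕ} (v : Fin n → E) : Prop := ∃ s ∈ K, ∀ i, v i ∈ s

theorem In.comp {n m : ℕ} {v : Fin n → E} (hv : In K v) (g : Fin m → Fin n) : In K (v ∘ g) := by
  obtain ⟨s, hs, h⟩ := hv
  exact ⟨s, hs, fun i => h (g i)⟩

/-- `Q` as a continuous map to the realization -/
noncomputable def QK (hK : IsLowerSet K) {n : ℕ} (v : Fin (n + 1) → E) (hv : In K v) :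
    C(Fin n → I, Geo K) :=
  ⟨fun t => ⟨Q n v t, Q_mem K hK n v hv t⟩, (Q_continuous n v).subtype_mk _⟩

theorem QK_val (hK : IsLowerSet K) {n : ℕ} (v : Fin (n + 1) → E) (hv : In K v) (t : Fin n → I) :
    (QK hK v hv t : E → ℝ) = Q n v t := rfl

/-- the loop of a simplex -/
noncomputable def loopOf (hK : IsLowerSet K) {n : ℕ} (ψ : C(Geo K, X))
    (hψ : ∀ y : Geo K, (y : E → ℝ) ∈ Geo (skel K n) → ψ y = x0) (v : Fin (n + 1) → E)
    (hv : In K v) : Ω^ (Fin n) X x0 :=
  ⟨ψ.comp (QK hK v hv), fun t ht => hψ _ (Q_boundary K hK n v hv t ht)⟩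

theorem loopOf_apply (hK : IsLowerSet K) {n : ℕ} (ψ : C(Geo K, X))
    (hψ : ∀ y : Geo K, (y : E → ℝ) ∈ Geo (skel K n) → ψ y = x0) (v : Fin (n + 1) → E)
    (hv : In K v) (t : Fin n → I) : loopOf hK ψ hψ v hv t = ψ (QK hK v hv t) := rfl

theorem cubeW_C2 (hK : IsLowerSet K) {n : ℕ} (ψ : C(Geo K, X))
    (hψ : ∀ y : Geo K, (y : E → ℝ) ∈ Geo (skel K n) → ψ y = x0) (w : Fin (n + 2) → E)
    (hw : In K w) : C2 x0 (ψ.comp (QK hK w hw)) :=
  fun t i j hij hi hj => hψ _ (Q_codim_two K hK n w hw t i j hij hi hj)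

section faces

variable (hK : IsLowerSet K) {n : ℕ} (ψ : C(Geo K, X))
  (hψ : ∀ y : Geo K, (y : E → ℝ) ∈ Geo (skel K n) → ψ y = x0) (w : Fin (n + 2) → E)
  (hw : In K w)

theorem face_one (i : Fin (n + 1)) : face _ (cubeW_C2 hK ψ hψ w hw) i true =
    loopOf hK ψ hψ (w ∘ i.castSucc.succAbove) (hw.comp _) := by
  refine GenLoop.ext _ _ fun t => ?_
  rw [face_apply, loopOf_apply]
  show ψ _ = ψ _
  congr 1
  apply Subtype.ext
  rw [QK_val, QK_val]
  exact Q_face_one n w i t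

theorem face_last : face _ (cubeW_C2 hK ψ hψ w hw) (Fin.last n) false =
    loopOf hK ψ hψ (w ∘ (Fin.last (n + 1)).succAbove) (hw.comp _) := by
  refine GenLoop.ext _ _ fun t => ?_
  rw [face_apply, loopOf_apply]
  show ψ _ = ψ _
  congr 1
  apply Subtype.ext
  rw [QK_val, QK_val]
  exact Q_face_last n w t

theorem face_zero (i : Fin (n + 1)) (hi : i ≠ Fin.last n) :
    face _ (cubeW_C2 hK ψ hψ w hw) i false = GenLoop.const := by
  refine GenLoop.ext _ _ fun t => ?_
  rw [face_apply]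
  exact hψ _ (Q_face_zero K hK n w hw i hi t)

end faces

theorem cls_const {N : Type} [DecidableEq N] [Nonempty N] :
    cls (GenLoop.const : Ω^ N X x0) = 1 := rfl

/-- the inclusion of a skeleton -/
def inc (K : Set (Finset E)) (m : ℕ) : C(Geo (skel K m), Geo K) :=
  ⟨fun x => ⟨x.1, Geo_mono (skel_subset K m) x.2⟩, continuous_subtype_val.subtype_mk _⟩

/-- the inclusion of a skeleton is null-homotopic -/
def PN (K : Set (Finset E)) (m : ℕ) : Prop :=
  ∃ x0 : Geo K, (inc K m).Homotopic (ContinuousMap.const _ x0)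

/-- the points over a skeleton form a closed set -/
theorem isClosed_A (K : Set (Finset E)) (n : ℕ) :
    IsClosed {y : Geo K | (y : E → ℝ) ∈ Geo (skel K n)} :=
  (isCompact_Geo (skel K n)).isClosed.preimage continuous_subtype_val

theorem exists_psi (hK : IsLowerSet K) {n : ℕ} (h : PN K n) :
    ∃ (x0 : Geo K) (ψ : C(Geo K, Geo K)),
      (∀ y : Geo K, (y : E → ℝ) ∈ Geo (skel K n) → ψ y = x0) ∧
        (ContinuousMap.id (Geo K)).Homotopic ψ := by
  obtain ⟨x0, ⟨H⟩⟩ := h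
  let A : Set (Geo K) := {y : Geo K | (y : E → ℝ) ∈ Geo (skel K n)}
  obtain ⟨Ψ, h1, h2⟩ := hep K hK A (isClosed_A K n) (ContinuousMap.id (Geo K))
    ⟨fun p : A × I => H (p.2, (⟨p.1.1.1, p.1.2⟩ : Geo (skel K n))),
      H.continuous.comp (continuous_snd.prodMk
        ((continuous_subtype_val.comp (continuous_subtype_val.comp continuous_fst)).subtype_mk _))⟩
    (fun a => H.apply_zero _)
  refine ⟨x0, ⟨fun y => Ψ (y, 1), Ψ.continuous.comp (continuous_id.prodMk continuous_const)⟩,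
    fun y hy => ?_, ⟨⟨⟨fun p => Ψ (p.2, p.1), Ψ.continuous.comp continuous_swap⟩, fun y => h1 y,
      fun y => rfl⟩⟩⟩
  exact (h2 ⟨y, hy⟩ 1).trans (H.apply_one _)

section sorted

variable [LinearOrder E]

/-- increasing enumeration, with a junk value -/
noncomputable def enum (e0 : E) (k : ℕ) (s : Finset E) : Fin k → E :=
  if h : s.card = k then s.orderEmbOfFin h else fun _ => e0

theorem enum_spec (e0 : E) {k : ℕ} {s : Finset E} (hs : s.card = k) :
    StrictMono (enum e0 k s) ∧ ∀ e, e ∈ s ↔ e ∈ Set.range (enum e0 k s) := by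
  have h : enum e0 k s = s.orderEmbOfFin hs := by simp [enum, hs]
  rw [h]
  refine ⟨(s.orderEmbOfFin hs).strictMono, fun e => ?_⟩
  rw [Finset.range_orderEmbOfFin]
  rfl

theorem card_rg_of_strictMono {k : ℕ} {v : Fin k → E} (hv : StrictMono v) : (rg v).card = k := by
  unfold rg
  rw [Finset.card_image_of_injective _ hv.injective]
  simp

theorem enum_rg (e0 : E) {k : ℕ} {v : Fin k → E} (hv : StrictMono v) : enum e0 k (rg v) = v := by
  have hc := card_rg_of_strictMono hv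
  have h : enum e0 k (rg v) = (rg v).orderEmbOfFin hc := by simp [enum, hc]
  rw [h]
  exact (Finset.orderEmbOfFin_unique hc (fun x => Finset.mem_image_of_mem v (Finset.mem_univ x))
    hv).symm

theorem rg_mem (hK : IsLowerSet K) {k : ℕ} {v : Fin k → E} (hv : In K v) : rg v ∈ K := by
  obtain ⟨s, hs, h⟩ := hv
  refine hK ?_ hs
  intro e he
  obtain ⟨i, _, rfl⟩ := Finset.mem_image.1 he
  exact h i

theorem cover (e0 : E) (m : ℕ) (x : E → ℝ) (hx : x ∈ Geo (skel K (m + 1))) :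
    x ∈ Geo (skel K m) ∨ ∃ s ∈ K, s.card = m + 1 ∧ ∃ t, x = Q m (enum e0 (m + 1) s) t := by
  obtain ⟨hx1, hx2, s, hs, hxs⟩ := hx
  by_cases hc : s.card ≤ m
  · exact Or.inl ⟨hx1, hx2, s, ⟨hs.1, hc⟩, hxs⟩
  · have hsc : s.card = m + 1 := le_antisymm hs.2 (by omega)
    obtain ⟨h1, h2⟩ := enum_spec e0 hsc
    obtain ⟨t, ht⟩ := Q_surj m (enum e0 (m + 1) s) h1.injective x hx1 hx2 fun e he =>
      (h2 e).1 (hxs e he)
    exact Or.inr ⟨s, hs.1, hsc, t, ht.symm⟩

/-- modification of a map by a cochain -/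
theorem modify (hK : IsLowerSet K) (m : ℕ) {x0 : Geo K} (ψ : C(Geo K, Geo K))
    (hψ : ∀ y : Geo K, (y : E → ℝ) ∈ Geo (skel K (m + 1)) → ψ y = x0)
    (β : (Fin (m + 1) → E) → HomotopyGroup (Fin (m + 1)) (Geo K) x0) :
    ∃ (ψ' : C(Geo K, Geo K)) (hψ' : ∀ y : Geo K, (y : E → ℝ) ∈ Geo (skel K (m + 1)) → ψ' y = x0),
      ψ.Homotopic ψ' ∧ ∀ (v : Fin (m + 2) → E) (hv : In K v), StrictMono v →
        ∃ (F : C(Fin (m + 2) → I, Geo K)) (hF : C2 x0 F),
          cls (face F hF 0 false) = cls (loopOf hK ψ hψ v hv) ∧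
          cls (face F hF 0 true) = cls (loopOf hK ψ' hψ' v hv) ∧
          (∀ i : Fin (m + 1), cls (face F hF i.succ true) = β (v ∘ i.castSucc.succAbove)) ∧
          cls (face F hF (Fin.last m).succ false) = β (v ∘ (Fin.last (m + 1)).succAbove) ∧
          ∀ i : Fin (m + 1), i ≠ Fin.last m → cls (face F hF i.succ false) = 1 := by
  obtain ⟨e0, -⟩ : ∃ e, (x0 : E → ℝ) e ≠ 0 := by
    by_contra hcon
    push Not at hcon
    have h := x0.2.2.1
    rw [Finset.sum_eq_zero fun e _ => hcon e] at h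
    exact zero_ne_one h
  have hrep : ∀ s : Finset E, ∃ p : Ω^ (Fin (m + 1)) (Geo K) x0,
      cls p = β (enum e0 (m + 1) s) := fun s => Quotient.exists_rep _
  choose B hB using hrep
  have hcons : Continuous fun p : (Fin m → I) × I => (Fin.cons p.2 p.1 : Fin (m + 1) → I) :=
    continuous_pi fun j => by
      induction j using Fin.cases with
      | zero => exact continuous_snd
      | succ j => exact (continuous_apply j).comp continuous_fst
  obtain ⟨G, hG1, hG2⟩ := glue K hK m x0 (enum e0 (m + 1))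
    (fun s _ hsc => ⟨(enum_spec e0 hsc).1.injective, (enum_spec e0 hsc).2⟩)
    (fun s => (B s).1.comp ⟨_, hcons⟩) (by
      rintro s _ _ t ⟨i, hi⟩ r
      exact (B s).2 _ ⟨i.succ, by simpa using hi⟩)
  have hG0 : ∀ (x : Geo (skel K (m + 1))) (r : I), (r = 0 ∨ r = 1) → G (x, r) = x0 := by
    intro x r hr
    rcases cover e0 m x.1 x.2 with h | ⟨s, hs, hsc, t, ht⟩
    · exact hG1 x r h
    · rw [hG2 s hs hsc t x r ht]
      exact (B s).2 _ ⟨0, by simpa using hr⟩
  let A : Set (Geo K) := {y : Geo K | (y : E → ℝ) ∈ Geo (skel K (m + 1))}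
  obtain ⟨Ψ, h1, h2⟩ := hep K hK A (isClosed_A K (m + 1)) ψ
    ⟨fun p : A × I => G ((⟨p.1.1.1, p.1.2⟩ : Geo (skel K (m + 1))), p.2),
      G.continuous.comp (Continuous.prodMk
        ((continuous_subtype_val.comp (continuous_subtype_val.comp continuous_fst)).subtype_mk _)
        continuous_snd)⟩
    (fun a => (hG0 _ 0 (Or.inl rfl)).trans (hψ a.1 a.2).symm)
  have hΨ : ∀ (y : Geo K) (hy : (y : E → ℝ) ∈ Geo (skel K (m + 1))) (r : I),
      Ψ (y, r) = G (⟨y.1, hy⟩, r) := fun y hy r => h2 ⟨y, hy⟩ r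
  let ψ' : C(Geo K, Geo K) :=
    ⟨fun y => Ψ (y, 1), Ψ.continuous.comp (continuous_id.prodMk continuous_const)⟩
  have hψ' : ∀ y : Geo K, (y : E → ℝ) ∈ Geo (skel K (m + 1)) → ψ' y = x0 := fun y hy =>
    (hΨ y hy 1).trans (hG0 _ 1 (Or.inr rfl))
  refine ⟨ψ', hψ', ⟨⟨⟨fun p => Ψ (p.2, p.1), Ψ.continuous.comp continuous_swap⟩, fun y => h1 y,
      fun y => rfl⟩⟩, fun v hv hmono => ?_⟩
  let F : C(Fin (m + 2) → I, Geo K) := ⟨fun τ => Ψ (QK hK v hv (Fin.tail τ), τ 0),
    Ψ.continuous.comp (Continuous.prodMk ((QK hK v hv).continuous.comp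
      (continuous_pi fun i => continuous_apply _)) (continuous_apply 0))⟩
  have hFa : ∀ τ, F τ = Ψ (QK hK v hv (Fin.tail τ), τ 0) := fun τ => rfl
  have hbd : ∀ τ : Fin (m + 2) → I, (∃ i : Fin (m + 1), τ i.succ = 0 ∨ τ i.succ = 1) →
      (τ 0 = 0 ∨ τ 0 = 1) → F τ = x0 := by
    rintro τ ⟨i, hi⟩ h0
    have hy : (QK hK v hv (Fin.tail τ) : E → ℝ) ∈ Geo (skel K (m + 1)) :=
      Q_boundary K hK (m + 1) v hv _ ⟨i, hi⟩
    rw [hFa, hΨ _ hy]
    exact hG0 _ _ h0
  have hF : C2 x0 F := by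
    intro τ i j hij hi hj
    induction i using Fin.cases with
    | zero =>
      induction j using Fin.cases with
      | zero => exact absurd rfl hij
      | succ j => exact hbd τ ⟨j, hj⟩ hi
    | succ i =>
      induction j using Fin.cases with
      | zero => exact hbd τ ⟨i, hi⟩ hj
      | succ j =>
        have hy : (QK hK v hv (Fin.tail τ) : E → ℝ) ∈ Geo (skel K (m + 1)) :=
          Q_boundary K hK (m + 1) v hv _ ⟨i, hi⟩
        have hy' : (QK hK v hv (Fin.tail τ) : E → ℝ) ∈ Geo (skel K m) :=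
          Q_codim_two K hK m v hv _ i j (fun h => hij (by rw [h])) hi hj
        rw [hFa, hΨ _ hy]
        exact hG1 _ _ hy'
  -- a face with the remaining vertices v'
  have hBface : ∀ (v' : Fin (m + 1) → E), In K v' → StrictMono v' → ∀ (t : Fin (m + 1) → I)
      (y : Geo K), (y : E → ℝ) = Q m v' (Fin.tail t) → Ψ (y, t 0) = B (rg v') t := by
    intro v' hv' hm' t y hy
    have hmem := rg_mem hK hv'
    have hcard := card_rg_of_strictMono hm'
    have hy' : (y : E → ℝ) ∈ Geo (skel K (m + 1)) := by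
      rw [hy]
      have hlow : IsLowerSet (skel K (m + 1)) := fun a b hba ha =>
        (⟨hK hba ha.1, (Finset.card_le_card hba).trans ha.2⟩ : b ∈ K ∧ b.card ≤ m + 1)
      exact Q_mem _ hlow m v' ⟨rg v', ⟨hmem, hcard.le⟩, fun i =>
        Finset.mem_image_of_mem v' (Finset.mem_univ i)⟩ _
    rw [hΨ y hy', hG2 (rg v') hmem hcard (Fin.tail t) _ (t 0) (by rw [enum_rg e0 hm']; exact hy)]
    show B (rg v') (Fin.cons (t 0) (Fin.tail t)) = B (rg v') t
    rw [Fin.cons_self_tail]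
  refine ⟨F, hF, ?_, ?_, ?_, ?_, ?_⟩
  · refine congrArg cls (GenLoop.ext _ _ fun t => ?_)
    rw [face_apply, loopOf_apply, hFa, Fin.insertNth_zero']
    exact h1 _
  · refine congrArg cls (GenLoop.ext _ _ fun t => ?_)
    rw [face_apply, loopOf_apply, hFa, Fin.insertNth_zero']
    rfl
  · intro i
    have hm' : StrictMono (v ∘ i.castSucc.succAbove) :=
      hmono.comp (Fin.strictMono_succAbove _)
    have hv' : In K (v ∘ i.castSucc.succAbove) := hv.comp _
    rw [← enum_rg e0 hm', ← hB]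
    congr 1
    refine GenLoop.ext _ _ fun t => ?_
    rw [face_apply, hFa, insertNth_succ_zero, Q_insert_succ' m i (bI true) t]
    refine hBface _ hv' hm' t _ ?_
    rw [QK_val]
    exact Q_face_one m v i (Fin.tail t)
  · have hm' : StrictMono (v ∘ (Fin.last (m + 1)).succAbove) :=
      hmono.comp (Fin.strictMono_succAbove _)
    have hv' : In K (v ∘ (Fin.last (m + 1)).succAbove) := hv.comp _
    rw [← enum_rg e0 hm', ← hB]
    congr 1
    refine GenLoop.ext _ _ fun t => ?_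
    rw [face_apply, hFa, insertNth_succ_zero, Q_insert_succ' m (Fin.last m) (bI false) t]
    refine hBface _ hv' hm' t _ ?_
    rw [QK_val]
    exact Q_face_last m v (Fin.tail t)
  · intro i hi
    have h3 : face F hF i.succ false = GenLoop.const := by
      refine GenLoop.ext _ _ fun t => ?_
      rw [face_apply, hFa, insertNth_succ_zero, Q_insert_succ' m i (bI false) t]
      have hy' : (QK hK v hv (i.insertNth (bI false) (Fin.tail t)) : E → ℝ) ∈ Geo (skel K m) :=
        Q_face_zero K hK m v hv i hi (Fin.tail t)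
      have hy : (QK hK v hv (i.insertNth (bI false) (Fin.tail t)) : E → ℝ) ∈
          Geo (skel K (m + 1)) :=
        Geo_mono (K := skel K m) (L := skel K (m + 1))
          (fun s hs => (⟨hs.1, hs.2.trans (Nat.le_succ m)⟩ : s ∈ K ∧ s.card ≤ m + 1)) hy'
      rw [hΨ _ hy]
      exact hG1 _ _ hy'
    rw [h3]
    rfl

/-- if all loops are trivial the next skeleton is null-homotopic -/
theorem finish (hK : IsLowerSet K) (n : ℕ) {x0 : Geo K} (ψ : C(Geo K, Geo K))
    (hψ : ∀ y : Geo K, (y : E → ℝ) ∈ Geo (skel K n) → ψ y = x0)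
    (hid : (ContinuousMap.id (Geo K)).Homotopic ψ)
    (hc : ∀ (v : Fin (n + 1) → E) (hv : In K v), StrictMono v →
      GenLoop.Homotopic (loopOf hK ψ hψ v hv) GenLoop.const) : PN K (n + 1) := by
  obtain ⟨e0, -⟩ : ∃ e, (x0 : E → ℝ) e ≠ 0 := by
    by_contra hcon
    push Not at hcon
    have h := x0.2.2.1
    rw [Finset.sum_eq_zero fun e _ => hcon e] at h
    exact zero_ne_one h
  have hen : ∀ s ∈ K, s.card = n + 1 → In K (enum e0 (n + 1) s) ∧
      StrictMono (enum e0 (n + 1) s) := fun s hs hsc =>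
    ⟨⟨s, hs, fun i => ((enum_spec e0 hsc).2 _).2 ⟨i, rfl⟩⟩, (enum_spec e0 hsc).1⟩
  have hH : ∀ s : Finset E, ∃ g : C((Fin n → I) × I, Geo K), ∀ (hs : s ∈ K) (hsc : s.card = n + 1),
      (∀ t, g (t, 0) = loopOf hK ψ hψ _ (hen s hs hsc).1 t) ∧ (∀ t, g (t, 1) = x0) ∧
        ∀ t : Fin n → I, (∃ i, t i = 0 ∨ t i = 1) → ∀ r, g (t, r) = x0 := by
    intro s
    by_cases hs : s ∈ K ∧ s.card = n + 1
    · obtain ⟨H⟩ := hc _ (hen s hs.1 hs.2).1 (hen s hs.1 hs.2).2
      refine ⟨⟨fun p => H (p.2, p.1), H.continuous.comp continuous_swap⟩, fun _ _ =>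
        ⟨fun t => H.apply_zero t, fun t => H.apply_one t, fun t ht r => ?_⟩⟩
      have := H.eq_snd r ht
      exact this
    · exact ⟨ContinuousMap.const _ x0, fun h1 h2 => absurd ⟨h1, h2⟩ hs⟩
  choose g hg using hH
  obtain ⟨G, hG1, hG2⟩ := glue K hK n x0 (enum e0 (n + 1))
    (fun s _ hsc => ⟨(enum_spec e0 hsc).1.injective, (enum_spec e0 hsc).2⟩) g
    (fun s hs hsc t ht r => (hg s hs hsc).2.2 t ht r)
  refine ⟨x0, ?_⟩
  have h1 : (inc K (n + 1)).Homotopic (ψ.comp (inc K (n + 1))) := by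
    have := hid.comp (ContinuousMap.Homotopic.refl (inc K (n + 1)))
    simpa using this
  refine h1.trans ⟨⟨⟨fun p => G (p.2, p.1), G.continuous.comp continuous_swap⟩, fun x => ?_,
    fun x => ?_⟩⟩
  · show G (x, 0) = ψ (inc K (n + 1) x)
    rcases cover e0 n x.1 x.2 with h | ⟨s, hs, hsc, t, ht⟩
    · rw [hG1 x 0 h]
      exact (hψ _ h).symm
    · rw [hG2 s hs hsc t x 0 ht, (hg s hs hsc).1, loopOf_apply]
      congr 1
      exact Subtype.ext ht.symm
  · show G (x, 1) = x0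
    rcases cover e0 n x.1 x.2 with h | ⟨s, hs, hsc, t, ht⟩
    · exact hG1 x 1 h
    · rw [hG2 s hs hsc t x 1 ht, (hg s hs hsc).2.1]

theorem homotopic_of_cls {N : Type} [DecidableEq N] [Nonempty N] {p : Ω^ N X x0}
    (h : cls p = 1) : GenLoop.Homotopic p GenLoop.const := Quotient.exact h

theorem alg {A : Type w} [AddCommGroup A] {n : ℕ} (a : Fin (n + 2) → A) (x1 x0 : Fin (n + 1) → A)
    (h1 : ∀ i, x1 i = a i.castSucc) (h2 : x0 (Fin.last n) = a (Fin.last (n + 1)))
    (h3 : ∀ i, i ≠ Fin.last n → x0 i = 0) :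
    ∑ i : Fin (n + 1), ((-1 : ℤ) ^ (i : ℕ)) • (x1 i - x0 i) =
      ∑ i : Fin (n + 2), ((-1 : ℤ) ^ (i : ℕ)) • a i := by
  have h4 : ∑ i : Fin (n + 1), ((-1 : ℤ) ^ (i : ℕ)) • x0 i =
      ((-1 : ℤ) ^ n) • a (Fin.last (n + 1)) := by
    rw [Finset.sum_eq_single (Fin.last n) (fun i _ hi => by rw [h3 i hi, smul_zero])
      (fun h => absurd (Finset.mem_univ _) h), h2, Fin.val_last]
  rw [Fin.sum_univ_castSucc (n := n + 1)]
  simp only [smul_sub, Finset.sum_sub_distrib, h1, Fin.val_castSucc, Fin.val_last]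
  rw [h4, pow_succ, mul_neg_one, neg_smul, sub_eq_add_neg]

theorem to_add {G : Type w} [CommGroup G] {k : ℕ} (p q : Fin k → G)
    (h : ∏ i : Fin k, (p i / q i) ^ ((-1 : ℤ) ^ (i : ℕ)) = 1) :
    ∑ i : Fin k, ((-1 : ℤ) ^ (i : ℕ)) • (Additive.ofMul (p i) - Additive.ofMul (q i)) = 0 := by
  have h1 := congrArg Additive.ofMul h
  rw [ofMul_prod, ofMul_one] at h1
  rw [← h1]
  refine Finset.sum_congr rfl fun i _ => ?_
  rw [ofMul_zpow, ofMul_div]

theorem step_abelian (hK : IsLowerSet K) (m : ℕ) (h : PN K (m + 2))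
    (hex : ∀ (A : Type u) [AddCommGroup A], Ex A (fun s => s ∈ K) (m + 3)) : PN K (m + 3) := by
  classical
  obtain ⟨x0, ψ, hψ, hid⟩ := exists_psi hK h
  have hIn : ∀ {k : ℕ} (v : Fin k → E), In K v ↔ rg v ∈ K := fun v => by
    refine ⟨rg_mem hK, fun h => ⟨_, h, fun i => Finset.mem_image_of_mem v (Finset.mem_univ i)⟩⟩
  let c : (Fin (m + 3) → E) → Additive (HomotopyGroup (Fin (m + 2)) (Geo K) x0) := fun v =>
    if hv : In K v then Additive.ofMul (cls (loopOf hK ψ hψ v hv)) else 0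
  have hc1 : ∀ v (hv : In K v), c v = Additive.ofMul (cls (loopOf hK ψ hψ v hv)) :=
    fun v hv => dif_pos hv
  obtain ⟨g, _, hg⟩ := hex _ c (by
    intro w hw
    have hw' : In K w := (hIn w).2 (by convert hw)
    have h1 := to_add _ _ (hal (ψ.comp (QK hK w hw')) (cubeW_C2 hK ψ hψ w hw'))
    rw [← h1]
    unfold D
    symm
    refine alg (fun i => c (w ∘ i.succAbove)) _ _ (fun i => ?_) ?_ (fun i hi => ?_)
    · rw [face_one, hc1 _ (hw'.comp _)]
    · rw [face_last, hc1 _ (hw'.comp _)]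
    · rw [face_zero hK ψ hψ w hw' i hi]
      rfl) (by
    intro v hv
    exact dif_neg fun h => hv (by convert (hIn v).1 h))
  obtain ⟨ψ', hψ', hψψ', hF⟩ := modify hK (m + 1) ψ hψ (fun u => Additive.toMul (-g u))
  refine finish hK (m + 2) ψ' hψ' (hid.trans hψψ') fun v hv hmono => homotopic_of_cls ?_
  obtain ⟨F, hF2, f1, f2, f3, f4, f5⟩ := hF v hv hmono
  have h1 := to_add _ _ (hal F hF2)
  rw [Fin.sum_univ_succ] at h1
  have h2 : ∑ i : Fin (m + 2), ((-1 : ℤ) ^ (i.succ : ℕ)) •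
      (Additive.ofMul (cls (face F hF2 i.succ true)) -
        Additive.ofMul (cls (face F hF2 i.succ false))) = D g v := by
    have h3 := alg (fun i : Fin (m + 3) => g (v ∘ i.succAbove))
      (fun i : Fin (m + 2) => -Additive.ofMul (cls (face F hF2 i.succ true)))
      (fun i : Fin (m + 2) => -Additive.ofMul (cls (face F hF2 i.succ false)))
      (fun i => by rw [f3]; simp) (by rw [f4]; simp) (fun i hi => by rw [f5 i hi]; simp)
    unfold D
    rw [← h3]
    refine Finset.sum_congr rfl fun i _ => ?_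
    rw [Fin.val_succ, pow_succ, mul_neg_one, neg_smul, ← smul_neg]
    congr 1
    abel
  rw [h2, f1, f2] at h1
  have h4 : c v = D g v := hg v (by convert (hIn v).1 hv)
  rw [← h4, hc1 v hv] at h1
  simp only [Fin.val_zero, pow_zero, one_smul, sub_add_cancel] at h1
  exact h1

/-- every group valued cocycle on `K` is a coboundary -/
def NonabTriv (K : Set (Finset E)) : Prop :=
  ∀ (G : Type u) [Group G] (c : E → E → G),
    (∀ e f g : E, (∃ s ∈ K, e ∈ s ∧ f ∈ s ∧ g ∈ s) → c e f * c f g = c e g) →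
    ∃ b : E → G, ∀ e f : E, (∃ s ∈ K, e ∈ s ∧ f ∈ s) → c e f = (b e)⁻¹ * b f

theorem step_one (hK : IsLowerSet K) (h : PN K 1) (hex : NonabTriv K) : PN K 2 := by
  classical
  obtain ⟨x0, ψ, hψ, hid⟩ := exists_psi hK h
  have hIn2 : ∀ e f : E, (∃ s ∈ K, e ∈ s ∧ f ∈ s) → In K (![e, f] : Fin 2 → E) := by
    rintro e f ⟨s, hs, he, hf⟩
    refine ⟨s, hs, fun i => ?_⟩
    fin_cases i
    · exact he
    · exact hf
  let c : E → E → HomotopyGroup (Fin 1) (Geo K) x0 := fun e f =>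
    if hv : In K (![e, f] : Fin 2 → E) then (cls (loopOf hK ψ hψ ![e, f] hv))⁻¹ else 1
  have hc1 : ∀ e f (hv : In K (![e, f] : Fin 2 → E)),
      c e f = (cls (loopOf hK ψ hψ ![e, f] hv))⁻¹ := fun e f hv => dif_pos hv
  obtain ⟨b, hb⟩ := hex _ c (by
    rintro e f g ⟨s, hs, he, hf, hg⟩
    have hw : In K (![e, f, g] : Fin 3 → E) := by
      refine ⟨s, hs, fun i => ?_⟩
      fin_cases i
      · exact he
      · exact hf
      · exact hg
    have h1 := hal1 (ψ.comp (QK hK ![e, f, g] hw)) (cubeW_C2 hK ψ hψ ![e, f, g] hw)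
    have e1 := face_one hK ψ hψ ![e, f, g] hw 0
    have e2 := face_one hK ψ hψ ![e, f, g] hw 1
    have e3 := face_last hK ψ hψ ![e, f, g] hw
    have e4 := face_zero hK ψ hψ ![e, f, g] hw 0 (by decide)
    have e3' : face _ (cubeW_C2 hK ψ hψ ![e, f, g] hw) 1 false =
      loopOf hK ψ hψ (![e, f, g] ∘ (Fin.last 2).succAbove) (hw.comp _) := e3
    rw [e1, e2, e3', e4, cls_const, mul_one] at h1
    have k1 : ∀ (u : Fin 2 → E) (hu : In K u) (x y : E) (hxy : u = ![x, y]),
        cls (loopOf hK ψ hψ u hu) = (c x y)⁻¹ := by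
      intro u hu x y hxy
      subst hxy
      rw [hc1 x y hu, inv_inv]
    rw [k1 _ _ f g (by funext i; fin_cases i <;> rfl), k1 _ _ e f (by funext i; fin_cases i <;> rfl),
      k1 _ _ e g (by funext i; fin_cases i <;> rfl), ← mul_inv_rev, inv_inj] at h1
    exact h1)
  obtain ⟨ψ', hψ', hψψ', hF⟩ := modify hK 0 ψ hψ (fun u => b (u 0))
  refine finish hK 1 ψ' hψ' (hid.trans hψψ') fun v hv hmono => homotopic_of_cls ?_
  obtain ⟨F, hF2, f1, f2, f3, f4, f5⟩ := hF v hv hmono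
  have h1 := hal1 F hF2
  have e3 : cls (face F hF2 1 true) = b (v 1) := (f3 0).trans rfl
  have e4 : cls (face F hF2 1 false) = b (v 0) := f4.trans rfl
  rw [f1, f2, e3, e4] at h1
  have hvs : v = ![v 0, v 1] := by
    funext i
    fin_cases i <;> rfl
  have h2 : (cls (loopOf hK ψ hψ v hv))⁻¹ = (b (v 0))⁻¹ * b (v 1) := by
    obtain ⟨s, hs, hvs'⟩ := hv
    rw [← hb (v 0) (v 1) ⟨s, hs, hvs' 0, hvs' 1⟩, hc1 _ _ (hIn2 _ _ ⟨s, hs, hvs' 0, hvs' 1⟩)]
    congr 3
  have h3 : cls (loopOf hK ψ hψ v hv) = (b (v 1))⁻¹ * b (v 0) := by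
    rw [← inv_inv (cls _), h2, mul_inv_rev, inv_inv]
  rw [h3, mul_inv_cancel_left] at h1
  exact mul_eq_right.1 h1

/-- the vertex of a tuple of length one -/
noncomputable def pt (hK : IsLowerSet K) (v : Fin 1 → E) (hv : In K v) : Geo K :=
  QK hK v hv fun i => i.elim0

theorem joined_edge (hK : IsLowerSet K) (w : Fin 2 → E) (hw : In K w) :
    Joined (pt hK (w ∘ Fin.succAbove 1) (hw.comp _)) (pt hK (w ∘ Fin.succAbove 0) (hw.comp _)) := by
  refine ⟨⟨⟨fun t => QK hK w hw fun _ => t, (QK hK w hw).continuous.comp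
    (continuous_pi fun _ => continuous_id)⟩, ?_, ?_⟩⟩
  · apply Subtype.ext
    show Q 1 w (fun _ => 0) = Q 0 (w ∘ Fin.succAbove 1) fun i => i.elim0
    have h := Q_face_last 0 w fun i => i.elim0
    have e1 : (Fin.insertNth (Fin.last 0) (0 : I) fun i : Fin 0 => (i.elim0 : I)) =
        fun _ : Fin 1 => (0 : I) := by
      funext i
      rw [Fin.fin_one_eq_zero i]
      rfl
    rw [e1] at h
    exact h
  · apply Subtype.ext
    show Q 1 w (fun _ => 1) = Q 0 (w ∘ Fin.succAbove 0) fun i => i.elim0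
    have h := Q_face_one 0 w 0 fun i => i.elim0
    have e1 : (Fin.insertNth (0 : Fin 1) (1 : I) fun i : Fin 0 => (i.elim0 : I)) =
        fun _ : Fin 1 => (1 : I) := by
      funext i
      rw [Fin.fin_one_eq_zero i]
      rfl
    rw [e1] at h
    exact h

theorem exists_vertex {A : Type w} [AddCommGroup A] (a : A) (ha : a ≠ 0) (hne : ∅ ∈ K)
    (h0 : Ex A (fun s => s ∈ K) 0) : ∃ v : Fin 1 → E, rg v ∈ K := by
  by_contra hcon
  push Not at hcon
  have hrg : ∀ v : Fin 0 → E, rg v ∈ K := fun v => by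
    have : rg v = ∅ := by simp [rg]
    rw [this]
    exact hne
  exact ha (h0 (fun _ => a) (fun v hv => absurd hv (hcon v)) (fun v hv => absurd (hrg v) hv)
    fun i => i.elim0)

theorem step_zero (hK : IsLowerSet K) (hne : ∅ ∈ K) {A : Type w} [AddCommGroup A] (a : A)
    (ha : a ≠ 0) (h0 : Ex A (fun s => s ∈ K) 0) (h1 : Ex A (fun s => s ∈ K) 1) : PN K 1 := by
  classical
  have hIn : ∀ {k : ℕ} (v : Fin k → E), In K v ↔ rg v ∈ K := fun v => by
    refine ⟨rg_mem hK, fun h => ⟨_, h, fun i => Finset.mem_image_of_mem v (Finset.mem_univ i)⟩⟩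
  obtain ⟨v0, hv0⟩ := exists_vertex a ha hne h0
  have hv0' := (hIn v0).2 hv0
  let x0 := pt hK v0 hv0'
  let f : (Fin 1 → E) → A := fun v => if hv : In K v then
    (if Joined (pt hK v hv) x0 then a else 0) else 0
  have hf : ∀ v (hv : In K v), f v = if Joined (pt hK v hv) x0 then a else 0 :=
    fun v hv => dif_pos hv
  obtain ⟨g, _, hg⟩ := h1 f (by
    intro w hw
    have hw' : In K w := (hIn w).2 hw
    have hj := joined_edge hK w hw'
    have h2 : f (w ∘ Fin.succAbove 0) = f (w ∘ Fin.succAbove 1) := by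
      rw [hf _ (hw'.comp _), hf _ (hw'.comp _)]
      by_cases h3 : Joined (pt hK (w ∘ Fin.succAbove 0) (hw'.comp _)) x0
      · rw [if_pos h3, if_pos (hj.trans h3)]
      · rw [if_neg h3, if_neg fun h4 => h3 (hj.symm.trans h4)]
    unfold D
    rw [Fin.sum_univ_two, h2]
    simp) (by
    intro v hv
    exact dif_neg fun h => hv ((hIn v).1 h))
  have hconst : ∀ v (hv : In K v), Joined (pt hK v hv) x0 := by
    intro v hv
    have h2 : f v = f v0 := by
      rw [hg v ((hIn v).1 hv), hg v0 hv0]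
      unfold D
      refine Finset.sum_congr rfl fun i _ => ?_
      congr 2
      exact Subsingleton.elim _ _
    rw [hf v hv, hf v0 hv0', if_pos (Joined.refl _)] at h2
    by_contra h3
    rw [if_neg h3] at h2
    exact ha h2.symm
  refine finish hK 0 (x0 := x0) (ContinuousMap.id _) (fun y hy => ?_)
    (ContinuousMap.Homotopic.refl _) fun v hv _ => ?_
  · exfalso
    obtain ⟨_, h2, s, hs, h3⟩ := hy
    have hs0 : s = ∅ := Finset.card_eq_zero.1 (Nat.le_zero.1 hs.2)
    rw [Finset.sum_eq_zero fun e _ => by_contra fun hne => by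
      have := h3 e hne
      rw [hs0] at this
      exact absurd this (Finset.notMem_empty e)] at h2
    exact zero_ne_one h2
  · obtain ⟨γ⟩ := hconst v hv
    refine ⟨⟨⟨⟨fun p => γ p.1, γ.continuous.comp continuous_fst⟩, fun t => ?_, fun t => ?_⟩, ?_⟩⟩
    · show γ 0 = QK hK v hv t
      rw [γ.source, Subsingleton.elim t fun i => i.elim0]
      rfl
    · exact γ.target
    · rintro s t ⟨i, _⟩
      exact i.elim0

theorem ext_of_PN (hK : IsLowerSet K) {n : ℕ} (hn : 0 < n) (h : PN K n) :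
    ExtSphere (Geo K) n := by
  obtain ⟨x0, hx0⟩ := h
  refine SPHERE.ext_of_null n hn fun f => ⟨x0, ?_⟩
  obtain ⟨g, hfg, hg⟩ := APPROX.simp_approx K hK n f
  let g' : C(cubeBd n, Geo (skel K n)) := ⟨fun x => ⟨g x, hg x⟩,
    (continuous_subtype_val.comp g.continuous).subtype_mk _⟩
  have h1 : g = (inc K n).comp g' := rfl
  rw [h1] at hfg
  have h2 := hx0.comp (ContinuousMap.Homotopic.refl g')
  exact hfg.trans h2

theorem ext_zero {Y : Type v} [TopologicalSpace Y] (y : Y) : ExtSphere Y 0 := by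
  intro f
  refine ⟨ContinuousMap.const _ y, fun x => ?_⟩
  exfalso
  have h := norm_eq_of_mem_sphere x
  rw [Subsingleton.elim (x : EuclideanSpace ℝ (Fin 0)) 0, norm_zero] at h
  exact zero_ne_one h

/-- Hurewicz-type theorem: vanishing of cohomology up to size `k` with all coefficients and
triviality of nonabelian cocycles give extension of maps from spheres of dimension less
than `k`. -/
theorem hurewicz (hK : IsLowerSet K) (hne : ∅ ∈ K) (k : ℕ)
    (hZ : ∀ n ≤ k, Ex (ZMod 2) (fun s => s ∈ K) n)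
    (hA : ∀ (A : Type u) [AddCommGroup A], ∀ n ≤ k, Ex A (fun s => s ∈ K) n)
    (hG : 2 ≤ k → NonabTriv K) (m : ℕ) (hm : m ≤ k) : ExtSphere (Geo K) m := by
  have h01 : (1 : ZMod 2) ≠ 0 := by decide
  have hPN : ∀ m, m + 1 ≤ k → PN K (m + 1) := by
    intro m
    induction m with
    | zero => exact fun h => step_zero hK hne (1 : ZMod 2) h01 (hZ 0 (by omega)) (hZ 1 h)
    | succ m ih =>
      intro h
      have ih' := ih (by omega)
      cases m with
      | zero => exact step_one hK ih' (hG h)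
      | succ m => exact step_abelian hK m ih' fun A _ => hA A (m + 3) h
  cases m with
  | zero =>
    obtain ⟨v, hv⟩ := exists_vertex (1 : ZMod 2) h01 hne (hZ 0 (by omega))
    exact ext_zero (pt hK v ⟨_, hv, fun i => Finset.mem_image_of_mem v (Finset.mem_univ i)⟩)
  | succ m => exact ext_of_PN hK (Nat.succ_pos m) (hPN m hm)

end sorted

end Run7.h62.MAIN
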