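import Pool.Agent.Run7.h62.Base

/-!
Permuting the coordinates of a generalized loop multiplies its class by the sign.
-/

set_option linter.unusedSectionVars false

namespace Run7.h62.PERM

open Run7.h62
open scoped unitInterval Topology Topology.Homotopy

universe u v

variable {N : Type} {X : Type u} [TopologicalSpace X] {x0 : X}

theorem cls_eq_of (g0 g1 : Ω^ N X x0) (F : I × (N → I) → X) (hF : Continuous F)
    (h0 : ∀ t, F (0, t) = g0 t) (h1 : ∀ t, F (1, t) = g1 t)
    (hb : ∀ (s : I) (t : N → I), (∃ i, t i = 0 ∨ t i = 1) → F (s, t) = x0) : cls g0 = cls g1 := by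
  apply Quotient.sound
  refine ⟨⟨⟨⟨F, hF⟩, h0, h1⟩, ?_⟩⟩
  intro s t ht
  exact (hb s t ht).trans (g0.2 t ht).symm

/-- a family of self-maps of the cube preserving the boundary -/
theorem cls_eq_of_self (g g0 g1 : Ω^ N X x0) (T : I × (N → I) → (N → I)) (hT : Continuous T)
    (h0 : ∀ t, g (T (0, t)) = g0 t) (h1 : ∀ t, g (T (1, t)) = g1 t)
    (hb : ∀ (s : I) (t : N → I), (∃ i, t i = 0 ∨ t i = 1) → ∃ i, T (s, t) i = 0 ∨ T (s, t) i = 1) :
    cls g0 = cls g1 :=
  cls_eq_of g0 g1 (fun p => g (T p)) (g.1.continuous.comp hT) h0 h1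
    fun s t ht => g.2 _ (hb s t ht)

/-- clamp to the unit interval -/
noncomputable def cl (x : ℝ) : I := Set.projIcc 0 1 zero_le_one x

theorem cl_continuous : Continuous cl := continuous_projIcc (h := zero_le_one)

theorem cl_coe (t : I) : cl (t : ℝ) = t := Set.projIcc_val zero_le_one t

theorem cl_of_le {x : ℝ} (h : x ≤ 0) : cl x = 0 := by
  unfold cl
  rw [Set.projIcc_of_le_left _ h]
  rfl

theorem cl_of_ge {x : ℝ} (h : 1 ≤ x) : cl x = 1 := by
  unfold cl
  rw [Set.projIcc_of_right_le _ h]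
  rfl

theorem cl_abs {x : ℝ} (h : 1 / 2 ≤ |x|) : cl (1 / 2 + x) = 0 ∨ cl (1 / 2 + x) = 1 := by
  rcases le_abs'.1 h with h | h
  · exact Or.inl (cl_of_le (by linarith))
  · exact Or.inr (cl_of_ge (by linarith))

theorem dpos (s : ℝ) : 0 < (1 - s) ^ 2 + s ^ 2 := by
  nlinarith [sq_nonneg (2 * s - 1)]

theorem conv_abs (s x y : ℝ) (hs0 : 0 ≤ s) (hs1 : s ≤ 1) (hx : |x| < 1 / 2) (hy : |y| < 1 / 2) :
    |(1 - s) * x + s * y| < 1 / 2 := by
  have h1 : |(1 - s) * x + s * y| ≤ (1 - s) * |x| + s * |y| := by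
    refine (abs_add_le _ _).trans ?_
    rw [abs_mul, abs_mul, abs_of_nonneg hs0, abs_of_nonneg (sub_nonneg.2 hs1)]
  have h2 : (1 - s) * |x| ≤ (1 - s) * max |x| |y| :=
    mul_le_mul_of_nonneg_left (le_max_left _ _) (sub_nonneg.2 hs1)
  have h3 : s * |y| ≤ s * max |x| |y| := mul_le_mul_of_nonneg_left (le_max_right _ _) hs0
  have h4 : max |x| |y| < 1 / 2 := max_lt hx hy
  nlinarith

theorem rot_ge (s u w : ℝ) (hs0 : 0 ≤ s) (hs1 : s ≤ 1) (h : 1 / 2 ≤ |u| ∨ 1 / 2 ≤ |w|) :
    1 / 2 ≤ |((1 - s) * u - s * w) / ((1 - s) ^ 2 + s ^ 2)| ∨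
      1 / 2 ≤ |(s * u + (1 - s) * w) / ((1 - s) ^ 2 + s ^ 2)| := by
  have hd := dpos s
  set U := ((1 - s) * u - s * w) / ((1 - s) ^ 2 + s ^ 2) with hU
  set W := (s * u + (1 - s) * w) / ((1 - s) ^ 2 + s ^ 2) with hW
  have h1 : (1 - s) * U + s * W = u := by
    rw [hU, hW]
    field_simp
    ring
  have h2 : -(s * U) + (1 - s) * W = w := by
    rw [hU, hW]
    field_simp
    ring
  by_contra hcon
  push Not at hcon
  obtain ⟨hU1, hW1⟩ := hcon
  have h3 : |u| < 1 / 2 := by
    rw [← h1]
    exact conv_abs s U W hs0 hs1 hU1 hW1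
  have h4 : |w| < 1 / 2 := by
    have h5 : (1 - s) * W + s * (-U) = w := by rw [← h2]; ring
    rw [← h5]
    exact conv_abs s W (-U) hs0 hs1 hW1 (by rwa [abs_neg])
  rcases h with h | h <;> linarith

variable [DecidableEq N]

/-- the rotation homotopy -/
noncomputable def rot (i j : N) (p : I × (N → I)) : N → I :=
  Function.update (Function.update p.2 i
    (cl (1 / 2 + ((1 - (p.1 : ℝ)) * ((p.2 i : ℝ) - 1 / 2) - p.1 * ((p.2 j : ℝ) - 1 / 2)) /
      ((1 - (p.1 : ℝ)) ^ 2 + (p.1 : ℝ) ^ 2)))) j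
    (cl (1 / 2 + ((p.1 : ℝ) * ((p.2 i : ℝ) - 1 / 2) + (1 - (p.1 : ℝ)) * ((p.2 j : ℝ) - 1 / 2)) /
      ((1 - (p.1 : ℝ)) ^ 2 + (p.1 : ℝ) ^ 2)))

theorem rot_continuous (i j : N) : Continuous (rot i j) := by
  have hs : Continuous fun p : I × (N → I) => (p.1 : ℝ) := continuous_subtype_val.comp continuous_fst
  have ht : ∀ k, Continuous fun p : I × (N → I) => ((p.2 k : I) : ℝ) := fun k =>
    continuous_subtype_val.comp ((continuous_apply k).comp continuous_snd)
  have hd : Continuous fun p : I × (N → I) => (1 - (p.1 : ℝ)) ^ 2 + (p.1 : ℝ) ^ 2 :=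
    ((continuous_const.sub hs).pow 2).add (hs.pow 2)
  have hne : ∀ p : I × (N → I), (1 - (p.1 : ℝ)) ^ 2 + (p.1 : ℝ) ^ 2 ≠ 0 := fun p => (dpos _).ne'
  refine Continuous.update (Continuous.update continuous_snd i (cl_continuous.comp ?_)) j
    (cl_continuous.comp ?_)
  · exact continuous_const.add ((((continuous_const.sub hs).mul ((ht i).sub continuous_const)).sub
      (hs.mul ((ht j).sub continuous_const))).div hd hne)
  · exact continuous_const.add (((hs.mul ((ht i).sub continuous_const)).add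
      ((continuous_const.sub hs).mul ((ht j).sub continuous_const))).div hd hne)

theorem abs_half {t : I} (h : t = 0 ∨ t = 1) : 1 / 2 ≤ |(t : ℝ) - 1 / 2| := by
  rcases h with rfl | rfl
  · norm_num
  · norm_num

theorem rot_boundary (i j : N) (hij : i ≠ j) (s : I) (t : N → I) (ht : ∃ k, t k = 0 ∨ t k = 1) :
    ∃ k, rot i j (s, t) k = 0 ∨ rot i j (s, t) k = 1 := by
  obtain ⟨k, hk⟩ := ht
  by_cases hkij : k = i ∨ k = j
  · have h := rot_ge (s : ℝ) ((t i : ℝ) - 1 / 2) ((t j : ℝ) - 1 / 2) s.2.1 s.2.2 (by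
      rcases hkij with rfl | rfl
      · exact Or.inl (abs_half hk)
      · exact Or.inr (abs_half hk))
    rcases h with h | h
    · refine ⟨i, ?_⟩
      simp only [rot, Function.update_of_ne hij, Function.update_self]
      exact cl_abs h
    · refine ⟨j, ?_⟩
      simp only [rot, Function.update_self]
      exact cl_abs h
  · push Not at hkij
    refine ⟨k, ?_⟩
    simp only [rot, Function.update_of_ne hkij.1, Function.update_of_ne hkij.2]
    exact hk

theorem rot_zero (i j : N) (hij : i ≠ j) (t : N → I) : rot i j (0, t) = t := by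
  funext k
  by_cases hkj : k = j
  · subst hkj
    simp only [rot, Function.update_self, Set.Icc.coe_zero]
    rw [← cl_coe (t k)]
    congr 1
    norm_num [cl_coe]
  · by_cases hki : k = i
    · subst hki
      simp only [rot, Function.update_self, Function.update_of_ne hkj, Set.Icc.coe_zero]
      rw [← cl_coe (t k)]
      congr 1
      norm_num [cl_coe]
    · simp only [rot, Function.update_of_ne hkj, Function.update_of_ne hki]

theorem rot_one (i j : N) (hij : i ≠ j) (t : N → I) :
    rot i j (1, t) = Function.update (Function.update t i (unitInterval.symm (t j))) j (t i) := by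
  funext k
  by_cases hkj : k = j
  · subst hkj
    simp only [rot, Function.update_self, Set.Icc.coe_one]
    rw [← cl_coe (t i)]
    congr 1
    norm_num [cl_coe]
  · by_cases hki : k = i
    · subst hki
      simp only [rot, Function.update_self, Function.update_of_ne hkj, Set.Icc.coe_one]
      rw [← cl_coe (unitInterval.symm (t j))]
      congr 1
      rw [unitInterval.coe_symm_eq]
      norm_num
      ring
    · simp only [rot, Function.update_of_ne hkj, Function.update_of_ne hki]

theorem swap_class [Nontrivial N] (i j : N) (hij : i ≠ j) (g : Ω^ N X x0) :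
    cls (GenLoop.congr x0 (Equiv.swap i j) g) = (cls g)⁻¹ := by
  have h1 : (cls g)⁻¹ = cls (GenLoop.symmAt i g) := HomotopyGroup.inv_spec
  rw [h1]
  symm
  refine cls_eq_of_self (GenLoop.symmAt i g) _ _ (rot i j) (rot_continuous i j) (fun t => ?_)
    (fun t => ?_) (rot_boundary i j hij)
  · rw [rot_zero i j hij]
  · rw [rot_one i j hij]
    have h2 : ∀ t, GenLoop.symmAt i g t = g fun k => if k = i then unitInterval.symm (t i) else t k :=
      fun t => rfl
    have h3 : GenLoop.congr x0 (Equiv.swap i j) g t = g fun k => t (Equiv.swap i j k) := rfl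
    rw [h2, h3]
    congr 1
    funext k
    by_cases hki : k = i
    · subst hki
      simp [Function.update_of_ne hij]
    · by_cases hkj : k = j
      · subst hkj
        simp [hki]
      · simp [hki, hkj, Equiv.swap_apply_of_ne_of_ne hki hkj]

theorem perm [Fintype N] [Nontrivial N] (p : Equiv.Perm N) (g : Ω^ N X x0) :
    cls (GenLoop.congr x0 p g) = cls g ^ ((Equiv.Perm.sign p : ℤˣ) : ℤ) := by
  induction p using Equiv.Perm.swap_induction_on generalizing g with
  | one =>
    have : GenLoop.congr x0 (1 : Equiv.Perm N) g = g := by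
      ext t
      rfl
    rw [this]
    simp
  | swap_mul f i j hij ih =>
    have : GenLoop.congr x0 (Equiv.swap i j * f) g =
        GenLoop.congr x0 (Equiv.swap i j) (GenLoop.congr x0 f g) := by
      ext t
      rfl
    rw [this, swap_class i j hij, ih]
    simp [Equiv.Perm.sign_mul, Equiv.Perm.sign_swap hij]

end Run7.h62.PERM
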