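import Pool.Agent.Run7.h62.Base

/-!
Facts about the parametrization `Q` of a simplex by a cube.
-/

set_option linter.unusedSectionVars false

namespace Run7.h62.QMAP

open Run7.h62
open scoped unitInterval

universe u

variable {E : Type u}

open Classical in
theorem Q_zero_apply (v : Fin 1 → E) (t : Fin 0 → I) (e : E) :
    Q 0 v t e = if e = v 0 then 1 else 0 := by
  simp [Q, Pi.single_apply]

open Classical in
theorem Q_succ_apply (n : ℕ) (v : Fin (n + 2) → E) (t : Fin (n + 1) → I) (e : E) :
    Q (n + 1) v t e = (1 - (t 0 : ℝ)) * (if e = v 0 then 1 else 0) +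
      (t 0 : ℝ) * Q n (Fin.tail v) (Fin.tail t) e := by
  simp [Q, Pi.single_apply]

theorem Q_continuous (n : ℕ) (v : Fin (n + 1) → E) : Continuous (Q n v) := by
  classical
  induction n with
  | zero => exact continuous_const
  | succ n ih =>
    have h1 : Continuous fun t : Fin (n + 1) → I => Q n (Fin.tail v) (Fin.tail t) :=
      (ih (Fin.tail v)).comp (continuous_pi fun i => continuous_apply _)
    have h2 : Continuous fun t : Fin (n + 1) → I => (t 0 : ℝ) :=
      continuous_subtype_val.comp (continuous_apply 0)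
    refine continuous_pi fun e => ?_
    simp only [Q_succ_apply]
    exact ((continuous_const.sub h2).mul continuous_const).add
      (h2.mul ((continuous_apply e).comp h1))

theorem Q_nonneg (n : ℕ) (v : Fin (n + 1) → E) (t : Fin n → I) (e : E) : 0 ≤ Q n v t e := by
  classical
  induction n with
  | zero => rw [Q_zero_apply]; split_ifs <;> norm_num
  | succ n ih =>
    rw [Q_succ_apply]
    have h1 : (0 : ℝ) ≤ 1 - (t 0 : ℝ) := sub_nonneg.2 (t 0).2.2
    have h2 : (0 : ℝ) ≤ (t 0 : ℝ) := (t 0).2.1
    have h3 := ih (Fin.tail v) (Fin.tail t)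
    split_ifs <;> positivity

theorem Q_sum [Fintype E] (n : ℕ) (v : Fin (n + 1) → E) (t : Fin n → I) :
    ∑ e, Q n v t e = 1 := by
  classical
  induction n with
  | zero => simp [Q_zero_apply]
  | succ n ih =>
    simp only [Q_succ_apply, Finset.sum_add_distrib, ← Finset.mul_sum, ih]
    simp

theorem Q_supp (n : ℕ) (v : Fin (n + 1) → E) (t : Fin n → I) (e : E) (h : Q n v t e ≠ 0) :
    ∃ j : Fin (n + 1), v j = e ∧ (∀ i : Fin n, t i = 0 → (j : ℕ) ≤ i) ∧
      ∀ i : Fin n, t i = 1 → j ≠ i.castSucc := by
  classical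
  induction n with
  | zero =>
    rw [Q_zero_apply] at h
    refine ⟨0, ?_, fun i => i.elim0, fun i => i.elim0⟩
    by_contra hne
    exact h (if_neg fun h' => hne h'.symm)
  | succ n ih =>
    rw [Q_succ_apply] at h
    by_cases h1 : e = v 0 ∧ (t 0 : ℝ) ≠ 1
    · refine ⟨0, h1.1.symm, fun i _ => by simp, fun i hi h0 => ?_⟩
      have : i = 0 := by
        apply Fin.castSucc_injective
        rw [← h0]; rfl
      rw [this] at hi
      exact h1.2 (by rw [hi]; rfl)
    · have h2 : (1 - (t 0 : ℝ)) * (if e = v 0 then 1 else 0) = 0 := by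
        by_cases he : e = v 0
        · have : (t 0 : ℝ) = 1 := by
            by_contra hne
            exact h1 ⟨he, hne⟩
          rw [this]; simp
        · simp [he]
      rw [h2, zero_add] at h
      obtain ⟨j, hj1, hj2, hj3⟩ := ih (Fin.tail v) (Fin.tail t) (right_ne_zero_of_mul h)
      have ht0 := left_ne_zero_of_mul h
      refine ⟨j.succ, hj1, fun i hi => ?_, fun i hi => ?_⟩
      · induction i using Fin.cases with
        | zero => exact absurd (by rw [hi]; rfl) ht0
        | succ i =>
          have := hj2 i hi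
          simp only [Fin.val_succ]
          omega
      · induction i using Fin.cases with
        | zero =>
          simp only [Fin.castSucc_zero]
          exact Fin.succ_ne_zero j
        | succ i =>
          have := hj3 i hi
          rw [← Fin.succ_castSucc]
          exact fun h => this (Fin.succ_injective _ h)

theorem Q_mem [Fintype E] (K : Set (Finset E)) (_ : IsLowerSet K) (n : ℕ)
    (v : Fin (n + 1) → E) (hv : ∃ s ∈ K, ∀ i, v i ∈ s) (t : Fin n → I) : Q n v t ∈ Geo K := by
  obtain ⟨s, hs, hvs⟩ := hv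
  refine ⟨Q_nonneg n v t, Q_sum n v t, s, hs, fun e he => ?_⟩
  obtain ⟨j, rfl, _⟩ := Q_supp n v t e he
  exact hvs j

theorem Q_insert_succ (n : ℕ) (v : Fin (n + 3) → E) (i : Fin (n + 1)) (a : I)
    (t : Fin (n + 1) → I) (b : ℕ) (hb : b = n) :
    Fin.tail (i.succ.insertNth a t : Fin (n + 2) → I) = i.insertNth a (Fin.tail t) := by
  funext j
  simp only [Fin.tail]
  induction j using i.succAboveCases with
  | x => simp
  | p j =>
    rw [Fin.insertNth_apply_succAbove, ← Fin.succ_succAbove_succ, Fin.insertNth_apply_succAbove]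
    rfl

theorem Q_insert_succ' (n : ℕ) (i : Fin (n + 1)) (a : I) (t : Fin (n + 1) → I) :
    Fin.tail (i.succ.insertNth a t : Fin (n + 2) → I) = i.insertNth a (Fin.tail t) := by
  funext j
  simp only [Fin.tail]
  induction j using i.succAboveCases with
  | x => simp
  | p j =>
    rw [Fin.insertNth_apply_succAbove, ← Fin.succ_succAbove_succ, Fin.insertNth_apply_succAbove]
    rfl

theorem insertNth_succ_zero (n : ℕ) (i : Fin (n + 1)) (a : I) (t : Fin (n + 1) → I) :
    (i.succ.insertNth a t : Fin (n + 2) → I) 0 = t 0 := by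
  have : (0 : Fin (n + 2)) = i.succ.succAbove 0 := by simp
  rw [this, Fin.insertNth_apply_succAbove]

theorem tail_comp_succ (n : ℕ) (v : Fin (n + 2) → E) (j : Fin (n + 1)) :
    Fin.tail (v ∘ j.succ.succAbove) = Fin.tail v ∘ j.succAbove := by
  funext x
  simp [Fin.tail]

theorem Q_face_one (n : ℕ) (v : Fin (n + 2) → E) (i : Fin (n + 1))
    (t : Fin n → I) : Q (n + 1) v (i.insertNth 1 t) = Q n (v ∘ i.castSucc.succAbove) t := by
  classical
  induction n with
  | zero =>
    have hi : i = 0 := Fin.fin_one_eq_zero i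
    subst hi
    funext e
    rw [Q_succ_apply, Q_zero_apply, Q_zero_apply]
    simp [Fin.tail]
  | succ n ih =>
    induction i using Fin.cases with
    | zero =>
      funext e
      rw [Q_succ_apply]
      have h1 : (Fin.insertNth (0 : Fin (n + 2)) (1 : I) t : Fin (n + 2) → I) 0 = 1 := by simp
      have h2 : Fin.tail (Fin.insertNth (0 : Fin (n + 2)) (1 : I) t : Fin (n + 2) → I) = t := by
        funext j
        simp [Fin.tail]
      have h3 : v ∘ (Fin.castSucc (0 : Fin (n + 2))).succAbove = Fin.tail v := by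
        funext j
        simp [Fin.tail]
      rw [h1, h2, h3]
      simp
    | succ i =>
      funext e
      rw [Q_succ_apply, Q_insert_succ n v i 1 t n rfl, ih, insertNth_succ_zero, Q_succ_apply,
        ← Fin.succ_castSucc, tail_comp_succ]
      simp

theorem Q_face_last (n : ℕ) (v : Fin (n + 2) → E) (t : Fin n → I) :
    Q (n + 1) v ((Fin.last n).insertNth 0 t) = Q n (v ∘ (Fin.last (n + 1)).succAbove) t := by
  classical
  induction n with
  | zero =>
    funext e
    rw [Q_succ_apply, Q_zero_apply, Q_zero_apply]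
    simp
  | succ n ih =>
    funext e
    have h1 : Fin.tail (v ∘ (Fin.last (n + 2)).succAbove) =
      Fin.tail v ∘ (Fin.last (n + 1)).succAbove := tail_comp_succ _ v (Fin.last (n + 1))
    have h2 := ih (Fin.tail v) (Fin.tail t)
    have h3 := Q_insert_succ n v (Fin.last n) 0 t n rfl
    have h4 := insertNth_succ_zero n (Fin.last n) 0 t
    rw [Fin.succ_last] at h3 h4
    rw [Q_succ_apply, h3, h2, h4, Q_succ_apply, h1]
    simp

theorem Geo_of_idx [Fintype E] (K : Set (Finset E)) (hK : IsLowerSet K) (n : ℕ)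
    (v : Fin (n + 1) → E) (hv : ∃ s ∈ K, ∀ i, v i ∈ s) (t : Fin n → I) (m : ℕ)
    (T : Finset (Fin (n + 1))) (hT : T.card ≤ m)
    (h : ∀ j : Fin (n + 1), (∀ i : Fin n, t i = 0 → (j : ℕ) ≤ i) →
      (∀ i : Fin n, t i = 1 → j ≠ i.castSucc) → j ∈ T) : Q n v t ∈ Geo (skel K m) := by
  classical
  obtain ⟨s, hs, hvs⟩ := hv
  refine ⟨Q_nonneg n v t, Q_sum n v t, T.image v, ⟨hK ?_ hs, Finset.card_image_le.trans hT⟩,
    fun e he => ?_⟩
  · intro x hx
    obtain ⟨j, _, rfl⟩ := Finset.mem_image.1 hx
    exact hvs j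
  · obtain ⟨j, rfl, h1, h2⟩ := Q_supp n v t e he
    exact Finset.mem_image_of_mem v (h j h1 h2)

theorem card_le_filter (n : ℕ) (i : ℕ) :
    (Finset.univ.filter fun j : Fin n => (j : ℕ) ≤ i).card ≤ i + 1 := by
  have : (Finset.univ.filter fun j : Fin n => (j : ℕ) ≤ i).card =
      ((Finset.univ.filter fun j : Fin n => (j : ℕ) ≤ i).image fun j : Fin n => (j : ℕ)).card :=
    (Finset.card_image_of_injective _ Fin.val_injective).symm
  rw [this]
  refine (Finset.card_le_card (t := Finset.range (i + 1)) ?_).trans (by simp)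
  intro x hx
  obtain ⟨j, hj, rfl⟩ := Finset.mem_image.1 hx
  have := (Finset.mem_filter.1 hj).2
  rw [Finset.mem_range]
  omega

theorem Q_boundary [Fintype E] (K : Set (Finset E)) (hK : IsLowerSet K) (n : ℕ)
    (v : Fin (n + 1) → E) (hv : ∃ s ∈ K, ∀ i, v i ∈ s) (t : Fin n → I)
    (ht : ∃ i, t i = 0 ∨ t i = 1) : Q n v t ∈ Geo (skel K n) := by
  classical
  obtain ⟨i, hi | hi⟩ := ht
  · refine Geo_of_idx K hK n v hv t n (Finset.univ.filter fun j : Fin (n + 1) => (j : ℕ) ≤ i)
      ((card_le_filter _ _).trans (by omega)) fun j h1 _ => ?_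
    simpa using h1 i hi
  · refine Geo_of_idx K hK n v hv t n (Finset.univ.erase i.castSucc) (by simp) fun j _ h2 => ?_
    simpa using h2 i hi

theorem Q_face_zero [Fintype E] (K : Set (Finset E)) (hK : IsLowerSet K) (n : ℕ)
    (v : Fin (n + 2) → E) (hv : ∃ s ∈ K, ∀ i, v i ∈ s) (i : Fin (n + 1)) (hi : i ≠ Fin.last n)
    (t : Fin n → I) : Q (n + 1) v (i.insertNth 0 t) ∈ Geo (skel K n) := by
  classical
  refine Geo_of_idx K hK (n + 1) v hv _ n (Finset.univ.filter fun j : Fin (n + 2) => (j : ℕ) ≤ i)
      ((card_le_filter _ _).trans ?_) fun j h1 _ => ?_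
  · have := Fin.val_lt_last hi
    omega
  · simpa using h1 i (by simp)

theorem Q_codim_two [Fintype E] (K : Set (Finset E)) (hK : IsLowerSet K) (n : ℕ)
    (v : Fin (n + 2) → E) (hv : ∃ s ∈ K, ∀ i, v i ∈ s) (t : Fin (n + 1) → I)
    (i j : Fin (n + 1)) (hij : i ≠ j) (hi : t i = 0 ∨ t i = 1) (hj : t j = 0 ∨ t j = 1) :
    Q (n + 1) v t ∈ Geo (skel K n) := by
  classical
  have key : ∀ i j : Fin (n + 1), i ≠ j → t i = 0 → (t j = 0 ∨ t j = 1) →
      Q (n + 1) v t ∈ Geo (skel K n) := by
    intro i j hij hi hj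
    by_cases hin : (i : ℕ) + 1 ≤ n
    · refine Geo_of_idx K hK (n + 1) v hv _ n
        (Finset.univ.filter fun j : Fin (n + 2) => (j : ℕ) ≤ i)
        ((card_le_filter _ _).trans hin) fun l h1 _ => ?_
      simpa using h1 i hi
    · have hijn : (i : ℕ) ≠ j := fun h => hij (Fin.ext h)
      have hjn : (j : ℕ) + 1 ≤ n := by omega
      rcases hj with hj | hj
      · refine Geo_of_idx K hK (n + 1) v hv _ n
          (Finset.univ.filter fun l : Fin (n + 2) => (l : ℕ) ≤ j)
          ((card_le_filter _ _).trans hjn) fun l h1 _ => ?_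
        simpa using h1 j hj
      · refine Geo_of_idx K hK (n + 1) v hv _ n
          ((Finset.univ.filter fun l : Fin (n + 2) => (l : ℕ) ≤ i).erase j.castSucc) ?_
          fun l h1 h2 => ?_
        · have h3 : j.castSucc ∈ Finset.univ.filter fun l : Fin (n + 2) => (l : ℕ) ≤ i := by
            simp only [Finset.mem_filter, Finset.mem_univ, true_and, Fin.val_castSucc]
            omega
          rw [Finset.card_erase_of_mem h3]
          have := card_le_filter (n + 2) i
          omega
        · simp only [Finset.mem_erase, Finset.mem_filter, Finset.mem_univ, true_and]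
          exact ⟨h2 j hj, h1 i hi⟩
  rcases hi with hi | hi
  · exact key i j hij hi hj
  · rcases hj with hj | hj
    · exact key j i hij.symm hj (Or.inr hi)
    · refine Geo_of_idx K hK (n + 1) v hv _ n
        ((Finset.univ.erase i.castSucc).erase j.castSucc) ?_ fun l _ h2 => ?_
      · rw [Finset.card_erase_of_mem, Finset.card_erase_of_mem (Finset.mem_univ _)]
        · simp
        · simp only [Finset.mem_erase, Finset.mem_univ, and_true]
          exact fun h => hij (Fin.castSucc_injective _ h).symm
      · simp only [Finset.mem_erase, Finset.mem_univ, and_true]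
        exact ⟨h2 j hj, h2 i hi⟩

theorem Q_tail_apply_zero (n : ℕ) (v : Fin (n + 2) → E) (hv : Function.Injective v)
    (t : Fin n → I) : Q n (Fin.tail v) t (v 0) = 0 := by
  by_contra h
  obtain ⟨j, hj, _⟩ := Q_supp n (Fin.tail v) t (v 0) h
  exact Fin.succ_ne_zero j (hv hj)

theorem tail_injective (n : ℕ) (v : Fin (n + 2) → E) (hv : Function.Injective v) :
    Function.Injective (Fin.tail v) := fun _ _ h => Fin.succ_injective _ (hv h)

theorem Q_interior (n : ℕ) (v : Fin (n + 1) → E) (hv : Function.Injective v)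
    (t : Fin n → I) (ht : ∀ i, t i ≠ 0 ∧ t i ≠ 1) :
    (∀ i, Q n v t (v i) ≠ 0) ∧ ∀ t', Q n v t = Q n v t' → t = t' := by
  classical
  induction n with
  | zero =>
    refine ⟨fun i => ?_, fun t' _ => Subsingleton.elim _ _⟩
    have : i = 0 := Fin.fin_one_eq_zero i
    rw [this, Q_zero_apply]
    simp
  | succ n ih =>
    obtain ⟨ih1, ih2⟩ := ih (Fin.tail v) (tail_injective n v hv) (Fin.tail t) fun i => ht i.succ
    have h0 : ∀ t : Fin (n + 1) → I, Q (n + 1) v t (v 0) = 1 - (t 0 : ℝ) := by
      intro t
      rw [Q_succ_apply, Q_tail_apply_zero n v hv]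
      simp
    have ht0 : (t 0 : ℝ) ≠ 0 := fun h => (ht 0).1 (Subtype.ext h)
    have ht1 : (t 0 : ℝ) ≠ 1 := fun h => (ht 0).2 (Subtype.ext h)
    refine ⟨fun i => ?_, fun t' h => ?_⟩
    · induction i using Fin.cases with
      | zero =>
        rw [h0]
        exact sub_ne_zero.2 ht1.symm
      | succ i =>
        rw [Q_succ_apply]
        have h3 : v i.succ ≠ v 0 := fun h => Fin.succ_ne_zero i (hv h)
        simp only [h3, if_false, mul_zero, zero_add]
        exact mul_ne_zero ht0 (ih1 i)
    · have h1 : (t 0 : ℝ) = t' 0 := by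
        have := congrFun h (v 0)
        rw [h0, h0] at this
        linarith
      have h2 : Fin.tail t = Fin.tail t' := by
        refine ih2 _ (funext fun e => ?_)
        have := congrFun h e
        rw [Q_succ_apply, Q_succ_apply, ← h1] at this
        exact mul_left_cancel₀ ht0 (add_left_cancel this)
      rw [← Fin.cons_self_tail t, ← Fin.cons_self_tail t', h2, Subtype.ext h1]

theorem Q_surj [Fintype E] (n : ℕ) (v : Fin (n + 1) → E)
    (hv : Function.Injective v) (x : E → ℝ) (hx : ∀ e, 0 ≤ x e) (hx1 : ∑ e, x e = 1)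
    (hxv : ∀ e, x e ≠ 0 → e ∈ Set.range v) : ∃ t, Q n v t = x := by
  classical
  induction n generalizing x with
  | zero =>
    refine ⟨fun i => i.elim0, funext fun e => ?_⟩
    have h0 : ∀ e, e ≠ v 0 → x e = 0 := by
      intro e he
      by_contra hne
      obtain ⟨i, rfl⟩ := hxv e hne
      exact he (congrArg v (Fin.fin_one_eq_zero i))
    rw [Q_zero_apply]
    split_ifs with he
    · rw [he, ← hx1]
      rw [Finset.sum_eq_single (v 0) (fun b _ hb => h0 b hb) (fun h => absurd (Finset.mem_univ _) h)]
    · exact (h0 e he).symm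
  | succ n ih =>
    have hle : x (v 0) ≤ 1 := by
      rw [← hx1]
      exact Finset.single_le_sum (fun e _ => hx e) (Finset.mem_univ _)
    have hsplit : x (v 0) + ∑ e ∈ Finset.univ.erase (v 0), x e = 1 := by
      rw [← hx1]
      exact Finset.add_sum_erase _ _ (Finset.mem_univ _)
    by_cases h1 : x (v 0) = 1
    · refine ⟨fun _ => 0, funext fun e => ?_⟩
      rw [Q_succ_apply]
      have h2 : ∑ e ∈ Finset.univ.erase (v 0), x e = 0 := by linarith
      have h3 := (Finset.sum_eq_zero_iff_of_nonneg (fun e _ => hx e)).1 h2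
      by_cases he : e = v 0
      · simp [he, h1]
      · simp [he, h3 e (by simp [he])]
    · have hlt : 0 < 1 - x (v 0) := by
        have : x (v 0) < 1 := lt_of_le_of_ne hle h1
        linarith
      obtain ⟨t, ht⟩ := ih (Fin.tail v) (tail_injective n v hv)
        (fun e => if e = v 0 then 0 else x e / (1 - x (v 0))) (fun e => by
          have := hx e
          split_ifs <;> positivity) (by
          rw [← Finset.add_sum_erase _ _ (Finset.mem_univ (v 0))]
          simp only [if_true, zero_add]
          rw [Finset.sum_congr rfl fun e he => if_neg (Finset.ne_of_mem_erase he),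
            ← Finset.sum_div, div_eq_one_iff_eq hlt.ne']
          linarith) (fun e he => by
          by_cases he0 : e = v 0
          · simp [he0] at he
          · simp only [he0, if_false] at he
            have hxe : x e ≠ 0 := fun h => he (by simp [h])
            obtain ⟨i, rfl⟩ := hxv e hxe
            induction i using Fin.cases with
            | zero => exact absurd rfl he0
            | succ i => exact ⟨i, rfl⟩)
      refine ⟨Fin.cons ⟨1 - x (v 0), hlt.le, by linarith [hx (v 0)]⟩ t, funext fun e => ?_⟩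
      rw [Q_succ_apply, Fin.tail_cons, ht]
      simp only [Fin.cons_zero]
      by_cases he : e = v 0
      · simp [he]
      · simp only [he, if_false, mul_zero, zero_add]
        field_simp

end Run7.h62.QMAP
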