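import Pool.Agent.Run7.h62.Base

/-!
The rainbow theorem and homological connectivity of matching complexes of 3-partite 3-graphs.
-/

set_option linter.unusedSectionVars false

namespace Run7.h62.RAINBOW

open Run7.h62

universe u v w

variable {E : Type u} {A : Type v} [AddCommGroup A]

theorem D_congr {n : ℕ} {f g : (Fin n → E) → A} {v : Fin (n + 1) → E}
    (h : ∀ i : Fin (n + 1), f (v ∘ i.succAbove) = g (v ∘ i.succAbove)) : D f v = D g v := by
  unfold D
  exact Finset.sum_congr rfl fun i _ => by rw [h i]

theorem D_eq_zero {n : ℕ} {f : (Fin n → E) → A} {v : Fin (n + 1) → E}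
    (h : ∀ i : Fin (n + 1), f (v ∘ i.succAbove) = 0) : D f v = 0 := by
  unfold D
  exact Finset.sum_eq_zero fun i _ => by rw [h i, smul_zero]

theorem D_sub {n : ℕ} (f g : (Fin n → E) → A) (v : Fin (n + 1) → E) :
    D (fun u => f u - g u) v = D f v - D g v := by
  unfold D
  rw [← Finset.sum_sub_distrib]
  exact Finset.sum_congr rfl fun i _ => by rw [smul_sub]

theorem D_add {n : ℕ} (f g : (Fin n → E) → A) (v : Fin (n + 1) → E) :
    D (fun u => f u + g u) v = D f v + D g v := by
  unfold D
  rw [← Finset.sum_add_distrib]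
  exact Finset.sum_congr rfl fun i _ => by rw [smul_add]

theorem D_cons {n : ℕ} (f : (Fin (n + 1) → E) → A) (a : E) (v : Fin (n + 1) → E) :
    D f (Fin.cons a v) = f v - D (fun u => f (Fin.cons a u)) v := by
  unfold D
  rw [Fin.sum_univ_succ, sub_eq_add_neg, ← Finset.sum_neg_distrib]
  congr 1
  · simp only [Fin.val_zero, pow_zero, one_smul]
    congr 1
  · refine Finset.sum_congr rfl fun i _ => ?_
    have h : (Fin.cons a v : Fin (n + 2) → E) ∘ i.succ.succAbove =
        (Fin.cons a (v ∘ i.succAbove) : Fin (n + 1) → E) := by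
      funext j
      induction j using Fin.cases with
      | zero => simp
      | succ j => simp
    rw [h, Fin.val_succ, pow_succ, mul_neg_one, neg_smul]

theorem D_D : ∀ {n : ℕ} (f : (Fin n → E) → A) (v : Fin (n + 2) → E), D (D f) v = 0 := by
  intro n
  induction n with
  | zero =>
    intro f v
    have h : ∀ u u' : Fin 0 → E, f u = f u' := fun u u' => by rw [Subsingleton.elim u u']
    unfold D
    simp [Fin.sum_univ_two]
    rw [h _ ((v ∘ Fin.succ) ∘ Fin.succ)]
    exact add_neg_cancel _
  | succ n ih =>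
    intro f v
    rw [← Fin.cons_self_tail v, D_cons]
    have h : (fun u : Fin (n + 1) → E => D f (Fin.cons (v 0) u)) =
        fun u => f u - D (fun u' => f (Fin.cons (v 0) u')) u := by
      funext u
      exact D_cons f (v 0) u
    rw [h, D_sub, ih, sub_zero, sub_self]

theorem D_contr {n : ℕ} (f : (Fin (n + 1) → E) → A) (a : E) (v : Fin (n + 1) → E)
    (h : D f (Fin.cons a v) = 0) : f v = D (fun u => f (Fin.cons a u)) v := by
  rw [D_cons] at h
  exact sub_eq_zero.1 h

variable [DecidableEq E]

theorem rg_comp {n m : ℕ} (v : Fin n → E) (g : Fin m → Fin n) : rg (v ∘ g) ⊆ rg v := by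
  intro e he
  simp only [rg, Finset.mem_image, Finset.mem_univ, true_and, Function.comp_apply] at he ⊢
  obtain ⟨i, rfl⟩ := he
  exact ⟨g i, rfl⟩

theorem mem_rg {n : ℕ} {v : Fin n → E} {e : E} : e ∈ rg v ↔ ∃ i, v i = e := by
  simp [rg]

theorem card_rg {n : ℕ} (v : Fin n → E) : (rg v).card ≤ n := by
  unfold rg
  exact Finset.card_image_le.trans (by simp)

theorem Ex.elim {P : Finset E → Prop} : ∀ {n : ℕ} (_ : Ex A P n) (f : (Fin n → E) → A)
    (_ : ∀ v, P (rg v) → D f v = 0) (_ : ∀ v, ¬ P (rg v) → f v = 0),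
    ∃ k : (Fin n → E) → A, (∀ v, P (rg v) → f v = k v) ∧ (∀ v, D k v = 0) ∧
      ∀ v, k v ≠ 0 → ∃ r, P r ∧ r ⊆ rg v := by
  intro n h f h1 h2
  cases n with
  | zero =>
    exact ⟨fun _ => 0, fun v _ => h f h1 h2 v, fun v => D_eq_zero fun _ => rfl,
      fun v hv => absurd rfl hv⟩
  | succ n =>
    obtain ⟨g, hg1, hg2⟩ := h f h1 h2
    refine ⟨D g, hg2, fun v => D_D g v, fun v hv => ?_⟩
    by_contra hcon
    push Not at hcon
    refine hv (D_eq_zero fun i => hg1 _ fun hP => hcon _ hP (rg_comp v _))

/-- convexity -/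
def Conv (P : Finset E → Prop) : Prop := ∀ r s t, r ⊆ s → s ⊆ t → P r → P t → P s

theorem ex_closed {P Q : Finset E → Prop} (hP : Conv P) (hQP : ∀ s, Q s → P s)
    (hcl : ∀ s t, t ⊆ s → Q s → P t → Q t) {n : ℕ} (h1 : Ex A P n)
    (h2 : Ex A (fun s => P s ∧ ¬ Q s) (n + 1)) : Ex A Q n := by
  classical
  have key : ∀ f : (Fin n → E) → A, (∀ v, Q (rg v) → D f v = 0) →
      (∀ v, ¬ Q (rg v) → f v = 0) → ∃ g : (Fin n → E) → A,
        (∀ v, ¬ (P (rg v) ∧ ¬ Q (rg v)) → g v = 0) ∧
        (∀ v, P (rg v) → D (fun u => f u - g u) v = 0) ∧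
        (∀ v, ¬ P (rg v) → f v - g v = 0) := by
    intro f hf hs
    obtain ⟨g, hg1, hg2⟩ := h2 (fun v => if P (rg v) then D f v else 0) (by
      rintro v ⟨hv1, hv2⟩
      refine Eq.trans (D_congr (g := D f) fun i => ?_) (D_D f v)
      by_cases hPi : P (rg (v ∘ i.succAbove))
      · simp only [hPi, if_true]
      · simp only [hPi, if_false]
        symm
        refine D_eq_zero fun j => ?_
        by_contra hne
        have hQ : Q (rg ((v ∘ i.succAbove) ∘ j.succAbove)) := by
          by_contra hQ
          exact hne (hs _ hQ)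
        exact hPi (hP _ _ _ (rg_comp _ _) (rg_comp _ _) (hQP _ hQ) hv1)) (by
      intro v hv
      by_cases hPv : P (rg v)
      · simp only [hPv, if_true]
        exact hf v (by by_contra hQ; exact hv ⟨hPv, hQ⟩)
      · simp only [hPv, if_false])
    refine ⟨g, hg1, fun v hv => ?_, fun v hv => ?_⟩
    · rw [D_sub]
      by_cases hQ : Q (rg v)
      · rw [hf v hQ, zero_sub, neg_eq_zero]
        refine D_eq_zero fun i => hg1 _ fun hc => hc.2 (hcl _ _ (rg_comp _ _) hQ hc.1)
      · have := hg2 v ⟨hv, hQ⟩
        simp only [hv, if_true] at this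
        rw [this, sub_self]
    · rw [hs v fun hQ => hv (hQP _ hQ), hg1 v fun hc => hv hc.1, sub_zero]
  cases n with
  | zero =>
    intro f hf hs v
    obtain ⟨g, hg1, hg2, hg3⟩ := key f hf hs
    have := h1 (fun u => f u - g u) hg2 hg3 v
    by_cases hQ : Q (rg v)
    · simp only [hg1 v fun hc => hc.2 hQ, sub_zero] at this
      exact this
    · exact hs v hQ
  | succ n =>
    intro f hf hs
    obtain ⟨g, hg1, hg2, hg3⟩ := key f hf hs
    obtain ⟨k, hk1, hk2⟩ := h1 (fun u => f u - g u) hg2 hg3
    refine ⟨fun u => if Q (rg u) then k u else 0, fun v hv => by simp [hv], fun v hv => ?_⟩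
    have h3 := hk2 v (hQP _ hv)
    simp only [hg1 v fun hc => hc.2 hv, sub_zero] at h3
    rw [h3]
    refine D_congr fun i => ?_
    by_cases hQ : Q (rg (v ∘ i.succAbove))
    · simp [hQ]
    · simp only [hQ, if_false]
      exact hk1 _ fun hPi => hQ (hcl _ _ (rg_comp _ _) hv hPi)

theorem ex_open_zero {P Q : Finset E → Prop} (hcl : ∀ s t, t ⊆ s → Q s → P t → Q t)
    (h1 : Ex A P 0) : Ex A (fun s => P s ∧ ¬ Q s) 0 := by
  intro f hf hs v
  refine h1 f (fun v hv => ?_) (fun v hv => hs v fun hc => hv hc.1) v
  by_cases hQ : Q (rg v)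
  · exact D_eq_zero fun i => hs _ fun hc => hc.2 (hcl _ _ (rg_comp _ _) hQ hc.1)
  · exact hf v ⟨hv, hQ⟩

theorem ex_open {P Q : Finset E → Prop} (hP : Conv P) (hQP : ∀ s, Q s → P s)
    (hcl : ∀ s t, t ⊆ s → Q s → P t → Q t) {n : ℕ} (h1 : Ex A P (n + 1))
    (h2 : Ex A Q n) : Ex A (fun s => P s ∧ ¬ Q s) (n + 1) := by
  classical
  intro f hf hs
  obtain ⟨g, hg1, hg2⟩ := h1 f (fun v hv => by
    by_cases hQ : Q (rg v)
    · exact D_eq_zero fun i => hs _ fun hc => hc.2 (hcl _ _ (rg_comp _ _) hQ hc.1)
    · exact hf v ⟨hv, hQ⟩) (fun v hv => hs v fun hc => hv hc.1)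
  obtain ⟨k, hk1, hk2, hk3⟩ := Ex.elim h2 (fun u => if Q (rg u) then g u else 0) (by
    intro v hv
    have h3 : D (fun u => if Q (rg u) then g u else 0) v = D g v := by
      refine D_congr fun i => ?_
      by_cases hQ : Q (rg (v ∘ i.succAbove))
      · simp [hQ]
      · simp only [hQ, if_false]
        exact (hg1 _ fun hPi => hQ (hcl _ _ (rg_comp _ _) hv hPi)).symm
    rw [h3, ← hg2 v (hQP _ hv)]
    exact hs v fun hc => hc.2 hv) (fun v hv => by simp [hv])
  refine ⟨fun u => if P (rg u) then g u - k u else 0, fun v hv => ?_, fun v hv => ?_⟩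
  · by_cases hPv : P (rg v)
    · have hQ : Q (rg v) := by by_contra hQ; exact hv ⟨hPv, hQ⟩
      have := hk1 v hQ
      simp only [hQ, if_true] at this
      simp [hPv, this]
    · simp [hPv]
  · have h5 : f v = D (fun u => g u - k u) v := by rw [hg2 v hv.1, D_sub, hk2 v, sub_zero]
    rw [h5]
    refine D_congr fun i => ?_
    by_cases hPi : P (rg (v ∘ i.succAbove))
    · simp [hPi]
    · simp only [hPi, if_false]
      rw [hg1 _ hPi, zero_sub, neg_eq_zero]
      by_contra hne
      obtain ⟨r, hr1, hr2⟩ := hk3 _ hne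
      exact hPi (hP _ _ _ hr2 (rg_comp _ _) (hQP _ hr1) hv.1)

/-- down-closed -/
def Down (P : Finset E → Prop) : Prop := ∀ s t, t ⊆ s → P s → P t

theorem ex_union {P Q : Finset E → Prop} (hP : Down P) (hQ : Down Q) {n : ℕ}
    (h1 : Ex A P n) (h2 : Ex A Q n) (h3 : ∀ m, m + 1 = n → Ex A (fun s => P s ∧ Q s) m) :
    Ex A (fun s => P s ∨ Q s) n := by
  classical
  cases n with
  | zero =>
    intro f hf hs v
    by_cases hPv : P (rg v)
    · refine h1 f (fun u hu => hf u (Or.inl hu)) (fun u hu => absurd ?_ hu) v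
      rwa [Subsingleton.elim u v]
    · refine h2 f (fun u hu => hf u (Or.inr hu)) (fun u hu => hs u ?_) v
      rw [Subsingleton.elim u v] at hu ⊢
      exact not_or.2 ⟨hPv, hu⟩
  | succ n =>
    intro f hf hs
    have hres : ∀ {R : Finset E → Prop}, Down R → ∀ {m : ℕ} (g : (Fin m → E) → A) v,
        R (rg v) → D (fun u => if R (rg u) then g u else 0) v = D g v := by
      intro R hR m g v hv
      refine D_congr fun i => ?_
      have : R (rg (v ∘ i.succAbove)) := hR _ _ (rg_comp _ _) hv
      simp [this]
    obtain ⟨g1, hg1, hg1'⟩ := h1 (fun u => if P (rg u) then f u else 0)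
      (fun v hv => by rw [hres hP f v hv]; exact hf v (Or.inl hv)) (fun v hv => by simp [hv])
    obtain ⟨g2, hg2, hg2'⟩ := h2 (fun u => if Q (rg u) then f u else 0)
      (fun v hv => by rw [hres hQ f v hv]; exact hf v (Or.inr hv)) (fun v hv => by simp [hv])
    have hPQ : Down fun s => P s ∧ Q s := fun s t hst hs => ⟨hP _ _ hst hs.1, hQ _ _ hst hs.2⟩
    obtain ⟨R, hR⟩ : ∃ R : Finset E → Prop, R = fun s => P s ∧ Q s := ⟨_, rfl⟩
    have h3' : Ex A R n := by rw [hR]; exact h3 n rfl
    have hRi : ∀ s, P s → Q s → R s := fun s h1 h2 => by rw [hR]; exact ⟨h1, h2⟩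
    have hRe : ∀ s, R s → P s ∧ Q s := fun s h => by rw [hR] at h; exact h
    rw [← hR] at hPQ
    obtain ⟨k, hk1, hk2, hk3⟩ := Ex.elim h3'
      (fun u => if R (rg u) then g1 u - g2 u else 0) (by
        intro v hv
        rw [hres hPQ (fun u => g1 u - g2 u) v hv, D_sub, ← hg1' v (hRe _ hv).1,
          ← hg2' v (hRe _ hv).2]
        simp [(hRe _ hv).1, (hRe _ hv).2]) (fun v hv => by simp [hv])
    refine ⟨fun u => if P (rg u) then g1 u else if Q (rg u) then g2 u + k u else 0,
      fun v hv => by simp [not_or.1 hv], fun v hv => ?_⟩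
    rcases hv with hv | hv
    · have h4 := hg1' v hv
      simp only [hv, if_true] at h4
      rw [h4]
      refine D_congr fun i => ?_
      have : P (rg (v ∘ i.succAbove)) := hP _ _ (rg_comp _ _) hv
      simp [this]
    · have h4 := hg2' v hv
      simp only [hv, if_true] at h4
      have h6 : f v = D (fun u => g2 u + k u) v := by rw [h4, D_add, hk2 v, add_zero]
      rw [h6]
      refine D_congr fun i => ?_
      have hQi : Q (rg (v ∘ i.succAbove)) := hQ _ _ (rg_comp _ _) hv
      by_cases hPi : P (rg (v ∘ i.succAbove))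
      · have h5 := hk1 _ (hRi _ hPi hQi)
        simp only [hRi _ hPi hQi, if_true] at h5
        simp only [hPi, if_true]
        rw [← h5]
        abel
      · simp [hPi, hQi]

theorem ex_simplex (F : Finset E) (hF : F.Nonempty) (n : ℕ) : Ex A (fun s => s ⊆ F) n := by
  classical
  obtain ⟨e, he⟩ := hF
  have hc : ∀ {m : ℕ} (v : Fin m → E), rg v ⊆ F → rg (Fin.cons e v : Fin (m + 1) → E) ⊆ F := by
    intro m v hv x hx
    obtain ⟨i, rfl⟩ := mem_rg.1 hx
    induction i using Fin.cases with
    | zero => simpa using he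
    | succ i => exact hv (mem_rg.2 ⟨i, by simp⟩)
  cases n with
  | zero =>
    intro f hf hs v
    have h := hf (Fin.cons e v) (hc v (by intro x hx; simp [rg] at hx))
    have h2 : D f (Fin.cons e v) = f v := by
      simp only [D, Fin.sum_univ_succ, Fin.val_zero, pow_zero, one_smul]
      simp only [Finset.univ_eq_empty, Finset.sum_empty, add_zero]
      congr 1
    rw [← h2, h]
  | succ n =>
    intro f hf hs
    refine ⟨fun u => if rg u ⊆ F then f (Fin.cons e u) else 0, fun v hv => by simp [hv],
      fun v hv => ?_⟩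
    rw [D_contr f e v (hf _ (hc v hv))]
    refine D_congr fun i => ?_
    have : rg (v ∘ i.succAbove) ⊆ F := (rg_comp _ _).trans hv
    simp [this]


theorem ex_congr {P Q : Finset E → Prop} (h : ∀ s, P s ↔ Q s) {n : ℕ} (hP : Ex A P n) :
    Ex A Q n := by
  have : P = Q := funext fun s => propext (h s)
  rwa [← this]

section rainbow

variable {ι : Type w} [DecidableEq ι] (κ : E → ι)

/-- at most one element of colour `i` -/
def One (i : ι) (s : Finset E) : Prop := ∀ e ∈ s, ∀ f ∈ s, κ e = i → κ f = i → e = f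

theorem One.mono {κ : E → ι} {i : ι} {s t : Finset E} (h : t ⊆ s) (hs : One κ i s) :
    One κ i t := fun e he f hf => hs e (h he) f (h hf)

theorem union_lemma {B : Finset E → Prop} (hB : Down B) (F : Finset E) (i : ι)
    (hne : ∃ v ∈ F, κ v = i) (n : ℕ)
    (h1 : ∀ v ∈ F, κ v = i → Ex A (fun s => B s ∧ s ⊆ insert v (F.filter fun e => κ e ≠ i)) n)
    (h2 : ∀ m, m + 1 = n → Ex A (fun s => B s ∧ s ⊆ F.filter fun e => κ e ≠ i) m) :
    Ex A (fun s => B s ∧ s ⊆ F ∧ One κ i s) n := by
  have key : ∀ W : Finset E, W ⊆ F.filter (fun e => κ e = i) → W.Nonempty →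
      Ex A (fun s => B s ∧ s ⊆ W ∪ F.filter (fun e => κ e ≠ i) ∧ One κ i s) n := by
    intro W
    induction W using Finset.induction_on with
    | empty => intro _ h; exact absurd h (by simp)
    | insert v W hv ih =>
      intro hW _
      have hvF : v ∈ F ∧ κ v = i := by simpa using hW (Finset.mem_insert_self v W)
      have hv1 := h1 v hvF.1 hvF.2
      have hone : ∀ s : Finset E, s ⊆ insert v (F.filter fun e => κ e ≠ i) → One κ i s := by
        intro s hs e he f hf hei hfi
        have h3 : ∀ e ∈ s, κ e = i → e = v := by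
          intro e he hei
          rcases Finset.mem_insert.1 (hs he) with h | h
          · exact h
          · exact absurd hei (Finset.mem_filter.1 h).2
        rw [h3 e he hei, h3 f hf hfi]
      rcases W.eq_empty_or_nonempty with rfl | hWne
      · refine ex_congr (fun s => ?_) hv1
        constructor
        · rintro ⟨a, b⟩
          refine ⟨a, b.trans ?_, hone s b⟩
          intro x hx
          simpa using hx
        · rintro ⟨a, b, _⟩
          refine ⟨a, b.trans ?_⟩
          intro x hx
          simpa using hx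
      · have hWF : W ⊆ F.filter (fun e => κ e = i) := (Finset.subset_insert v W).trans hW
        refine ex_congr (fun s => ?_) (ex_union (P := fun s => B s ∧
          s ⊆ W ∪ F.filter (fun e => κ e ≠ i) ∧ One κ i s)
          (Q := fun s => B s ∧ s ⊆ insert v (F.filter fun e => κ e ≠ i)) ?_ ?_ (ih hWF hWne) hv1
          fun m hm => ex_congr (fun s => ?_) (h2 m hm))
        · constructor
          · rintro (⟨a, b, c⟩ | ⟨a, b⟩)
            · exact ⟨a, b.trans (Finset.union_subset_union_left (Finset.subset_insert v W)), c⟩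
            · refine ⟨a, b.trans ?_, hone s b⟩
              intro x hx
              rcases Finset.mem_insert.1 hx with rfl | hx
              · simp
              · exact Finset.mem_union_right _ hx
          · rintro ⟨a, b, c⟩
            by_cases hvs : v ∈ s
            · right
              refine ⟨a, fun x hx => ?_⟩
              by_cases hxv : x = v
              · simp [hxv]
              · rcases Finset.mem_union.1 (b hx) with h | h
                · exfalso
                  rcases Finset.mem_insert.1 h with h | h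
                  · exact hxv h
                  · exact hxv (c x hx v hvs (Finset.mem_filter.1 (hWF h)).2 hvF.2)
                · exact Finset.mem_insert_of_mem h
            · left
              refine ⟨a, fun x hx => ?_, c⟩
              rcases Finset.mem_union.1 (b hx) with h | h
              · rcases Finset.mem_insert.1 h with h | h
                · exact absurd (h ▸ hx) hvs
                · exact Finset.mem_union_left _ h
              · exact Finset.mem_union_right _ h
        · rintro s t hst ⟨a, b, c⟩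
          exact ⟨hB _ _ hst a, hst.trans b, c.mono hst⟩
        · rintro s t hst ⟨a, b⟩
          exact ⟨hB _ _ hst a, hst.trans b⟩
        · constructor
          · rintro ⟨a, b⟩
            have b' : s ⊆ insert v (F.filter fun e => κ e ≠ i) :=
              b.trans (Finset.subset_insert _ _)
            exact ⟨⟨a, b.trans Finset.subset_union_right, hone s b'⟩, a, b'⟩
          · rintro ⟨⟨a, b, c⟩, _, d⟩
            refine ⟨a, fun x hx => ?_⟩
            rcases Finset.mem_insert.1 (d hx) with rfl | h
            · rcases Finset.mem_union.1 (b hx) with h | h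
              · exact absurd h hv
              · exact h
            · exact h
  refine ex_congr (fun s => ?_) (key (F.filter fun e => κ e = i) (Finset.Subset.refl _) ?_)
  · have : F.filter (fun e => κ e = i) ∪ F.filter (fun e => κ e ≠ i) = F :=
      Finset.filter_union_filter_not_eq _ _
    rw [this]
  · obtain ⟨v, hv, hvi⟩ := hne
    exact ⟨v, by simp [hv, hvi]⟩

theorem S0 (J : Finset ι) : ∀ (F : Finset E) (n : ℕ), n + 1 ≤ (F.image κ).card →
    Ex A (fun s => (∀ j ∈ J, One κ j s) ∧ s ⊆ F) n := by
  induction J using Finset.induction_on with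
  | empty =>
    intro F n hn
    refine ex_congr (fun s => ?_) (ex_simplex F ?_ n)
    · simp
    · rw [← Finset.image_nonempty (f := κ), ← Finset.card_pos]
      omega
  | insert i J hi ih =>
    intro F n hn
    by_cases hne : ∃ v ∈ F, κ v = i
    · refine ex_congr (fun s => ?_) (union_lemma κ (B := fun s => ∀ j ∈ J, One κ j s)
        (fun s t hst h j hj => (h j hj).mono hst) F i hne n (fun v hv hvi => ih _ _ ?_)
        fun m hm => ih _ _ ?_)
      · simp only [Finset.forall_mem_insert]
        tauto
      · have : (insert v (F.filter fun e => κ e ≠ i)).image κ = F.image κ := by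
          ext x
          simp only [Finset.mem_image, Finset.mem_insert, Finset.mem_filter]
          constructor
          · rintro ⟨e, rfl | he, rfl⟩
            · exact ⟨e, hv, rfl⟩
            · exact ⟨e, he.1, rfl⟩
          · rintro ⟨e, he, rfl⟩
            by_cases hei : κ e = i
            · exact ⟨v, Or.inl rfl, by rw [hvi, hei]⟩
            · exact ⟨e, Or.inr ⟨he, hei⟩, rfl⟩
        rw [this]
        exact hn
      · have : (F.filter fun e => κ e ≠ i).image κ = (F.image κ).erase i := by
          ext x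
          simp only [Finset.mem_image, Finset.mem_filter, Finset.mem_erase]
          constructor
          · rintro ⟨e, he, rfl⟩
            exact ⟨he.2, e, he.1, rfl⟩
          · rintro ⟨hx, e, he, rfl⟩
            exact ⟨e, ⟨he, hx⟩, rfl⟩
        obtain ⟨v, hv, hvi⟩ := hne
        rw [this, Finset.card_erase_of_mem (Finset.mem_image.2 ⟨v, hv, hvi⟩)]
        omega
    · refine ex_congr (fun s => ?_) (ih F n hn)
      simp only [Finset.forall_mem_insert]
      constructor
      · rintro ⟨a, b⟩
        exact ⟨⟨fun e he f _ hei _ => absurd ⟨e, b he, hei⟩ hne, a⟩, b⟩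
      · rintro ⟨⟨_, a⟩, b⟩
        exact ⟨a, b⟩

variable [Fintype E]

theorem S1 {C : Finset E → Prop} (hC : Down C) (N : ℕ)
    (h : ∀ (F : Finset E) (n : ℕ), n + ((Finset.univ \ F).image κ).card ≤ N →
      Ex A (fun s => C s ∧ s ⊆ F) n) (J : Finset ι) :
    ∀ (F : Finset E) (n : ℕ), n + (J ∪ (Finset.univ \ F).image κ).card ≤ N →
      Ex A (fun s => (C s ∧ ∀ j ∈ J, One κ j s) ∧ s ⊆ F) n := by
  induction J using Finset.induction_on with
  | empty =>
    intro F n hn
    refine ex_congr (fun s => ?_) (h F n (by simpa using hn))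
    simp
  | insert i J hi ih =>
    intro F n hn
    have hsub : ∀ G : Finset E, (F.filter fun e => κ e ≠ i) ⊆ G →
        J ∪ (Finset.univ \ G).image κ ⊆ insert i J ∪ (Finset.univ \ F).image κ := by
      intro G hG x hx
      simp only [Finset.mem_union, Finset.mem_image, Finset.mem_sdiff, Finset.mem_univ,
        true_and, Finset.mem_insert] at hx ⊢
      rcases hx with hx | ⟨e, he, rfl⟩
      · exact Or.inl (Or.inr hx)
      · by_cases hei : κ e = i
        · exact Or.inl (Or.inl hei)
        · right
          refine ⟨e, fun heF => he (hG ?_), rfl⟩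
          simp [heF, hei]
    have hB : Down fun s => C s ∧ ∀ j ∈ J, One κ j s :=
      fun s t hst h => ⟨hC _ _ hst h.1, fun j hj => (h.2 j hj).mono hst⟩
    by_cases hne : ∃ v ∈ F, κ v = i
    · refine ex_congr (fun s => ?_) (union_lemma κ hB F i hne n (fun v hv hvi => ih _ _ ?_)
        fun m hm => ih _ _ ?_)
      · simp only [Finset.forall_mem_insert]
        tauto
      · have := Finset.card_le_card (hsub (insert v (F.filter fun e => κ e ≠ i))
          (Finset.subset_insert _ _))
        omega
      · have := Finset.card_le_card (hsub (F.filter fun e => κ e ≠ i) (Finset.Subset.refl _))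
        omega
    · refine ex_congr (fun s => ?_) (ih F n ?_)
      · simp only [Finset.forall_mem_insert]
        constructor
        · rintro ⟨⟨a, c⟩, b⟩
          exact ⟨⟨a, fun e he f _ hei _ => absurd ⟨e, b he, hei⟩ hne, c⟩, b⟩
        · rintro ⟨⟨a, _, c⟩, b⟩
          exact ⟨⟨a, c⟩, b⟩
      · have := Finset.card_le_card (hsub F (Finset.filter_subset _ _))
        omega

/-- the family of the double induction -/
def Fam (C : Finset E → Prop) (J T : Finset ι) (s : Finset E) : Prop :=
  C s ∧ (∀ j ∈ J, One κ j s) ∧ ∀ i ∈ T, ¬ One κ i s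

theorem Fam_conv {C : Finset E → Prop} (hC : Down C) (J T : Finset ι) : Conv (Fam κ C J T) := by
  rintro r s t hrs hst ⟨_, _, hr⟩ ⟨ht1, ht2, _⟩
  exact ⟨hC _ _ hst ht1, fun j hj => (ht2 j hj).mono hst, fun i hi h => hr i hi (h.mono hrs)⟩

theorem Fam_insert_left {C : Finset E → Prop} (J T : Finset ι) (i : ι) (s : Finset E) :
    Fam κ C (insert i J) T s ↔ Fam κ C J T s ∧ One κ i s := by
  simp only [Fam, Finset.forall_mem_insert]
  tauto

theorem Fam_insert_right {C : Finset E → Prop} (J T : Finset ι) (i : ι) (s : Finset E) :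
    Fam κ C J (insert i T) s ↔ Fam κ C J T s ∧ ¬ Fam κ C (insert i J) T s := by
  simp only [Fam, Finset.forall_mem_insert]
  tauto

theorem Fam_closed {C : Finset E → Prop} (J T : Finset ι) (i : ι) (s t : Finset E)
    (hts : t ⊆ s) (hs : Fam κ C (insert i J) T s) (ht : Fam κ C J T t) :
    Fam κ C (insert i J) T t := by
  rw [Fam_insert_left] at hs ⊢
  exact ⟨ht, hs.2.mono hts⟩

theorem S2 {C : Finset E → Prop} (hC : Down C) (N : ℕ)
    (h : ∀ (F : Finset E) (n : ℕ), n + ((Finset.univ \ F).image κ).card ≤ N →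
      Ex A (fun s => C s ∧ s ⊆ F) n) (T : Finset ι) :
    ∀ (J : Finset ι) (n : ℕ), n + J.card ≤ N → Ex A (Fam κ C J T) n := by
  induction T using Finset.induction_on with
  | empty =>
    intro J n hn
    refine ex_congr (fun s => ?_) (S1 κ hC N h J Finset.univ n (by simpa using hn))
    simp [Fam]
  | insert i T hi ih =>
    intro J n hn
    refine ex_congr (fun s => (Fam_insert_right κ J T i s).symm) ?_
    cases n with
    | zero => exact ex_open_zero (Fam_closed κ J T i) (ih J 0 hn)
    | succ n =>
      refine ex_open (Fam_conv κ hC J T) (fun s hs => ((Fam_insert_left κ J T i s).1 hs).1)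
        (Fam_closed κ J T i) (ih J (n + 1) hn) (ih (insert i J) n ?_)
      have := Finset.card_insert_le i J
      omega

theorem card_of_Fam {C : Finset E → Prop} (J : Finset ι) : ∀ (T : Finset ι) (s : Finset E),
    Fam κ C J T s → 2 * T.card ≤ s.card := by
  intro T s hs
  have h1 : ∀ i ∈ T, 2 ≤ (s.filter fun e => κ e = i).card := by
    intro i hi
    have h2 := hs.2.2 i hi
    unfold One at h2
    push Not at h2
    obtain ⟨e, he, f, hf, hei, hfi, hef⟩ := h2
    have : ({e, f} : Finset E) ⊆ s.filter fun e => κ e = i := by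
      intro x hx
      simp only [Finset.mem_insert, Finset.mem_singleton] at hx
      rcases hx with rfl | rfl
      · simp [he, hei]
      · simp [hf, hfi]
    have := Finset.card_le_card this
    rwa [Finset.card_pair hef] at this
  calc 2 * T.card = ∑ _i ∈ T, 2 := by simp [mul_comm]
    _ ≤ ∑ i ∈ T, (s.filter fun e => κ e = i).card := Finset.sum_le_sum h1
    _ = (s.filter fun e => κ e ∈ T).card := by
        rw [← Finset.card_biUnion]
        · congr 1
          ext x
          simp only [Finset.mem_biUnion, Finset.mem_filter]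
          constructor
          · rintro ⟨i, hi, hx, rfl⟩
            exact ⟨hx, hi⟩
          · rintro ⟨hx, hi⟩
            exact ⟨_, hi, hx, rfl⟩
        · intro i _ j _ hij
          rw [Function.onFun, Finset.disjoint_left]
          intro x hx hx'
          exact hij ((Finset.mem_filter.1 hx).2.symm.trans (Finset.mem_filter.1 hx').2)
    _ ≤ s.card := Finset.card_filter_le _ _

theorem ex_trivial {P : Finset E → Prop} {n : ℕ} (hP : ∀ s, P s → n < s.card) : Ex A P n := by
  cases n with
  | zero =>
    intro f _ hs v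
    exact hs v fun h => absurd (hP _ h) (by have := card_rg v; omega)
  | succ n =>
    intro f _ hs
    exact ⟨fun _ => 0, fun _ _ => rfl, fun v hv =>
      absurd (hP _ hv) (by have := card_rg v; omega)⟩

theorem S3 {C : Finset E → Prop} (hC : Down C) (k : ℕ)
    (h : ∀ (F : Finset E) (n : ℕ), n + ((Finset.univ \ F).image κ).card ≤ 2 * k →
      Ex A (fun s => C s ∧ s ⊆ F) n) (J : Finset ι) :
    ∀ (T : Finset ι) (n : ℕ), Disjoint J T → n ≤ k + T.card → Ex A (Fam κ C J T) n := by
  induction J using Finset.induction_on with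
  | empty =>
    intro T n _ hn
    by_cases hnk : n ≤ 2 * k
    · exact S2 κ hC (2 * k) h T ∅ n (by simpa using hnk)
    · refine ex_trivial fun s hs => ?_
      have := card_of_Fam κ ∅ T s hs
      omega
  | insert i J hi ih =>
    intro T n hJT hn
    have hiT : i ∉ T := fun h => (Finset.disjoint_left.1 hJT (Finset.mem_insert_self i J)) h
    have hJT' : Disjoint J T := hJT.mono_left (Finset.subset_insert i J)
    refine ex_closed (Fam_conv κ hC J T) (fun s hs => ((Fam_insert_left κ J T i s).1 hs).1)
        (Fam_closed κ J T i) (ih T n hJT' hn)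
        (ex_congr (fun s => Fam_insert_right κ J T i s) (ih (insert i T) (n + 1) ?_ ?_))
    · rw [Finset.disjoint_insert_right]
      exact ⟨hi, hJT'⟩
    · rw [Finset.card_insert_of_notMem hiT]
      omega

/-- The rainbow theorem. -/
theorem rainbow {C : Finset E → Prop} (hC : Down C) (k : ℕ)
    (h : ∀ (F : Finset E) (n : ℕ), n + ((Finset.univ \ F).image κ).card ≤ 2 * k →
      Ex A (fun s => C s ∧ s ⊆ F) n) (n : ℕ) (hn : n ≤ k) :
    Ex A (fun s => C s ∧ ∀ e ∈ s, ∀ f ∈ s, κ e = κ f → e = f) n := by
  refine ex_congr (fun s => ?_) (S3 κ hC k h (Finset.univ.image κ) ∅ n (by simp) (by simpa using hn))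
  simp only [Fam, Finset.notMem_empty, false_imp_iff, implies_true, and_true, One,
    Finset.mem_image, Finset.mem_univ, true_and]
  refine and_congr_right fun _ => ⟨fun h e he f hf hef => h _ ⟨f, rfl⟩ e he f hf hef rfl, ?_⟩
  rintro h j _ e he f hf rfl hfj
  exact h e he f hf hfj.symm

end rainbow

theorem hom_conn {W : Type w} [Fintype E] (H : E → Fin 3 → W)
    (S : Set E) (k : ℕ) (hS : Tau H S (4 * k + 1)) (A : Type v)
    [AddCommGroup A] (n : ℕ) (hn : n ≤ k) : Ex A (Mat H S) n := by
  classical
  set S' : Finset E := Finset.univ.filter fun e => e ∈ S with hS'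
  have inj : ∀ i : Fin 3, Down fun s : Finset E => ∀ e ∈ s, ∀ f ∈ s, H e i = H f i → e = f :=
    fun i s t hst h e he f hf => h e (hst he) f (hst hf)
  refine ex_congr (fun s => ?_) (rainbow (fun e => H e 0) (C := fun s => (s ⊆ S' ∧
    ∀ e ∈ s, ∀ f ∈ s, H e 2 = H f 2 → e = f) ∧ ∀ e ∈ s, ∀ f ∈ s, H e 1 = H f 1 → e = f)
    (fun s t hst h => ⟨⟨hst.trans h.1.1, inj 2 _ _ hst h.1.2⟩, inj 1 _ _ hst h.2⟩) k
    (fun F n hF => ?_) n hn)
  · simp only [Mat, Dj, hS']
    constructor
    · rintro ⟨⟨⟨a, b⟩, c⟩, d⟩
      refine ⟨fun e he => by simpa using a he, fun e he f hf hef i hi => hef ?_⟩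
      fin_cases i
      · exact d e he f hf hi
      · exact c e he f hf hi
      · exact b e he f hf hi
    · rintro ⟨a, b⟩
      have b' : ∀ i : Fin 3, ∀ e ∈ s, ∀ f ∈ s, H e i = H f i → e = f := fun i e he f hf hi => by
        by_contra hef
        exact b e he f hf hef i hi
      exact ⟨⟨⟨fun e he => by simpa using a e he, b' 2⟩, b' 1⟩, b' 0⟩
  · refine ex_congr (fun s => ?_) (rainbow (fun e => H e 1) (C := fun s => s ⊆ S' ∩ F ∧
      ∀ e ∈ s, ∀ f ∈ s, H e 2 = H f 2 → e = f)
      (fun s t hst h => ⟨hst.trans h.1, inj 2 _ _ hst h.2⟩) n (fun F' n' hF' => ?_) n le_rfl)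
    · simp only [Finset.subset_inter_iff]
      tauto
    · refine ex_congr (fun s => ?_) (S0 (fun e => H e 2)
        (Finset.univ.image fun e => H e 2) ((S' ∩ F) ∩ F') n' ?_)
      · simp only [One, Finset.mem_image, Finset.mem_univ, true_and, Finset.subset_inter_iff]
        constructor
        · rintro ⟨a, ⟨b, c⟩, d⟩
          exact ⟨⟨⟨b, c⟩, fun e he f hf hef => a _ ⟨f, rfl⟩ e he f hf hef rfl⟩, d⟩
        · rintro ⟨⟨⟨b, c⟩, a⟩, d⟩
          refine ⟨?_, ⟨b, c⟩, d⟩
          rintro j _ e he f hf hej hfj
          exact a e he f hf (hej.trans hfj.symm)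
      · by_contra hlt
        push Not at hlt
        obtain ⟨e, he, hU⟩ := hS ((Finset.univ \ F).image (fun e => H e 0) ∪
          ((Finset.univ \ F').image (fun e => H e 1) ∪
            ((S' ∩ F) ∩ F').image fun e => H e 2)) (by
          refine (Finset.card_union_le _ _).trans_lt ?_
          have := Finset.card_union_le ((Finset.univ \ F').image (fun e => H e 1))
            (((S' ∩ F) ∩ F').image fun e => H e 2)
          omega)
        by_cases heF : e ∈ F
        · by_cases heF' : e ∈ F'
          · refine hU 2 (Finset.mem_union_right _ (Finset.mem_union_right _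
              (Finset.mem_image.2 ⟨e, ?_, rfl⟩)))
            simp [hS', he, heF, heF']
          · refine hU 1 (Finset.mem_union_right _ (Finset.mem_union_left _
              (Finset.mem_image.2 ⟨e, ?_, rfl⟩)))
            simp [heF']
        · refine hU 0 (Finset.mem_union_left _ (Finset.mem_image.2 ⟨e, ?_, rfl⟩))
          simp [heF]

end Run7.h62.RAINBOW
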